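import Pool.Agent.Run7.h652.SG.Fam

/-!
# All twists
-/

open Polynomial WithZero IsDedekindDomain IsLocalRing
open scoped Classical

set_option autoImplicit false
set_option linter.all false

namespace Run7.h652.SG

open Run7.h905.BS Pool.Agent.N352.JB
open Pool.Agent.W309.TD (NoTwo even_rep)
open Pool.Agent.Y160.SE (Good)
open Pool.Agent.N424.JB (good_two)

attribute [local instance] Polynomial.algebra

/-- The hypotheses for a general twist. -/
structure HypD {k : Type} [Field k] (m h D A B : k[X]) : Prop where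
  mon : m.Monic
  irr : Irreducible m
  odd : Odd m.natDegree
  prime : Irreducible (m.comp h)
  ndvd : ¬ m.comp h ∣ D
  eq : D = A * B ^ 2
  cop : ∀ π : k[X], Irreducible π → π ∣ A → π.natDegree.Coprime m.natDegree

theorem HypD.D_ne {k : Type} [Field k] {m h D A B : k[X]} (Q : HypD m h D A B) : D ≠ 0 := by
  rintro rfl
  exact Q.ndvd (dvd_zero _)

theorem HypD.ext {k k' : Type} [Field k] [Finite k] [Field k'] [Algebra k k']
    [FiniteDimensional k k'] {m h D A B : k[X]} (Q : HypD m h D A B)
    (hc : Nat.Coprime (m.natDegree * h.natDegree) (Module.finrank k k')) :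
    HypD (m.map (algebraMap k k')) (h.map (algebraMap k k')) (D.map (algebraMap k k'))
      (A.map (algebraMap k k')) (B.map (algebraMap k k')) where
  mon := Q.mon.map _
  irr := Run7.h905.DK.irr_ext Q.irr (Nat.Coprime.coprime_dvd_left (Dvd.intro _ rfl) hc)
  odd := by rw [natDegree_map]; exact Q.odd
  prime := by
    rw [← Polynomial.map_comp]
    exact Run7.h905.DK.irr_ext Q.prime (by rw [natDegree_comp]; exact hc)
  ndvd := by
    rw [← Polynomial.map_comp, Polynomial.map_dvd_map']
    exact Q.ndvd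
  eq := by
    rw [← Polynomial.map_pow, ← Polynomial.map_mul, ← Q.eq]
  cop := by
    intro π' h1 h2
    obtain ⟨π, h3, h4, h5⟩ := facExt h1 h2
    rw [natDegree_map]
    exact Nat.Coprime.coprime_dvd_left h5 (Q.cop π h3 h4)

section sel

variable {k K kn M : Type} [Field k] [Finite k] [Field K] [Algebra k[X] K] [IsFractionRing k[X] K]
  [Field kn] [Algebra k kn] [Field M] [Algebra kn[X] M] [IsFractionRing kn[X] M] [Algebra K M]
  [Algebra k[X] M] [IsScalarTower k[X] kn[X] M] [IsScalarTower k[X] K M] {m : k[X]} {τ : kn}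
  {h D A B : k[X]}

/-- The valuations of a local class away from `m(h)`. -/
theorem off_allD [Algebra.IsIntegral k[X] kn[X]] (H : Dat m τ) (Q : HypD m h D A B) {g : K[X]}
    (hne : aeval (algebraMap k[X] M D * cf M m h τ) g ≠ 0)
    (hN : IsSquare (Algebra.norm K (aeval (algebraMap k[X] M D * cf M m h τ) g)))
    (hloc : LocAll (k := k) (FF K m h D) g) (w : HeightOneSpectrum kn[X])
    (hs : algebraMap k[X] kn[X] (m.comp h) ∉ w.asIdeal) :
    IsSquare (w.valuation M (aeval (algebraMap k[X] M D * cf M m h τ) g)) := by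
  haveI := H.fd
  by_cases hA : algebraMap k[X] kn[X] A ∈ w.asIdeal
  · -- an inert place
    haveI : w.asIdeal.IsPrime := w.isPrime
    have hv : (w.under k[X]).asIdeal.IsPrime := (w.under k[X]).isPrime
    have hA' : A ∈ (w.under k[X]).asIdeal := hA
    have hA0 : A ≠ 0 := by
      rintro rfl
      apply Q.D_ne
      rw [Q.eq, zero_mul]
    obtain ⟨π, hπ, hπA, hπw⟩ : ∃ π : k[X], Irreducible π ∧ π ∣ A ∧ π ∈ (w.under k[X]).asIdeal := by
      have h1 : ∀ s : Multiset k[X], s.prod ∈ (w.under k[X]).asIdeal →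
          ∃ π ∈ s, π ∈ (w.under k[X]).asIdeal := by
        intro s
        induction s using Multiset.induction_on with
        | empty =>
          intro h1
          rw [Multiset.prod_zero] at h1
          exact absurd ((Ideal.eq_top_iff_one _).2 h1) hv.ne_top
        | cons a s ih =>
          intro h1
          rw [Multiset.prod_cons] at h1
          rcases hv.mem_or_mem h1 with h2 | h2
          · exact ⟨a, Multiset.mem_cons_self a s, h2⟩
          · obtain ⟨π, h3, h4⟩ := ih h2
            exact ⟨π, Multiset.mem_cons_of_mem h3, h4⟩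
      have h2 := UniqueFactorizationMonoid.factors_prod hA0
      obtain ⟨u, hu⟩ := h2
      have h3 : (UniqueFactorizationMonoid.factors A).prod ∈ (w.under k[X]).asIdeal := by
        have h4 : (UniqueFactorizationMonoid.factors A).prod = A * ((u⁻¹ : k[X]ˣ) : k[X]) := by
          have h5 := congrArg (fun z => z * ((u⁻¹ : k[X]ˣ) : k[X])) hu
          simp only [mul_assoc, Units.mul_inv, mul_one] at h5
          exact h5
        rw [h4]
        exact Ideal.mul_mem_right _ _ hA'
      obtain ⟨π, h5, h6⟩ := h1 _ h3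
      exact ⟨π, UniqueFactorizationMonoid.irreducible_of_factor π h5,
        UniqueFactorizationMonoid.dvd_of_mem_factors h5, h6⟩
    have hirr : Irreducible (algebraMap k[X] kn[X] π) := by
      rw [Polynomial.algebraMap_def, coe_mapRingHom]
      exact Run7.h905.DK.irr_ext hπ (by rw [H.deg]; exact Q.cop π hπ hπA)
    exact inert_sq H hπ hirr w hπw hne hN
  · exact off_even H Q.prime Q.D_ne (u := A) (b := B) Q.eq w hs hA hloc


/-- **The Selmer group** has at most two elements. -/
theorem selmerD (h2 : (2 : k) ≠ 0) (H : Dat m τ) (Q : HypD m h D A B) {g g' : K[X]}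
    (hcop : IsCoprime g (FF K m h D))
    (hN : IsSquare (Algebra.norm K (AdjoinRoot.mk (FF K m h D) g)))
    (hloc : LocAll (k := k) (FF K m h D) g)
    (hcop' : IsCoprime g' (FF K m h D))
    (hN' : IsSquare (Algebra.norm K (AdjoinRoot.mk (FF K m h D) g')))
    (hloc' : LocAll (k := k) (FF K m h D) g') :
    IsSquare (aeval (algebraMap k[X] M D * cf M m h τ) g) ∨
      IsSquare (aeval (algebraMap k[X] M D * cf M m h τ) g') ∨
      IsSquare (aeval (algebraMap k[X] M D * cf M m h τ) (g * g')) := by
  haveI := H.int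
  have hroot := FF_root (K := K) (M := M) H Q.prime Q.D_ne
  have hnorm := fun g : K[X] => FF_norm (K := K) (M := M) H Q.prime Q.D_ne g
  set θ : M := algebraMap k[X] M D * cf M m h τ with hθ
  have hne : ∀ g : K[X], IsCoprime g (FF K m h D) → aeval θ g ≠ 0 := by
    intro g hcop h0
    obtain ⟨a, b, hab⟩ := hcop
    have h1 := congrArg (aeval θ) hab
    rw [map_add, map_mul, map_mul, h0, hroot, mul_zero, mul_zero, add_zero, map_one] at h1
    exact zero_ne_one h1
  have hcf0 : cf M m h τ ≠ 0 := by
    unfold cf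
    refine div_ne_zero ?_ (sub_ne H Q.prime)
    rw [IsScalarTower.algebraMap_apply k[X] K M]
    exact (_root_.map_ne_zero _).2
      ((map_ne_zero_iff _ (IsFractionRing.injective k[X] K)).2 Q.prime.ne_zero)
  have hg := hne g hcop
  have hg' := hne g' hcop'
  have hn : IsSquare (Algebra.norm K (aeval θ g)) := by rw [← hnorm]; exact hN
  have hn' : IsSquare (Algebra.norm K (aeval θ g')) := by rw [← hnorm]; exact hN'
  rcases bad_places (K := K) (M := M) H Q.prime Q.ndvd hloc with hb | hb
  · left
    apply sq_of_even (K := K) h2 H hg hn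
    intro w
    by_cases hw : algebraMap k[X] kn[X] (m.comp h) ∈ w.asIdeal
    · exact hb w hw
    · exact off_allD H Q hg hn hloc w hw
  · rcases bad_places (K := K) (M := M) H Q.prime Q.ndvd hloc' with hb' | hb'
    · right; left
      apply sq_of_even (K := K) h2 H hg' hn'
      intro w
      by_cases hw : algebraMap k[X] kn[X] (m.comp h) ∈ w.asIdeal
      · exact hb' w hw
      · exact off_allD H Q hg' hn' hloc' w hw
    · right; right
      rw [map_mul]
      refine sq_of_even (K := K) h2 H (mul_ne_zero hg hg') ?_ ?_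
      · rw [map_mul]
        exact hn.mul hn'
      · intro w
        rw [map_mul]
        by_cases hw : algebraMap k[X] kn[X] (m.comp h) ∈ w.asIdeal
        · obtain ⟨a, ha⟩ := hb w hw
          obtain ⟨b, hb⟩ := hb' w hw
          rw [map_mul] at ha hb
          have hc : w.valuation M (cf M m h τ) ≠ 0 := (Valuation.ne_zero_iff _).2 hcf0
          refine ⟨a * b / w.valuation M (cf M m h τ), ?_⟩
          have h3 : a * b / w.valuation M (cf M m h τ) * (a * b / w.valuation M (cf M m h τ)) =
              (a * a) * (b * b) / (w.valuation M (cf M m h τ) * w.valuation M (cf M m h τ)) := by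
            field_simp
          rw [h3, ← ha, ← hb]
          field_simp
          rfl
        · exact (off_allD H Q hg hn hloc w hw).mul (off_allD H Q hg' hn' hloc' w hw)

end sel

section crit

open Pool.Agent.Y160.SE Pool.Agent.N352.JB
open Pool.Agent.N352.Sha (ShaTrivial ShaTrivialAt)

variable {k K : Type} [Field k] [Field K] [Algebra k[X] K] [IsFractionRing k[X] K]

theorem crit2 (h2 : (2 : K) ≠ 0) {F : K[X]} (hmon : F.Monic) (hirr : Irreducible F)
    (hsep : F.Separable) (hodd : Odd F.natDegree)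
    (hS : ∀ g g' : K[X], IsCoprime g F → IsSquare (Algebra.norm K (AdjoinRoot.mk F g)) →
      LocAll (k := k) F g → IsCoprime g' F → IsSquare (Algebra.norm K (AdjoinRoot.mk F g')) →
      LocAll (k := k) F g' →
      (∃ s, F ∣ g - s ^ 2) ∨ (∃ s, F ∣ g' - s ^ 2) ∨ ∃ s, F ∣ g * g' - s ^ 2) :
    (∀ x : Jac 2 F K, 2 • x = 0 → x = 0) ∧
      (∀ x y : Jac 2 F K, (∃ R : Jac 2 F K, x = 2 • R) ∨ (∃ R : Jac 2 F K, y = 2 • R) ∨
        ∃ R : Jac 2 F K, x + y = 2 • R) ∧
      (∀ x : Jac 2 F K, (∀ R : Jac 2 F K, x ≠ 2 • R) → ShaTrivial 2 F k[X]) := by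
  have hg : Good 2 (-1 : K) F := good_two h2 hmon hsep hodd
  refine ⟨no_two hg hirr, ?_, ?_⟩
  · intro x y
    obtain ⟨g, hkg, hcop, hloc, hN⟩ := kc_exists hg (SeparableClosure K) hodd x
    obtain ⟨g', hkg', hcop', hloc', hN'⟩ := kc_exists hg (SeparableClosure K) hodd y
    rcases hS g g' hcop hN (fun v => Pool.Agent.N424.JB.LocIm.up hloc) hcop' hN'
      (fun v => Pool.Agent.N424.JB.LocIm.up hloc') with ⟨s, hs⟩ | ⟨s, hs⟩ | ⟨s, hs⟩
    · obtain ⟨R, hR⟩ := KC.sq hg hirr hkg hs
      exact Or.inl ⟨R, hR.symm⟩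
    · obtain ⟨R, hR⟩ := KC.sq hg hirr hkg' hs
      exact Or.inr (Or.inl ⟨R, hR.symm⟩)
    · obtain ⟨R, hR⟩ := KC.sq hg hirr (hkg.add hkg') hs
      exact Or.inr (Or.inr ⟨R, hR.symm⟩)
  · intro x hx
    obtain ⟨g', hkg', hcop', hloc', hN'⟩ := kc_exists hg (SeparableClosure K) hodd x
    have hns : ¬ ∃ s, F ∣ g' - s ^ 2 := by
      rintro ⟨s, hs⟩
      obtain ⟨R, hR⟩ := KC.sq hg hirr hkg' hs
      exact hx R hR.symm
    have hSel : SelPts (PlR k[X] K) F := by
      intro g h3 h4 h5
      rcases hS g g' h3 h4 (fun v => h5 _ (PlR.mk v)) hcop' hN'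
        (fun v => Pool.Agent.N424.JB.LocIm.up hloc') with ⟨s, hs⟩ | hs | ⟨s, hs⟩
      · refine ⟨[], s, fun p hp => absurd hp (List.not_mem_nil), ?_⟩
        rw [List.map_nil, List.prod_nil, mul_one]
        exact hs
      · exact absurd hs hns
      · obtain ⟨l, s', hl, hs'⟩ := hloc'
        obtain ⟨a, b, hab⟩ := hcop'
        refine ⟨l, s * s' * a, hl, ?_⟩
        obtain ⟨u, hu⟩ := hs
        obtain ⟨u', hu'⟩ := hs'
        set L := (l.map fun p => (-1) ^ p.1.natDegree * p.1).prod with hL
        have e1 : g * g' = s ^ 2 + F * u := by linear_combination hu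
        have e2 : g' * L = s' ^ 2 + F * u' := by linear_combination hu'
        have e3 : a * g' = 1 - b * F := by linear_combination hab
        have e4 : g * L - (s * s' * a) ^ 2 =
            g * L - (a * g') ^ 2 * (g * L) + a ^ 2 * ((g * g') * (g' * L) - s ^ 2 * s' ^ 2) := by
          ring
        rw [e4, e3, e1, e2]
        refine ⟨(2 * b - b ^ 2 * F) * (g * L) + a ^ 2 * (s ^ 2 * u' + u * s' ^ 2 + F * u * u'), ?_⟩
        ring
    have h3 := sha' h2 hmon hirr hsep hodd hSel
    exact fun c m hc hl hb => h3 c m hc (fun E _ _ hE => by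
      cases hE with
      | mk v => exact hl v) hb

end crit

section main

open Pool.Agent.Y713.Jac (J CoordRing)
open Pool.Agent.N352.Sha (ShaTrivial)

theorem mainD {k : Type} [Field k] [Finite k] (K : Type) [Field K] [Algebra k[X] K]
    [IsFractionRing k[X] K] (h2 : (2 : k) ≠ 0) {m h D A B : k[X]} (Q : HypD m h D A B) :
    (∀ x : Additive (J 2 (FF K m h D) K), 2 • x = 0 → x = 0) ∧
      (∀ x y : Additive (J 2 (FF K m h D) K), (∃ R, x = 2 • R) ∨ (∃ R, y = 2 • R) ∨
        ∃ R, x + y = 2 • R) ∧
      (∀ x : Additive (J 2 (FF K m h D) K), (∀ R, x ≠ 2 • R) →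
        ShaTrivial 2 (FF K m h D) k[X]) := by
  haveI : Fact (Irreducible m) := ⟨Q.irr⟩
  let kn := AdjoinRoot m
  let M := FractionRing kn[X]
  let τ : kn := AdjoinRoot.root m
  have H : Dat m τ := ⟨Q.mon, Q.irr, Q.odd, by
    show aeval (AdjoinRoot.root m) m = 0
    rw [AdjoinRoot.aeval_eq, AdjoinRoot.mk_self], by
    show Module.finrank k (AdjoinRoot m) = _
    rw [(AdjoinRoot.powerBasis Q.irr.ne_zero).finrank, AdjoinRoot.powerBasis_dim]⟩
  haveI := H.int
  have hinj : Function.Injective (algebraMap k[X] M) := by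
    rw [IsScalarTower.algebraMap_eq k[X] kn[X] M]
    exact (IsFractionRing.injective kn[X] M).comp
      (Polynomial.map_injective _ (algebraMap k kn).injective)
  letI : Algebra K M := RingHom.toAlgebra (IsFractionRing.lift hinj)
  haveI : IsScalarTower k[X] K M := IsScalarTower.of_algebraMap_eq fun z =>
    (IsFractionRing.lift_algebraMap hinj z).symm
  have h2K : (2 : K) ≠ 0 := by
    intro h0
    apply h2
    have h1 : Function.Injective ((algebraMap k[X] K).comp (C : k →+* k[X])) :=
      RingHom.injective _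
    apply h1
    rw [map_zero, map_ofNat, h0]
  have hirr := FF_irr (K := K) M H Q.prime Q.D_ne
  have hsep := FF_sep (K := K) M H Q.prime Q.D_ne
  have hmon := FF_monic (K := K) H h D
  have hodd : Odd (FF K m h D).natDegree := by
    rw [FF_deg H]
    exact H.odd
  have hmp := FF_minpoly (K := K) (M := M) H Q.prime Q.D_ne
  set θ : M := algebraMap k[X] M D * cf M m h τ with hθ
  have hsd : ∀ g : K[X], IsSquare (aeval θ g) → ∃ s, FF K m h D ∣ g - s ^ 2 := by
    rintro g ⟨y, hy⟩
    obtain ⟨s, rfl⟩ := FF_surj (K := K) (M := M) H Q.prime Q.D_ne y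
    refine ⟨s, ?_⟩
    rw [← hmp]
    apply minpoly.dvd
    rw [map_sub, map_pow, hy, pow_two, sub_self]
  exact crit2 (k := k) h2K hmon hirr hsep hodd (fun g g' hcop hN hloc hcop' hN' hloc' => by
      rcases selmerD (M := M) h2 H Q hcop hN hloc hcop' hN' hloc' with h8 | h8 | h8
      · exact Or.inl (hsd g h8)
      · exact Or.inr (Or.inl (hsd g' h8))
      · exact Or.inr (Or.inr (hsd _ h8)))

end main

end Run7.h652.SG
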