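import Pool.Agent.Run7.h905.BS.Final
import Pool.Agent.Run7.h905.BS.Out

/-!
# The criterion for rank one
-/

open Polynomial WithZero IsDedekindDomain
open scoped Classical

set_option autoImplicit false
set_option linter.all false

namespace Run7.h652.SG

open Pool.Agent.Y160.SE Pool.Agent.N352.JB Run7.h905.BS
open Pool.Agent.N424.JB (good_two)
open Pool.Agent.N352.Sha (ShaTrivial ShaTrivialAt)

variable {k K : Type} [Field k] [Field K] [Algebra k[X] K] [IsFractionRing k[X] K]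

theorem crit (h2 : (2 : K) ≠ 0) {F : K[X]} (hmon : F.Monic) (hirr : Irreducible F)
    (hsep : F.Separable) (hodd : Odd F.natDegree) (pt : K[X] × K[X]) (hadm : Adm F [pt])
    (hS : ∀ g : K[X], IsCoprime g F → IsSquare (Algebra.norm K (AdjoinRoot.mk F g)) →
      LocAll (k := k) F g → (∃ s, F ∣ g - s ^ 2) ∨ ∃ s, F ∣ g * kl [pt] - s ^ 2)
    (hne : ¬ ∃ s, F ∣ kl [pt] - s ^ 2) :
    ∃ P : Jac 2 F K, IsCl K (idP (F.map (algebraMap K K)) pt.1 pt.2) P ∧
      (∀ x : Jac 2 F K, 2 • x = 0 → x = 0) ∧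
      (∀ x : Jac 2 F K, ∃ R : Jac 2 F K, x = 2 • R ∨ x = P + 2 • R) ∧
      (∀ R : Jac 2 F K, P ≠ 2 • R) ∧ ShaTrivial 2 F k[X] := by
  have hg : Good 2 (-1 : K) F := good_two h2 hmon hsep hodd
  have hid : idL (F.map (algebraMap K K)) [pt] = idP (F.map (algebraMap K K)) pt.1 pt.2 := by
    unfold idL
    rw [List.map_cons, List.map_nil, List.prod_cons, List.prod_nil, mul_one]
  obtain ⟨P, hP⟩ : ∃ P : Jac 2 F K, IsCl K (idP (F.map (algebraMap K K)) pt.1 pt.2) P := by
    apply cl_exists hyps hg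
    have := adm_ideal_ne hg hadm
    rwa [hid] at this
  have hk : KC hg (SeparableClosure K) P (kl [pt]) := kc_list hg hodd hadm (by rw [hid]; exact hP)
  refine ⟨P, hP, no_two hg hirr, ?_, ?_, ?_⟩
  · intro y
    obtain ⟨g, hkg, hcop, hloc, hN⟩ := kc_exists hg (SeparableClosure K) hodd y
    rcases hS g hcop hN fun v => Pool.Agent.N424.JB.LocIm.up hloc with ⟨s, hs⟩ | ⟨s, hs⟩
    · obtain ⟨R, hR⟩ := KC.sq hg hirr hkg hs
      exact ⟨R, Or.inl hR.symm⟩
    · obtain ⟨R, hR⟩ := KC.sq hg hirr (hkg.add hk) hs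
      refine ⟨R - P, Or.inr ?_⟩
      rw [smul_sub, hR, two_nsmul]
      abel
  · intro R hR
    apply hne
    rw [hR] at hk
    exact hk.of_two
  · have hSel : SelPts (PlR k[X] K) F := by
      intro g h3 h4 h5
      rcases hS g h3 h4 fun v => h5 _ (PlR.mk v) with ⟨s, hs⟩ | ⟨s, hs⟩
      · refine ⟨[], s, fun p hp => absurd hp (List.not_mem_nil), ?_⟩
        rw [List.map_nil, List.prod_nil, mul_one]
        exact hs
      · exact ⟨[pt], s, hadm, hs⟩
    have h3 := sha' h2 hmon hirr hsep hodd hSel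
    exact fun c m hc hl hb => h3 c m hc (fun E _ _ hE => by
      cases hE with
      | mk v => exact hl v) hb

/-- The rank. -/
theorem rank_one {A : Type} [AddCommGroup A] {P : A} (ht : ∀ x : A, 2 • x = 0 → x = 0)
    (hg : ∀ x : A, ∃ R : A, x = 2 • R ∨ x = P + 2 • R) (hn : ∀ R : A, P ≠ 2 • R)
    (hfg : AddGroup.FG A) : Module.finrank ℤ A = 1 := by
  apply rank_of ht
  rw [pow_one, Nat.card_eq_two_iff]
  refine ⟨QuotientAddGroup.mk 0, QuotientAddGroup.mk P, ?_, ?_⟩
  · intro h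
    rw [QuotientAddGroup.eq, neg_zero, zero_add, mem_dbl] at h
    obtain ⟨R, hR⟩ := h
    exact hn R hR
  · rw [Set.eq_univ_iff_forall]
    intro x
    obtain ⟨y, rfl⟩ := QuotientAddGroup.mk_surjective x
    obtain ⟨R, hR | hR⟩ := hg y
    · left
      rw [QuotientAddGroup.eq, add_zero, mem_dbl]
      exact ⟨-R, by rw [hR, smul_neg]⟩
    · right
      rw [Set.mem_singleton_iff, QuotientAddGroup.eq, mem_dbl]
      exact ⟨-R, by rw [hR, smul_neg]; abel⟩

end Run7.h652.SG
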