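import Pool.Agent.Run7.h652.SG.Fd
import Pool.Agent.Run7.h905.BS.Sel

/-!
# The places of good reduction
-/

open Polynomial WithZero IsDedekindDomain IsLocalRing
open scoped Classical

set_option autoImplicit false
set_option linter.all false

namespace Run7.h652.SG

open Run7.h905.BS Pool.Agent.N352.JB

attribute [local instance] Polynomial.algebra

theorem mdl_scale {R : Type} [CommRing R] (m : R[X]) (h D : R) :
    (mdl m h D).comp (C D * X) = C (D ^ m.natDegree) * mdl m h 1 := by
  unfold mdl
  have hsc : ∀ (s : Finset ℕ) (f : ℕ → R[X]), (∑ j ∈ s, f j).comp (C D * X) =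
      ∑ j ∈ s, (f j).comp (C D * X) := fun s f => map_sum (compRingHom (C D * X)) f s
  rw [add_comp, pow_comp, X_comp, mul_pow, ← C_pow, mul_add, hsc, Finset.mul_sum]
  congr 1
  refine Finset.sum_congr rfl fun j hj => ?_
  rw [Finset.mem_range] at hj
  rw [mul_comp, C_comp, pow_comp, X_comp, mul_pow, ← C_pow, ← mul_assoc, ← mul_assoc, ← C_mul,
    ← C_mul]
  congr 2
  obtain ⟨r, hr⟩ : ∃ r, m.natDegree = j + 1 + r := ⟨m.natDegree - (j + 1), by omega⟩
  have e1 : m.natDegree - 1 - j = r := by omega
  rw [e1, hr, pow_add D (j + 1) r, neg_pow D, neg_pow (1 : R)]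
  ring

theorem sep_red {k Ω : Type} [Field k] [Field Ω] {m h : k[X]} (hm : m.Monic) (hs : m.Separable)
    (φ : k[X] →+* Ω) (hφ : φ (m.comp h) ≠ 0) :
    ((mdl (m.map (C : k →+* k[X])) h 1).map φ).Separable := by
  set Ω' := AlgebraicClosure Ω
  rw [← separable_map (algebraMap Ω Ω'), Polynomial.map_map, mdl_map _ (hm.map _),
    Polynomial.map_map]
  set φ' : k[X] →+* Ω' := (algebraMap Ω Ω').comp φ with hφ'
  set m' : Ω'[X] := m.map (φ'.comp C) with hm'
  have hmon : m'.Monic := hm.map _
  have hsp : m'.Splits := IsAlgClosed.splits m'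
  have hnd : m'.roots.Nodup := nodup_roots hs.map
  have hprod : m' = ∏ x : m'.roots.toFinset, (X - C (x : Ω')) := by
    rw [Finset.prod_coe_sort m'.roots.toFinset (fun x => X - C x)]
    conv_lhs => rw [hsp.eq_prod_roots_of_monic hmon]
    rw [Finset.prod_eq_multiset_prod, Multiset.toFinset_val, hnd.dedup]
  have hev : m'.eval (φ' h) ≠ 0 := by
    have h1 : m'.eval (φ' h) = φ' (m.comp h) := by
      rw [hm', ← Polynomial.map_map, eval_map_apply, eval_map]
      rfl
    rw [h1, hφ', RingHom.comp_apply]
    exact (_root_.map_ne_zero _).2 hφ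
  have hne : ∀ x : m'.roots.toFinset, φ' h ≠ (x : Ω') := by
    intro x hx
    apply hev
    rw [hx]
    exact (mem_roots hmon.ne_zero).1 (Multiset.mem_toFinset.1 x.2)
  rw [map_one, mdl_prod (T := fun x : m'.roots.toFinset => (x : Ω')) Subtype.val_injective hprod
    one_ne_zero hne, separable_prod_X_sub_C_iff]
  intro x y hxy
  have h1 : 1 * m'.eval (φ' h) / (φ' h - (x : Ω')) = 1 * m'.eval (φ' h) / (φ' h - (y : Ω')) := hxy
  rw [one_mul, div_eq_div_iff (sub_ne_zero.2 (hne x)) (sub_ne_zero.2 (hne y))] at h1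
  have h2 := mul_left_cancel₀ hev h1
  exact Subtype.ext (by linear_combination h2)

variable {k K kn M : Type} [Field k] [Finite k] [Field K] [Algebra k[X] K] [IsFractionRing k[X] K]
  [Field kn] [Algebra k kn] [Field M] [Algebra kn[X] M] [IsFractionRing kn[X] M] [Algebra K M]
  [Algebra k[X] M] [IsScalarTower k[X] kn[X] M] [IsScalarTower k[X] K M] {m : k[X]} {τ : kn}

/-- **The places of good reduction.** -/
theorem off_even [Algebra.IsIntegral k[X] kn[X]] (H : Dat m τ) {h D u b : k[X]}
    (hh : Irreducible (m.comp h)) (hD : D ≠ 0) (hDu : D = u * b ^ 2)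
    (w : HeightOneSpectrum kn[X])
    (hs : algebraMap k[X] kn[X] (m.comp h) ∉ w.asIdeal)
    (hu : algebraMap k[X] kn[X] u ∉ w.asIdeal) {g : K[X]}
    (hloc : LocAll (k := k) (FF K m h D) g) :
    IsSquare (w.valuation M (aeval (algebraMap k[X] M D * cf M m h τ) g)) := by
  haveI := H.cv.tf
  set v : HeightOneSpectrum k[X] := w.under k[X] with hv
  haveI hlo : w.asIdeal.LiesOver v.asIdeal := ⟨rfl⟩
  have hval : ∀ z : K, v.valuation K z ^ v.asIdeal.ramificationIdx' w.asIdeal =
      w.valuation M (algebraMap K M z) := fun z =>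
    HeightOneSpectrum.valuation_liesOver (A := k[X]) M v w z
  have he : v.asIdeal.ramificationIdx' w.asIdeal ≠ 0 :=
    Ideal.IsDedekindDomain.ramificationIdx'_ne_zero_of_liesOver w.asIdeal v.ne_bot
  have hb : b ≠ 0 := by
    rintro rfl
    apply hD
    rw [hDu]
    ring
  have huv : v.valuation K (algebraMap k[X] K u) = 1 := by
    rw [HeightOneSpectrum.valuation_eq_one_iff_notMem]
    exact hu
  have hsep : ((mdl (m.map (C : k →+* k[X])) h 1).map
      ((residue (v.adicCompletionIntegers K)).comp
        (algebraMap k[X] (v.adicCompletionIntegers K)))).Separable := by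
    apply sep_red H.mon H.sep
    rw [RingHom.comp_apply, Ne, residue_eq_zero_iff]
    intro hmem
    rw [IsLocalRing.mem_maximalIdeal, mem_nonunits_iff] at hmem
    apply hmem
    set x : v.adicCompletionIntegers K := algebraMap k[X] (v.adicCompletionIntegers K) (m.comp h)
    have hx1 : Valued.v (x : v.adicCompletion K) = 1 := by
      have h1 : (x : v.adicCompletion K) =
          algebraMap K (v.adicCompletion K) (algebraMap k[X] K (m.comp h)) := rfl
      have vz : ∀ z : K, Valued.v (algebraMap K (v.adicCompletion K) z) = v.valuation K z :=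
        fun z => HeightOneSpectrum.valuedAdicCompletion_eq_valuation' v z
      rw [h1, vz, HeightOneSpectrum.valuation_eq_one_iff_notMem]
      exact hs
    have hx0 : (x : v.adicCompletion K) ≠ 0 := by
      intro h0
      rw [h0, map_zero] at hx1
      exact zero_ne_one hx1
    rw [isUnit_iff_exists_inv]
    refine ⟨⟨(x : v.adicCompletion K)⁻¹, ?_⟩, ?_⟩
    · rw [HeightOneSpectrum.mem_adicCompletionIntegers, map_inv₀, hx1, inv_one]
    · apply Subtype.ext
      exact mul_inv_cancel₀ hx0
  obtain ⟨γ, hγ⟩ := even_locIm' v w (algebraMap K M)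
    (fun z hz => by rw [← hval]; exact pow_le_one₀ zero_le hz)
    (fun z hz => by rw [← hval]; exact pow_lt_one₀ zero_le hz he)
    (mdl (m.map (C : k →+* k[X])) h 1) mdl_monic
    (by rw [mdl_natDegree, H.mon.natDegree_map]; exact H.odd) hsep (cf M m h τ)
    (by
      have h1 := FF_root (K := K) (M := M) H hh (one_ne_zero (α := k[X]))
      rw [map_one, one_mul, ← eval_map_algebraMap] at h1
      unfold FF at h1
      rw [Polynomial.map_map] at h1
      exact h1)
    (algebraMap k[X] K D) (algebraMap k[X] K u) (algebraMap k[X] K b)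
    (by rw [hDu, map_mul, map_pow]) huv (by simpa using hb) (FF K m h D)
    (by
      have h1 := congrArg (fun p => p.map (algebraMap k[X] K)) (mdl_scale (m.map C) h D)
      simp only [Polynomial.map_comp, Polynomial.map_mul, Polynomial.map_C, Polynomial.map_X] at h1
      rw [mdl_natDegree, ← map_pow, H.mon.natDegree_map]
      rw [H.mon.natDegree_map] at h1
      exact h1) g (hloc v)
  refine ⟨γ, ?_⟩
  rw [← pow_two, ← hγ]
  congr 1
  rw [eval_map_algebraMap, ← IsScalarTower.algebraMap_apply k[X] K M]

end Run7.h652.SG
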