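import Pool.Agent.Run7.h652.SG.Emb
import Pool.Agent.Run7.h652.SG.Off

/-!
# The places above `m(h)`
-/

open Polynomial WithZero IsDedekindDomain IsLocalRing
open scoped Classical NNReal

set_option autoImplicit false
set_option linter.all false

namespace Run7.h652.SG

open Run7.h905.BS Pool.Agent.N352.JB
open Pool.Agent.TH115.GD (exists_compl_map)
open Pool.Agent.Y154.SE (exists_exp)

attribute [local instance] Polynomial.algebra

variable {k K kn M : Type} [Field k] [Finite k] [Field K] [Algebra k[X] K] [IsFractionRing k[X] K]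
  [Field kn] [Algebra k kn] [Field M] [Algebra kn[X] M] [IsFractionRing kn[X] M] [Algebra K M]
  [Algebra k[X] M] [IsScalarTower k[X] kn[X] M] [IsScalarTower k[X] K M] {m : k[X]} {τ : kn}

theorem under_eq [Algebra.IsIntegral k[X] kn[X]] {q : k[X]} (hq : Irreducible q)
    (w : HeightOneSpectrum kn[X]) (hw : algebraMap k[X] kn[X] q ∈ w.asIdeal) :
    w.asIdeal.LiesOver (plQ hq).asIdeal := by
  constructor
  show Ideal.span {q} = Ideal.comap (algebraMap k[X] kn[X]) w.asIdeal
  haveI : (Ideal.span {q}).IsMaximal := PrincipalIdealRing.isMaximal_of_irreducible hq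
  apply Ideal.IsMaximal.eq_of_le this
  · exact Ideal.IsPrime.ne_top (Ideal.comap_isPrime _ w.asIdeal)
  · rw [Ideal.span_singleton_le_iff_mem]
    exact hw

/-- **The places above `m(h)`.** -/
theorem bad_places [Algebra.IsIntegral k[X] kn[X]] (H : Dat m τ) {h D : k[X]}
    (hh : Irreducible (m.comp h)) (hDs : ¬ m.comp h ∣ D) {g : K[X]}
    (hloc : LocAll (k := k) (FF K m h D) g) :
    (∀ w : HeightOneSpectrum kn[X], algebraMap k[X] kn[X] (m.comp h) ∈ w.asIdeal →
      IsSquare (w.valuation M (aeval (algebraMap k[X] M D * cf M m h τ) g))) ∨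
    (∀ w : HeightOneSpectrum kn[X], algebraMap k[X] kn[X] (m.comp h) ∈ w.asIdeal →
      IsSquare (w.valuation M (aeval (algebraMap k[X] M D * cf M m h τ) g * cf M m h τ))) := by
  haveI := H.fd
  haveI : Fintype (kn ≃ₐ[k] kn) := Fintype.ofFinite _
  have hD : D ≠ 0 := by
    rintro rfl
    exact hDs (dvd_zero _)
  set v : HeightOneSpectrum k[X] := plQ hh with hv
  set E := v.adicCompletion K with hE
  letI algkE : Algebra k E :=
    ((algebraMap K E).comp ((algebraMap k[X] K).comp (C : k →+* k[X]))).toAlgebra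
  have vz : ∀ z : K, Valued.v (algebraMap K E z) = v.valuation K z := fun z =>
    HeightOneSpectrum.valuedAdicCompletion_eq_valuation' v z
  set aE : k[X] →+* E := (algebraMap K E).comp (algebraMap k[X] K) with haE
  have halg : algebraMap k E = aE.comp C := rfl
  have haEinj : Function.Injective aE :=
    (algebraMap K E).injective.comp (IsFractionRing.injective k[X] K)
  set sE : E := aE (m.comp h) with hsE
  set hE' : E := aE h with hhE
  set DE : E := aE D with hDE
  have hsE0 : sE ≠ 0 := (map_ne_zero_iff _ haEinj).2 hh.ne_zero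
  have hDE0 : DE ≠ 0 := (map_ne_zero_iff _ haEinj).2 hD
  have vs : Valued.v sE = exp (-1 : ℤ) := by
    show Valued.v (algebraMap K E (algebraMap k[X] K (m.comp h))) = _
    rw [vz, hv, plQ_val]
  have vs1 : Valued.v sE < 1 := by
    rw [vs, ← exp_zero, exp_lt_exp]
    norm_num
  have vs0 : Valued.v sE ≠ 0 := (Valuation.ne_zero_iff _).2 hsE0
  have vD : Valued.v DE = 1 := by
    show Valued.v (algebraMap K E (algebraMap k[X] K D)) = _
    rw [vz, HeightOneSpectrum.valuation_eq_one_iff_notMem]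
    intro hmem
    exact hDs (Ideal.mem_span_singleton.1 hmem)
  have hmev : aeval hE' m = sE := by
    rw [aeval_def, halg, hhE, ← hom_eval₂, hsE]
    rfl
  obtain ⟨T, hT, hTv⟩ := near_root_v (L := E) H.mon H.sep (a := hE') (by rw [hmev]; exact vs1)
  obtain ⟨ι, hι⟩ := H.lift hT
  have hprodE : m.map (algebraMap k E) = ∏ σ : kn ≃ₐ[k] kn, (X - C (ι (σ τ))) := by
    rw [← AlgHom.comp_algebraMap ι, ← Polynomial.map_map, prod_gal H.mon H.irr H.root H.deg,
      Polynomial.map_prod]
    refine Finset.prod_congr rfl fun σ _ => ?_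
    rw [Polynomial.map_sub, map_X, map_C]
    rfl
  have hTinj : Function.Injective fun σ : kn ≃ₐ[k] kn => ι (σ τ) := by
    intro σ σ' hσ
    exact conj_inj H.mon H.irr H.root H.deg (ι.toRingHom.injective hσ)
  have vT : ∀ σ σ' : kn ≃ₐ[k] kn, σ ≠ σ' → Valued.v (ι (σ τ) - ι (σ' τ)) = 1 := by
    intro σ σ' hσ
    apply val_unit (k := k)
    · exact sub_ne_zero.2 fun hc => hσ (hTinj hc)
    · rw [← map_sub]
      exact (Algebra.IsAlgebraic.isAlgebraic (R := k) (σ τ - σ' τ)).algHom ι
  have v1 : Valued.v (hE' - ι ((1 : kn ≃ₐ[k] kn) τ)) < 1 := by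
    rw [AlgEquiv.one_apply, hι]
    exact hTv
  have v2 : ∀ σ : kn ≃ₐ[k] kn, σ ≠ 1 → Valued.v (hE' - ι (σ τ)) = 1 := by
    intro σ hσ
    have e1 : hE' - ι (σ τ) = (hE' - ι ((1 : kn ≃ₐ[k] kn) τ)) + (ι ((1 : kn ≃ₐ[k] kn) τ) - ι (σ τ)) := by
      ring
    rw [e1, Valuation.map_add_eq_of_lt_right, vT _ _ hσ.symm]
    rw [vT _ _ hσ.symm]
    exact v1
  have hsprod : sE = ∏ σ : kn ≃ₐ[k] kn, (hE' - ι (σ τ)) := by
    rw [← hmev, ← eval_map_algebraMap, hprodE, eval_prod]
    exact Finset.prod_congr rfl fun σ _ => by rw [eval_sub, eval_X, eval_C]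
  have v3 : Valued.v (hE' - ι ((1 : kn ≃ₐ[k] kn) τ)) = Valued.v sE := by
    rw [hsprod, map_prod, ← Finset.mul_prod_erase _ _ (Finset.mem_univ (1 : kn ≃ₐ[k] kn)),
      Finset.prod_eq_one fun σ hσ => v2 σ (Finset.mem_erase.1 hσ).1, mul_one]
  have hsub0 : ∀ σ : kn ≃ₐ[k] kn, hE' - ι (σ τ) ≠ 0 := by
    intro σ hc
    apply hsE0
    rw [hsprod]
    exact Finset.prod_eq_zero (Finset.mem_univ σ) hc
  have hmE : (m.map (algebraMap k E)).eval hE' = sE := by
    rw [eval_map_algebraMap, hmev]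
  have hFE : (FF K m h D).map (algebraMap K E) =
      ∏ σ : kn ≃ₐ[k] kn, (X - C (DE * sE / (hE' - ι (σ τ)))) := by
    have e1 : (FF K m h D).map (algebraMap K E) = mdl (m.map (algebraMap k E)) hE' DE := by
      unfold FF
      rw [Polynomial.map_map, mdl_map _ (H.mon.map _), Polynomial.map_map]
      rfl
    rw [e1, mdl_prod hTinj hprodE hDE0 (fun σ => sub_ne_zero.1 (hsub0 σ)), hmE]
  set e : (kn ≃ₐ[k] kn) → E := fun σ => DE * sE / (hE' - ι (σ τ)) with he
  have hve : ∀ σ, Valued.v (e σ) = Valued.v sE / Valued.v (hE' - ι (σ τ)) := by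
    intro σ
    rw [he, map_div₀, map_mul, vD, one_mul]
  obtain ⟨⟨z0, hz0⟩, b, hb0, hb⟩ := node_loc (1 : kn ≃ₐ[k] kn)
    (by rw [card_gal H.irr H.deg]; exact H.odd) e sE hsE0 vs1
    (by rw [hve, v3, div_self vs0]) (fun σ hσ => by rw [hve, v2 σ hσ, div_one])
    (fun σ σ' hσ hσ' hne => by
      have e1 : e σ - e σ' = DE * sE * (ι (σ τ) - ι (σ' τ)) / ((hE' - ι (σ τ)) * (hE' - ι (σ' τ))) := by
        show DE * sE / (hE' - ι (σ τ)) - DE * sE / (hE' - ι (σ' τ)) = _
        rw [div_sub_div _ _ (hsub0 σ) (hsub0 σ')]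
        congr 1
        ring
      rw [e1, map_div₀, map_mul, map_mul, map_mul, vD, vT _ _ hne, v2 σ hσ, v2 σ' hσ', one_mul,
        mul_one, mul_one, div_one]) hFE (hloc v)
  -- the places above
  have key : ∀ w : HeightOneSpectrum kn[X], algebraMap k[X] kn[X] (m.comp h) ∈ w.asIdeal →
      ∃ (ρ ζ : WithZero (Multiplicative ℤ)) , ρ ≠ 0 ∧
        ((w.valuation M (aeval (algebraMap k[X] M D * cf M m h τ) g) = ζ ^ 2 ∧
          w.valuation M (cf M m h τ) = 1) ∨
        (∃ t : ℤ, Valued.v b = exp (-t) ∧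
          w.valuation M (aeval (algebraMap k[X] M D * cf M m h τ) g) = ρ ^ t * ζ ^ 2 ∧
          w.valuation M (cf M m h τ) = ρ)) := by
    intro w hw
    haveI := H.cv.tf
    haveI hlo : w.asIdeal.LiesOver v.asIdeal := under_eq hh w hw
    have hval : ∀ z : K, v.valuation K z ^ v.asIdeal.ramificationIdx' w.asIdeal =
        w.valuation M (algebraMap K M z) := fun z =>
      HeightOneSpectrum.valuation_liesOver (A := k[X]) M v w z
    have hram : v.asIdeal.ramificationIdx' w.asIdeal ≠ 0 :=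
      Ideal.IsDedekindDomain.ramificationIdx'_ne_zero_of_liesOver w.asIdeal v.ne_bot
    obtain ⟨j, hj1, hj2, hj3⟩ := exists_compl_map v w (algebraMap K M)
      (fun z hz => by rw [← hval]; exact pow_le_one₀ zero_le hz)
      (fun z hz => by rw [← hval]; exact pow_lt_one₀ zero_le hz hram)
    set Mw := w.adicCompletion M with hMw
    set wE : Valuation Mw (WithZero (Multiplicative ℤ)) := Valued.v with hwE
    have wz : ∀ z : M, wE (algebraMap M Mw z) = w.valuation M z := fun z =>
      HeightOneSpectrum.valuedAdicCompletion_eq_valuation' w z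
    have hju : ∀ u : E, Valued.v u = 1 → wE (j u) = 1 := by
      intro u hu
      have hu0 : u ≠ 0 := by
        rintro rfl
        rw [map_zero] at hu
        exact zero_ne_one hu
      apply le_antisymm (hj2 _ hu.le)
      have h3 : wE (j u⁻¹) ≤ 1 := hj2 _ (by rw [map_inv₀, hu, inv_one])
      rw [map_inv₀, map_inv₀] at h3
      have h4 : wE (j u) ≠ 0 := (Valuation.ne_zero_iff _).2 ((_root_.map_ne_zero j).2 hu0)
      exact (inv_le_one₀ (zero_lt_iff.2 h4)).1 h3
    have hjv : ∀ x y : E, Valued.v x = Valued.v y → wE (j x) = wE (j y) := by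
      intro x y hxy
      by_cases hy : y = 0
      · rw [hy, map_zero, Valuation.zero_iff] at hxy
        rw [hxy, hy]
      · have hvy : Valued.v y ≠ 0 := (Valuation.ne_zero_iff _).2 hy
        have h3 : wE (j (x / y)) = 1 := hju _ (by rw [map_div₀, hxy, div_self hvy])
        have h4 : x = x / y * y := (div_mul_cancel₀ x hy).symm
        rw [h4, map_mul, map_mul, h3, one_mul]
    have hja : ∀ p : k[X], j (aE p) = algebraMap M Mw (algebraMap k[X] M p) := by
      intro p
      show j (algebraMap K E (algebraMap k[X] K p)) = _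
      rw [hj1, ← IsScalarTower.algebraMap_apply k[X] K M]
    obtain ⟨σ, hσ⟩ : ∃ σ : kn ≃ₐ[k] kn, algebraMap M Mw (tM M τ) = j (ι (σ τ)) := by
      have h3 : (∏ σ : kn ≃ₐ[k] kn, (algebraMap M Mw (tM M τ) - j (ι (σ τ)))) = 0 := by
        have h4 : ((m.map (algebraMap k E)).map j).eval (algebraMap M Mw (tM M τ)) =
            ∏ σ : kn ≃ₐ[k] kn, (algebraMap M Mw (tM M τ) - j (ι (σ τ))) := by
          rw [hprodE, Polynomial.map_prod, eval_prod]
          exact Finset.prod_congr rfl fun σ _ => by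
            rw [Polynomial.map_sub, map_X, map_C, eval_sub, eval_X, eval_C]
        rw [← h4, Polynomial.map_map]
        have h5 : j.comp (algebraMap k E) =
            (algebraMap M Mw).comp ((algebraMap k[X] M).comp (C : k →+* k[X])) := by
          exact RingHom.ext fun c => hja (C c)
        rw [h5, ← Polynomial.map_map, eval_map_apply]
        have h6 : (m.map ((algebraMap k[X] M).comp (C : k →+* k[X]))).eval (tM M τ) = 0 := by
          rw [mM_prod H, eval_prod]
          apply Finset.prod_eq_zero (Finset.mem_univ (1 : kn ≃ₐ[k] kn))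
          rw [eval_sub, eval_X, eval_C, AlgEquiv.one_apply, sub_self]
        rw [h6, map_zero]
      obtain ⟨σ, -, hσ⟩ := Finset.prod_eq_zero_iff.1 h3
      exact ⟨σ, sub_eq_zero.1 hσ⟩
    have hcf : algebraMap M Mw (cf M m h τ) = j (sE / (hE' - ι (σ τ))) := by
      unfold cf
      rw [map_div₀, map_sub, hσ, map_div₀, map_sub, hsE, hhE, hja, hja]
    have hθ : algebraMap M Mw (algebraMap k[X] M D * cf M m h τ) = j (e σ) := by
      rw [map_mul, hcf, ← hja, ← map_mul]
      show j (DE * (sE / (hE' - ι (σ τ)))) = j (DE * sE / (hE' - ι (σ τ)))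
      rw [mul_div_assoc]
    have hy : algebraMap M Mw (aeval (algebraMap k[X] M D * cf M m h τ) g) =
        j ((g.map (algebraMap K E)).eval (e σ)) := by
      rw [← eval_map_apply j, ← hθ, Polynomial.map_map]
      have h5 : j.comp (algebraMap K E) = (algebraMap M Mw).comp (algebraMap K M) :=
        RingHom.ext hj1
      rw [h5, ← Polynomial.map_map, eval_map_apply, eval_map_algebraMap]
    have hρ0 : wE (j sE) ≠ 0 := (Valuation.ne_zero_iff _).2 ((_root_.map_ne_zero j).2 hsE0)
    by_cases hσ1 : σ = 1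
    · refine ⟨wE (j sE), wE (j z0), hρ0, Or.inl ⟨?_, ?_⟩⟩
      · rw [← wz, hy, hσ1, ← map_pow, ← map_pow]
        exact hjv _ _ (by rw [hz0, map_pow])
      · rw [← wz, hcf, hσ1]
        apply hju
        rw [map_div₀, v3, div_self vs0]
    · obtain ⟨z, hz⟩ := hb σ hσ1
      obtain ⟨t, ht⟩ := exists_exp ((Valuation.ne_zero_iff Valued.v).2 hb0)
      refine ⟨wE (j sE), wE (j z), hρ0, Or.inr ⟨-t, by rw [neg_neg]; exact ht, ?_, ?_⟩⟩
      · rw [← wz, hy]
        have h3 : Valued.v b = Valued.v (sE ^ (-t)) := by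
          rw [map_zpow₀, vs, ht, ← exp_zsmul]
          congr 1
          simp
        have h4 := hjv ((g.map (algebraMap K E)).eval (e σ)) (sE ^ (-t) * z ^ 2) (by
          rw [hz, map_mul, ← h3, map_pow])
        rw [h4, map_mul, map_mul, map_zpow₀, map_zpow₀, map_pow, map_pow]
      · rw [← wz, hcf]
        apply hjv
        rw [map_div₀, v2 σ hσ1, div_one]
  obtain ⟨t0, ht0⟩ := exists_exp ((Valuation.ne_zero_iff Valued.v).2 hb0)
  rcases Int.even_or_odd t0 with hev | hod
  · left
    intro w hw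
    obtain ⟨ρ, ζ, hρ, h3 | ⟨t, ht, h4, h5⟩⟩ := key w hw
    · rw [h3.1]
      exact ⟨ζ, pow_two ζ⟩
    · rw [h4]
      have h6 : t0 = -t := Pool.Agent.Y154.SE.exp_inj (ht0.symm.trans ht)
      have h7 : Even t := by
        rw [h6] at hev
        exact (even_neg).1 hev
      obtain ⟨d, hd⟩ := h7
      exact IsSquare.mul ⟨ρ ^ d, by rw [hd, zpow_add₀ hρ]⟩ ⟨ζ, pow_two ζ⟩
  · right
    intro w hw
    rw [map_mul]
    obtain ⟨ρ, ζ, hρ, h3 | ⟨t, ht, h4, h5⟩⟩ := key w hw
    · rw [h3.1, h3.2, mul_one]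
      exact ⟨ζ, pow_two ζ⟩
    · rw [h4, h5]
      have h6 : t0 = -t := Pool.Agent.Y154.SE.exp_inj (ht0.symm.trans ht)
      have h7 : Odd t := by
        rw [h6] at hod
        exact (odd_neg).1 hod
      obtain ⟨d, hd⟩ := h7
      refine ⟨ρ ^ (d + 1) * ζ, ?_⟩
      rw [hd, zpow_add₀ hρ, zpow_add₀ hρ, zpow_one, mul_comm 2 d, zpow_mul, zpow_two, pow_two]
      ac_rfl

end Run7.h652.SG
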