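import Mathlib

/-!
# The ring `k_n[t]` over `k[t]`
-/

open Polynomial
open scoped Classical

set_option autoImplicit false
set_option linter.all false

namespace Run7.h652.SG

attribute [local instance] Polynomial.algebra

section basic

variable {k kn : Type} [Field k] [Field kn] [Algebra k kn] {m : k[X]} {τ : kn}

theorem minpoly_τ (hm : m.Monic) (hirr : Irreducible m) (hτ : aeval τ m = 0) : minpoly k τ = m :=
  (minpoly.eq_of_irreducible_of_monic hirr hτ hm).symm

theorem aeval_const (p : k[X]) :
    aeval (C τ : kn[X]) (p.map (C : k →+* k[X])) = C (aeval τ p) := by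
  have h1 : (algebraMap k[X] kn[X]).comp (C : k →+* k[X]) =
      (C : kn →+* kn[X]).comp (algebraMap k kn) := by
    ext c : 1
    rw [RingHom.comp_apply, RingHom.comp_apply, Polynomial.algebraMap_def, coe_mapRingHom, map_C]
  rw [aeval_def, eval₂_map, h1, aeval_def, hom_eval₂]

theorem root_const (hτ : aeval τ m = 0) : aeval (C τ : kn[X]) (m.map (C : k →+* k[X])) = 0 := by
  rw [aeval_const, hτ, C_0]

theorem ker_const (hm : m.Monic) (hirr : Irreducible m) (hτ : aeval τ m = 0) (g : k[X][X])
    (hg : aeval (C τ : kn[X]) g = 0) : m.map (C : k →+* k[X]) ∣ g := by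
  have hf : (m.map (C : k →+* k[X])).Monic := hm.map _
  have hfdeg : (m.map (C : k →+* k[X])).natDegree = m.natDegree := hm.natDegree_map _
  rw [← modByMonic_eq_zero_iff_dvd hf]
  set r := g %ₘ (m.map (C : k →+* k[X])) with hr
  have hr0 : aeval (C τ : kn[X]) r = 0 := by
    have h1 := modByMonic_add_div g (m.map (C : k →+* k[X]))
    have h2 := congrArg (aeval (C τ : kn[X])) h1
    rw [map_add, map_mul, root_const hτ, zero_mul, add_zero, hg] at h2
    exact h2
  have hpos : 0 < m.natDegree := hirr.natDegree_pos
  have hdeg : r.natDegree < m.natDegree := by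
    rw [← hfdeg]
    apply natDegree_modByMonic_lt _ hf
    intro h1
    rw [h1, natDegree_one] at hfdeg
    omega
  have key : ∀ i j, (r.coeff j).coeff i = 0 := by
    intro i j
    set q : k[X] := ∑ j ∈ Finset.range m.natDegree, C ((r.coeff j).coeff i) * X ^ j with hq
    have hq0 : aeval τ q = 0 := by
      have h1 : (aeval (C τ : kn[X]) r).coeff i = aeval τ q := by
        rw [aeval_eq_sum_range' hdeg, finset_sum_coeff, hq, map_sum]
        refine Finset.sum_congr rfl fun j _ => ?_
        rw [Algebra.smul_def, Polynomial.algebraMap_def, coe_mapRingHom, ← C_pow, coeff_mul_C,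
          coeff_map, map_mul, map_pow, aeval_X, aeval_C]
      rw [← h1, hr0, coeff_zero]
    have hqd : q.degree < m.natDegree := by
      refine lt_of_le_of_lt (degree_sum_le _ _) ?_
      rw [Finset.sup_lt_iff (WithBot.bot_lt_coe _)]
      intro j hj
      refine lt_of_le_of_lt (degree_C_mul_X_pow_le _ _) ?_
      exact_mod_cast Finset.mem_range.1 hj
    have hq1 : q = 0 := by
      by_contra hne
      have h2 : m ∣ q := by
        rw [← minpoly_τ hm hirr hτ]
        exact minpoly.dvd k τ hq0
      have h3 := degree_le_of_dvd h2 hne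
      rw [degree_eq_natDegree hm.ne_zero] at h3
      exact absurd (lt_of_le_of_lt h3 hqd) (lt_irrefl _)
    by_cases hj : j < m.natDegree
    · have h2 := congrArg (fun p => p.coeff j) hq1
      simp only [hq, finset_sum_coeff, coeff_C_mul, coeff_X_pow, coeff_zero] at h2
      rw [Finset.sum_eq_single j] at h2
      · simpa using h2
      · intro b _ hb
        rw [if_neg (Ne.symm hb), mul_zero]
      · intro h3
        exact absurd (Finset.mem_range.2 hj) h3
    · rw [coeff_eq_zero_of_natDegree_lt (lt_of_lt_of_le hdeg (not_lt.1 hj)), coeff_zero]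
  ext j i
  rw [key, coeff_zero, coeff_zero]

theorem surj_const (hm : m.Monic) (hirr : Irreducible m) (hτ : aeval τ m = 0)
    (hdeg : Module.finrank k kn = m.natDegree) (b : kn[X]) :
    ∃ g : k[X][X], aeval (C τ : kn[X]) g = b := by
  have hτi : IsIntegral k τ := ⟨m, hm, hτ⟩
  haveI : FiniteDimensional k kn := by
    apply FiniteDimensional.of_finrank_pos
    rw [hdeg]
    exact hirr.natDegree_pos
  have htop : IntermediateField.adjoin k {τ} = ⊤ := by
    apply IntermediateField.eq_of_le_of_finrank_eq le_top
    rw [IntermediateField.adjoin.finrank hτi, minpoly_τ hm hirr hτ, IntermediateField.finrank_top',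
      hdeg]
  have hc : ∀ c : kn, ∃ p : k[X], aeval τ p = c := by
    intro c
    have h1 : c ∈ (IntermediateField.adjoin k {τ}).toSubalgebra := by
      rw [htop]
      exact Algebra.mem_top
    rw [IntermediateField.adjoin_simple_toSubalgebra_of_isAlgebraic hτi.isAlgebraic,
      Algebra.adjoin_singleton_eq_range_aeval] at h1
    exact h1
  induction b using Polynomial.induction_on' with
  | add p q hp hq =>
    obtain ⟨g, hg⟩ := hp
    obtain ⟨g', hg'⟩ := hq
    exact ⟨g + g', by rw [map_add, hg, hg']⟩
  | monomial n c =>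
    obtain ⟨p, hp⟩ := hc c
    refine ⟨C (X ^ n) * p.map (C : k →+* k[X]), ?_⟩
    rw [map_mul, aeval_const, hp, aeval_C, Polynomial.algebraMap_def, coe_mapRingHom, Polynomial.map_pow,
      Polynomial.map_X, ← C_mul_X_pow_eq_monomial, mul_comm]

end basic

section sq

variable {k K : Type} [Field k] [Field K] [Algebra k[X] K] [IsFractionRing k[X] K]

/-- A constant that is a square in `k(t)` is a square in `k`. -/
theorem sq_const {c : k} (h : IsSquare (algebraMap k[X] K (C c))) : IsSquare c := by
  obtain ⟨r, hr⟩ := h
  obtain ⟨p, hp⟩ : ∃ p : k[X], algebraMap k[X] K p = r := by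
    apply IsIntegrallyClosed.exists_algebraMap_eq_of_isIntegral_pow (n := 2) two_pos
    rw [pow_two, ← hr]
    exact isIntegral_algebraMap
  rw [← hp, ← map_mul] at hr
  have h1 := IsFractionRing.injective k[X] K hr
  refine ⟨p.eval 0, ?_⟩
  have h2 := congrArg (fun q => q.eval 0) h1
  simpa using h2

end sq

section fin

variable {k kn : Type} [Field k] [Field kn] [Finite k] [Finite kn] [Algebra k kn]

/-- The exponent of the norm is odd. -/
theorem odd_exp (h2 : (2 : k) ≠ 0) (hodd : Odd (Module.finrank k kn)) :
    Odd ((Nat.card kn - 1) / (Nat.card k - 1)) := by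
  haveI : Fintype k := Fintype.ofFinite k
  have hq : Odd (Nat.card k) := by
    rw [Nat.card_eq_fintype_card]
    have h3 : ringChar k ≠ 2 := by
      intro h
      apply h2
      have := ringChar.spec k 2
      have h4 : ((2 : ℕ) : k) = 0 := this.2 (by rw [h])
      exact_mod_cast h4
    exact Nat.odd_iff.2 (FiniteField.odd_card_of_char_ne_two h3)
  have hc : Nat.card kn = Nat.card k ^ Module.finrank k kn := Module.natCard_eq_pow_finrank
  have h2q : 2 ≤ Nat.card k := Finite.one_lt_card
  rw [hc, ← Nat.geomSum_eq h2q]
  rw [Finset.odd_sum_iff_odd_card_odd]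
  have : (Finset.range (Module.finrank k kn)).filter (fun i => Odd (Nat.card k ^ i)) =
      Finset.range (Module.finrank k kn) := by
    apply Finset.filter_true_of_mem
    intro i _
    exact hq.pow
  rw [this, Finset.card_range]
  exact hodd

/-- An element of `k_n` whose odd power is a square is a square. -/
theorem sq_of_pow {c : kn} {e : ℕ} (he : Odd e) (h : IsSquare (c ^ e)) : IsSquare c := by
  obtain ⟨j, hj⟩ := he
  obtain ⟨r, hr⟩ := h
  by_cases hc : c = 0
  · rw [hc]; exact IsSquare.zero
  refine ⟨r / c ^ j, ?_⟩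
  rw [div_mul_div_comm, ← hr, hj, eq_div_iff (mul_ne_zero (pow_ne_zero _ hc) (pow_ne_zero _ hc))]
  ring

end fin

end Run7.h652.SG
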