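import Pool.Agent.Run7.h652.SG.Fam
import Pool.Agent.Run7.h905.CB.Ch
import Mathlib.FieldTheory.Finite.Extension

/-!
# The number of `m` for which `m(h)` is irreducible
-/

open Polynomial
open scoped Classical

set_option autoImplicit false
set_option linter.all false

namespace Run7.h652.SG

theorem irr_desc {E E' : Type} [Field E] [Field E'] (φ : E →+* E') {p : E[X]}
    (h : Irreducible (p.map φ)) : Irreducible p := by
  refine ⟨fun hu => h.not_isUnit ?_, fun a b hab => ?_⟩
  · exact (isUnit_map φ).2 hu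
  · have h1 : p.map φ = a.map φ * b.map φ := by rw [hab, Polynomial.map_mul]
    rcases h.isUnit_or_isUnit h1 with h2 | h2
    · exact Or.inl ((isUnit_map φ).1 h2)
    · exact Or.inr ((isUnit_map φ).1 h2)

/-- If `h - τ` is irreducible over `E`, `[E : k] = deg τ`, then `m(h)` is irreducible for the minimal
polynomial `m` of `τ`. -/
theorem irr_minpoly {k E : Type} [Field k] [Field E] [Algebra k E] {h : k[X]} {τ : E}
    (hint : IsIntegral k τ) (hP : Irreducible (h.map (algebraMap k E) - C τ)) :
    Irreducible ((minpoly k τ).comp h) := by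
  set m := minpoly k τ with hm
  have hirr : Irreducible m := minpoly.irreducible hint
  haveI : Fact (Irreducible m) := ⟨hirr⟩
  apply irr_comp hirr
  let φ : AdjoinRoot m →+* E := AdjoinRoot.lift (algebraMap k E) τ (minpoly.aeval k τ)
  apply irr_desc φ
  have e1 : φ (AdjoinRoot.root m) = τ := AdjoinRoot.lift_root _
  have e2 : φ.comp (AdjoinRoot.of m) = algebraMap k E := AdjoinRoot.lift_comp_of _
  rw [Polynomial.map_sub, Polynomial.map_map, map_C, e1, e2]
  exact hP

theorem prim_root {k : Type} [Field k] [Finite k] {N : ℕ} (hN : N ∣ Nat.card k - 1) :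
    ∃ ζ : k, IsPrimitiveRoot ζ N := by
  obtain ⟨g, hg⟩ := IsCyclic.exists_ofOrder_eq_natCard (α := kˣ)
  rw [Nat.card_units] at hg
  obtain ⟨d, hd⟩ := hN
  have hpos : 0 < Nat.card k - 1 := by
    have := Finite.one_lt_card (α := k)
    omega
  have hd0 : d ≠ 0 := by
    rintro rfl
    rw [mul_zero] at hd
    omega
  refine ⟨((g ^ d : kˣ) : k), ?_⟩
  rw [IsPrimitiveRoot.coe_units_iff]
  have h1 : IsPrimitiveRoot g (Nat.card k - 1) := hg ▸ IsPrimitiveRoot.orderOf g
  exact h1.pow hpos (by rw [hd, mul_comm])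

theorem count (N : ℕ) (hN : 1 < N) : ∃ C0 : ℕ, ∀ (k : Type) [Field k] [Finite k] (h : k[X]),
    h.natDegree = N → N ∣ Nat.card k - 1 → ∀ r : ℕ, r.Prime → C0 < Nat.card k ^ r →
    Nat.card k ^ r ≤ 2 * N ^ N * (r * {m : k[X] | m.Monic ∧ Irreducible m ∧ m.natDegree = r ∧
      Irreducible (m.comp h)}.ncard + Nat.card k) := by
  obtain ⟨C0, hC0⟩ := Run7.h905.CB.nc N hN
  refine ⟨C0, ?_⟩
  intro k _ _ h hdeg hNq r hr hC
  obtain ⟨p, hp⟩ := CharP.exists k
  haveI : Fact p.Prime := ⟨CharP.char_is_prime k p⟩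
  haveI : NeZero r := ⟨hr.ne_zero⟩
  let E := FiniteField.Extension k p r
  have hfr : Module.finrank k E = r := FiniteField.finrank_extension k p r
  have hcE : Nat.card E = Nat.card k ^ r := FiniteField.natCard_extension k p r
  haveI : Finite E := Nat.finite_of_card_ne_zero (by
    rw [hcE]
    exact pow_ne_zero _ Nat.card_pos.ne')
  haveI : FiniteDimensional k E := FiniteDimensional.of_finrank_pos (by rw [hfr]; exact hr.pos)
  obtain ⟨ζ, hζ⟩ := prim_root hNq
  have hζE : IsPrimitiveRoot (algebraMap k E ζ) N := hζ.map_of_injective (algebraMap k E).injective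
  have hh0 : h ≠ 0 := by
    rintro rfl
    rw [natDegree_zero] at hdeg
    omega
  set a : E := algebraMap k E h.leadingCoeff with ha
  have ha0 : a ≠ 0 := (_root_.map_ne_zero _).2 (leadingCoeff_ne_zero.2 hh0)
  set g : E[X] := C a⁻¹ * h.map (algebraMap k E) with hg
  have hlc : (h.map (algebraMap k E)).leadingCoeff = a := leadingCoeff_map _
  have hgm : g.Monic := by
    rw [Monic, hg, leadingCoeff_mul, leadingCoeff_C, hlc, inv_mul_cancel₀ ha0]
  have hgd : g.natDegree = N := by
    rw [hg, natDegree_C_mul (inv_ne_zero ha0), natDegree_map, hdeg]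
  have h1 := hC0 E _ hζE g hgm hgd (by rw [hcE]; exact hC)
  rw [hcE] at h1
  refine h1.trans (Nat.mul_le_mul_left _ ?_)
  -- the elements `τ`
  set S : Set E := {τ | Irreducible (h.map (algebraMap k E) - C τ)} with hS
  have hgS : ∀ μ : E, Irreducible (g - C μ) ↔ a * μ ∈ S := by
    intro μ
    have e : h.map (algebraMap k E) - C (a * μ) = C a * (g - C μ) := by
      rw [hg, mul_sub, ← mul_assoc, ← C_mul, ← C_mul, mul_inv_cancel₀ ha0, C_1, one_mul]
    show _ ↔ Irreducible _
    rw [e, irreducible_isUnit_mul (isUnit_C.2 ha0.isUnit)]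
  have h2 : {μ : E | Irreducible (g - C μ)}.ncard ≤ S.ncard := by
    apply Set.ncard_le_ncard_of_injOn (fun μ => a * μ) (fun μ hμ => (hgS μ).1 hμ)
      (fun μ _ μ' _ h => mul_left_cancel₀ ha0 h) (Set.toFinite _)
  refine h2.trans ?_
  set T : Set k[X] := {m : k[X] | m.Monic ∧ Irreducible m ∧ m.natDegree = r ∧
      Irreducible (m.comp h)} with hT
  set R : Set E := Set.range (algebraMap k E) with hR
  have hRc : R.ncard = Nat.card k := by
    rw [hR, ← Set.image_univ, Set.ncard_image_of_injective _ (algebraMap k E).injective,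
      Set.ncard_univ]
  have hsplit : S.ncard ≤ (S \ R).ncard + R.ncard := by
    have h3 : S ⊆ (S \ R) ∪ R := fun x hx => by
      by_cases h4 : x ∈ R
      · exact Or.inr h4
      · exact Or.inl ⟨hx, h4⟩
    exact (Set.ncard_le_ncard h3 (Set.toFinite _)).trans (Set.ncard_union_le _ _)
  have hmem : ∀ τ ∈ S \ R, minpoly k τ ∈ T := by
    rintro τ ⟨h3, h4⟩
    have hint : IsIntegral k τ := Algebra.IsIntegral.isIntegral τ
    refine ⟨minpoly.monic hint, minpoly.irreducible hint, ?_, irr_minpoly hint h3⟩
    have h5 : (minpoly k τ).natDegree ∣ r := by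
      have h6 := minpoly.degree_dvd hint
      rwa [hfr] at h6
    rcases (Nat.dvd_prime hr).1 h5 with h6 | h6
    · exact absurd (minpoly.natDegree_eq_one_iff.1 h6) h4
    · exact h6
  have hfinT : T.Finite := by
    refine Set.Finite.of_injOn (f := fun (m : k[X]) (i : Fin (r + 1)) => m.coeff i)
      (t := Set.univ) (fun m _ => Set.mem_univ _) ?_ (Set.toFinite _)
    intro m hm m' hm' h
    ext i
    by_cases hi : i < r + 1
    · exact congrFun h ⟨i, hi⟩
    · rw [coeff_eq_zero_of_natDegree_lt (by rw [hm.2.2.1]; omega),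
        coeff_eq_zero_of_natDegree_lt (by rw [hm'.2.2.1]; omega)]
  have hkey : (S \ R).ncard ≤ r * T.ncard := by
    set S' : Finset E := (Set.toFinite (S \ R)).toFinset with hS'
    have h3 : (S \ R).ncard = S'.card := by
      rw [Set.ncard_eq_toFinset_card (S \ R) (Set.toFinite _)]
    have h4 : S'.card ≤ r * (S'.image fun τ => minpoly k τ).card := by
      apply Finset.card_le_mul_card_image
      intro b hb
      rw [Finset.mem_image] at hb
      obtain ⟨τ, hτ, rfl⟩ := hb
      have hτ' : τ ∈ S \ R := by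
        rw [hS', Set.Finite.mem_toFinset] at hτ
        exact hτ
      obtain ⟨h5, h6, h7, h8⟩ := hmem τ hτ'
      have h9 : (S'.filter fun a => minpoly k a = minpoly k τ) ⊆
          ((minpoly k τ).map (algebraMap k E)).roots.toFinset := by
        intro x hx
        rw [Finset.mem_filter] at hx
        rw [Multiset.mem_toFinset, mem_roots ((h5.map _).ne_zero), IsRoot.def, eval_map_algebraMap,
          ← hx.2]
        exact minpoly.aeval k x
      refine (Finset.card_le_card h9).trans ?_
      refine (Multiset.toFinset_card_le _).trans ?_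
      refine (card_roots' _).trans ?_
      rw [natDegree_map, h7]
    rw [h3]
    refine h4.trans (Nat.mul_le_mul_left _ ?_)
    rw [← Set.ncard_coe_finset]
    apply Set.ncard_le_ncard _ hfinT
    intro x hx
    rw [Finset.mem_coe, Finset.mem_image] at hx
    obtain ⟨τ, hτ, rfl⟩ := hx
    apply hmem
    rw [hS', Set.Finite.mem_toFinset] at hτ
    exact hτ
  rw [hRc] at hsplit
  omega

end Run7.h652.SG
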