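import Mathlib

/-!
# The polynomial with the zeros `D m(h) / (h - T)`, `m(T) = 0`
-/

open Polynomial
open scoped Classical

set_option autoImplicit false
set_option linter.all false

namespace Run7.h652.SG

/-- The polynomial `F = X ^ n + ∑_{j < n} (- D) ^ (j + 1) m(h) ^ j m_(j+1)(h) X ^ (n - 1 - j)`, where `n` is the
degree of `m` and `m_j` is the `j`-th Hasse derivative; so `m(h) F(X) = X ^ n m(h - D m(h) / X)`. -/
noncomputable def mdl {R : Type} [CommRing R] (m : R[X]) (h D : R) : R[X] :=
  X ^ m.natDegree + ∑ j ∈ Finset.range m.natDegree,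
    C ((-D) ^ (j + 1) * m.eval h ^ j * (hasseDeriv (j + 1) m).eval h) * X ^ (m.natDegree - 1 - j)

section ring

variable {R : Type} [CommRing R] {m : R[X]} {h D : R}

theorem sum_deg : (∑ j ∈ Finset.range m.natDegree,
    C ((-D) ^ (j + 1) * m.eval h ^ j * (hasseDeriv (j + 1) m).eval h) *
      X ^ (m.natDegree - 1 - j)).degree < (m.natDegree : WithBot ℕ) := by
  refine lt_of_le_of_lt (degree_sum_le _ _) ?_
  rw [Finset.sup_lt_iff (WithBot.bot_lt_coe _)]
  intro j hj
  refine lt_of_le_of_lt (degree_C_mul_X_pow_le _ _) ?_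
  rw [Finset.mem_range] at hj
  exact_mod_cast (by omega : m.natDegree - 1 - j < m.natDegree)

theorem mdl_monic : (mdl m h D).Monic := monic_X_pow_add sum_deg

theorem mdl_natDegree [Nontrivial R] : (mdl m h D).natDegree = m.natDegree := by
  unfold mdl
  apply natDegree_eq_of_degree_eq_some
  rw [degree_add_eq_left_of_degree_lt, degree_X_pow]
  rw [degree_X_pow]
  exact sum_deg

theorem mdl_map {S : Type} [CommRing S] [Nontrivial S] (φ : R →+* S) (hm : m.Monic) :
    (mdl m h D).map φ = mdl (m.map φ) (φ h) (φ D) := by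
  have h1 : (m.map φ).natDegree = m.natDegree := hm.natDegree_map φ
  unfold mdl
  rw [h1]
  rw [Polynomial.map_add, Polynomial.map_pow, Polynomial.map_X, Polynomial.map_sum]
  congr 1
  refine Finset.sum_congr rfl fun j _ => ?_
  rw [Polynomial.map_mul, Polynomial.map_C, Polynomial.map_pow, Polynomial.map_X]
  congr 2
  have h2 : hasseDeriv (j + 1) (m.map φ) = (hasseDeriv (j + 1) m).map φ := by
    ext i
    rw [coeff_map, hasseDeriv_coeff, hasseDeriv_coeff, coeff_map, map_mul, map_natCast]
  rw [h2, eval_map_apply, eval_map_apply]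
  simp only [map_mul, map_pow, map_neg]

end ring

section field

variable {E : Type} [Field E] {m : E[X]} {h D : E}

theorem mdl_eval {x : E} (hx : x ≠ 0) : m.eval h * (mdl m h D).eval x =
    x ^ m.natDegree * m.eval (h - D * m.eval h / x) := by
  have h1 : m.eval (h - D * m.eval h / x) = (taylor h m).eval (-(D * m.eval h / x)) := by
    rw [taylor_eval]
    congr 1
    ring
  rw [h1, eval_eq_sum_range (p := taylor h m), natDegree_taylor, Finset.sum_range_succ']
  unfold mdl
  simp only [eval_add, eval_pow, eval_X, eval_finset_sum, eval_mul, eval_C, taylor_coeff]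
  rw [hasseDeriv_zero', pow_zero, mul_one]
  generalize m.eval h = s
  rw [mul_add, mul_add, add_comm, Finset.mul_sum, Finset.mul_sum]
  congr 1
  · refine Finset.sum_congr rfl fun j hj => ?_
    rw [Finset.mem_range] at hj
    obtain ⟨r, hr⟩ : ∃ r, m.natDegree = j + 1 + r := ⟨m.natDegree - (j + 1), by omega⟩
    have e1 : m.natDegree - 1 - j = r := by omega
    rw [e1]
    rw [hr, pow_add x (j + 1) r, neg_pow (D * s / x), div_pow, mul_pow, neg_pow D]
    field_simp
    ring
  · ring

variable {ι : Type} [Fintype ι]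

/-- The factorisation. -/
theorem mdl_prod {T : ι → E} (hT : Function.Injective T) (hm : m = ∏ i, (X - C (T i)))
    (hD : D ≠ 0) (hh : ∀ i, h ≠ T i) :
    mdl m h D = ∏ i, (X - C (D * m.eval h / (h - T i))) := by
  have hs : m.eval h ≠ 0 := by
    rw [hm, eval_prod, Finset.prod_ne_zero_iff]
    intro i _
    rw [eval_sub, eval_X, eval_C, sub_ne_zero]
    exact hh i
  have hsub : ∀ i, h - T i ≠ 0 := fun i => sub_ne_zero.2 (hh i)
  have hmon : m.Monic := by
    rw [hm]
    exact monic_prod_of_monic _ _ fun i _ => monic_X_sub_C _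
  have hdeg : m.natDegree = Fintype.card ι := by
    rw [hm, natDegree_prod_of_monic _ _ fun i _ => monic_X_sub_C _]
    simp
  have hinj : Function.Injective fun i => D * m.eval h / (h - T i) := by
    intro i j hij
    apply hT
    have h2 : D * m.eval h / (h - T i) = D * m.eval h / (h - T j) := hij
    rw [div_eq_div_iff (hsub i) (hsub j)] at h2
    have h3 := mul_left_cancel₀ (mul_ne_zero hD hs) h2
    linear_combination h3
  have hroot : ∀ i, (mdl m h D).eval (D * m.eval h / (h - T i)) = 0 := by
    intro i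
    have hne : D * m.eval h / (h - T i) ≠ 0 := div_ne_zero (mul_ne_zero hD hs) (hsub i)
    have h2 := mdl_eval (m := m) (h := h) (D := D) hne
    have h3 : h - D * m.eval h / (D * m.eval h / (h - T i)) = T i := by
      rw [div_div_cancel₀ (mul_ne_zero hD hs)]
      ring
    have h4 : m.eval (T i) = 0 := by
      rw [hm, eval_prod]
      apply Finset.prod_eq_zero (Finset.mem_univ i)
      rw [eval_sub, eval_X, eval_C, sub_self]
    rw [h3, h4, mul_zero] at h2
    exact (mul_eq_zero.1 h2).resolve_left hs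
  have hdvd : (∏ i, (X - C (D * m.eval h / (h - T i)))) ∣ mdl m h D := by
    apply Finset.prod_dvd_of_coprime
    · intro i _ j _ hij
      exact isCoprime_X_sub_C_of_isUnit_sub (sub_ne_zero.2 fun hc => hij (hinj hc)).isUnit
    · intro i _
      rw [dvd_iff_isRoot]
      exact hroot i
  symm
  apply eq_of_dvd_of_natDegree_le_of_leadingCoeff hdvd
  · rw [mdl_natDegree, hdeg, natDegree_prod_of_monic _ _ fun i _ => monic_X_sub_C _]
    simp
  · rw [mdl_monic.leadingCoeff]
    exact (monic_prod_of_monic _ _ fun i _ => monic_X_sub_C _)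

/-- The relation to the curve `D y ^ 2 = (h - x) m(x)`. -/
theorem mdl_curve {x y : E} {g : ℕ} (hn : m.natDegree = 2 * g + 1) (hs : m.eval h ≠ 0)
    (hD : D ≠ 0) (hx : x ≠ h) (hxy : D * y ^ 2 = (h - x) * m.eval x) :
    (mdl m h D).eval (D * m.eval h / (h - x)) =
      (D ^ (g + 1) * m.eval h ^ g * y / (h - x) ^ (g + 1)) ^ 2 := by
  have hsub : h - x ≠ 0 := sub_ne_zero.2 hx.symm
  have hne : D * m.eval h / (h - x) ≠ 0 := div_ne_zero (mul_ne_zero hD hs) hsub
  have h2 := mdl_eval (m := m) (h := h) (D := D) hne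
  have h3 : h - D * m.eval h / (D * m.eval h / (h - x)) = x := by
    rw [div_div_cancel₀ (mul_ne_zero hD hs)]
    ring
  rw [h3, hn] at h2
  apply mul_left_cancel₀ hs
  rw [h2]
  have h4 : m.eval x = D * y ^ 2 / (h - x) := by
    rw [eq_div_iff hsub, hxy]
    ring
  rw [h4]
  generalize h - x = u at hsub
  have e1 : u ^ (2 * g + 1) * u = (u ^ (g + 1)) ^ 2 := by ring
  generalize m.eval h = s
  rw [div_pow, div_pow, div_mul_div_comm, e1, mul_div_assoc']
  congr 1
  ring

end field

end Run7.h652.SG
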