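import Pool.Agent.Run7.h905.BS.EvL
import Pool.Agent.Run7.h652.SG.Model

/-!
# Local classes at a place where the reduction is separable
-/

open Polynomial IsLocalRing WithZero IsDedekindDomain
open scoped NNReal Classical

set_option autoImplicit false
set_option linter.all false

namespace Run7.h652.SG

open Pool.Agent.Y154.SE Run7.h905.BS Pool.Agent.N352.JB
open Pool.Agent.TH115.GD (exists_compl_map)

theorem reg_of_sep {O : Type} [CommRing O] [IsLocalRing O] {f : O[X]}
    (hsep : (f.map (residue O)).Separable) (a : O[X]) (ha : Irreducible (a.map (residue O))) :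
    f ∉ (Ideal.span {a} ⊔ (maximalIdeal O).map C) ^ 2 := by
  intro hmem
  have h1 := Ideal.mem_map_of_mem (mapRingHom (residue O)) hmem
  have h2 : ((maximalIdeal O).map (C : O →+* O[X])).map (mapRingHom (residue O)) = ⊥ := by
    rw [Ideal.map_map, eq_bot_iff, Ideal.map_le_iff_le_comap]
    intro r hr
    rw [Ideal.mem_comap, Ideal.mem_bot, RingHom.comp_apply, coe_mapRingHom, map_C,
      (residue_eq_zero_iff r).2 hr, C_0]
  rw [Ideal.map_pow, Ideal.map_sup, h2, sup_bot_eq, Ideal.map_span, Set.image_singleton,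
    Ideal.span_singleton_pow, Ideal.mem_span_singleton, coe_mapRingHom] at h1
  have h3 := hsep.squarefree (a.map (residue O)) (by rw [← pow_two]; exact h1)
  exact ha.not_isUnit h3

section main

variable {k K : Type} [Field k] [PerfectField k] [Field K] [Algebra k[X] K] [IsFractionRing k[X] K]
  (v : HeightOneSpectrum k[X])

section irr

variable {E : Type} [Field E]
  (wE : Valuation E (WithZero (Multiplicative ℤ))) (j : v.adicCompletion K →+* E)
  (hle : ∀ y, Valued.v y ≤ 1 → wE (j y) ≤ 1)
  (f : k[X][X]) (hf : f.Monic) (hodd : Odd f.natDegree)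
  (hsep : (f.map ((residue (v.adicCompletionIntegers K)).comp
    (algebraMap k[X] (v.adicCompletionIntegers K)))).Separable)
  (x : E) (hx : (f.map ((j.comp (algebraMap K (v.adicCompletion K))).comp
    (algebraMap k[X] K))).eval x = 0)

include hle hf hodd hsep hx

theorem even_irr' (u : v.adicCompletion K) (hu : Valued.v u = 1)
    (p c : (v.adicCompletion K)[X]) (hp : p.Monic) (hpi : Irreducible p)
    (hpf : p ∣ (f.map (algebraMap k[X] K)).map (algebraMap K (v.adicCompletion K)) - C u * c ^ 2) :
    ∃ γ : WithZero (Multiplicative ℤ), wE ((p.map j).eval x) = γ ^ 2 := by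
  let fO : (v.adicCompletionIntegers K)[X] := f.map (algebraMap k[X] (v.adicCompletionIntegers K))
  have hfO : fO.map (algebraMap (v.adicCompletionIntegers K) (v.adicCompletion K)) =
      (f.map (algebraMap k[X] K)).map (algebraMap K (v.adicCompletion K)) := by
    show (f.map (algebraMap k[X] (v.adicCompletionIntegers K))).map
      (algebraMap (v.adicCompletionIntegers K) (v.adicCompletion K)) = _
    rw [Polynomial.map_map, Polynomial.map_map]
    congr 1
  have hdeg : fO.natDegree = f.natDegree := hf.natDegree_map _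
  have hsepO : (fO.map (residue (v.adicCompletionIntegers K))).Separable := by
    show ((f.map _).map _).Separable
    rw [Polynomial.map_map]
    exact hsep
  refine loc_valued' (HeightOneSpectrum.valuedAdicCompletion_surjective K v) (fun y => Iff.rfl)
    wE j hle 2 Nat.prime_two fO (hf.map _) (res_perf v)
    (fun a _ ha => reg_of_sep hsepO a ha) ?_ p c
    u hu hp hpi ?_ x ?_
  · rw [hdeg]
    exact Nat.coprime_two_left.2 hodd
  · rw [hfO]
    exact hpf
  · rw [hfO, Polynomial.map_map, Polynomial.map_map]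
    rw [RingHom.comp_assoc] at hx
    exact hx

theorem even_mon' (u : v.adicCompletion K) (hu : Valued.v u = 1)
    (p c : (v.adicCompletion K)[X]) (hp : p.Monic)
    (hpf : p ∣ (f.map (algebraMap k[X] K)).map (algebraMap K (v.adicCompletion K)) - C u * c ^ 2) :
    ∃ γ : WithZero (Multiplicative ℤ), wE ((p.map j).eval x) = γ ^ 2 := by
  induction hn : p.natDegree using Nat.strong_induction_on generalizing p with
  | _ n ih =>
    by_cases hu1 : IsUnit p
    · rw [hp.eq_one_of_isUnit hu1, Polynomial.map_one, eval_one, map_one]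
      exact ⟨1, (one_pow 2).symm⟩
    · obtain ⟨q, hqm, hqi, r, hr⟩ := exists_monic_irreducible_factor p hu1
      have hrm : r.Monic := by
        rw [hr] at hp
        exact hqm.of_mul_monic_left hp
      obtain ⟨γ, hγ⟩ := even_irr' v wE j hle f hf hodd hsep x hx u hu q c hqm hqi
        ((Dvd.intro _ hr.symm).trans hpf)
      have hlt : r.natDegree < n := by
        rw [← hn, hr, hqm.natDegree_mul hrm]
        have := hqi.natDegree_pos
        omega
      obtain ⟨γ', hγ'⟩ := ih r.natDegree hlt r hrm
        ((Dvd.intro_left _ hr.symm).trans hpf) rfl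
      refine ⟨γ * γ', ?_⟩
      rw [hr, Polynomial.map_mul, eval_mul, map_mul, hγ, hγ', mul_pow]

end irr

/-- **The valuations of local classes are even**, for twists by `q = u b ^ 2`, `u` a unit. -/
theorem even_locIm' {B M : Type} [CommRing B] [IsDedekindDomain B] [Field M]
    [Algebra B M] [IsFractionRing B M] (w : HeightOneSpectrum B) (φ : K →+* M)
    (h1 : ∀ x, v.valuation K x ≤ 1 → w.valuation M (φ x) ≤ 1)
    (h2 : ∀ x, v.valuation K x < 1 → w.valuation M (φ x) < 1)
    (f : k[X][X]) (hf : f.Monic) (hodd : Odd f.natDegree)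
    (hsep : (f.map ((residue (v.adicCompletionIntegers K)).comp
      (algebraMap k[X] (v.adicCompletionIntegers K)))).Separable)
    (x : M) (hx : (f.map (φ.comp (algebraMap k[X] K))).eval x = 0)
    (q u b : K) (hqu : q = u * b ^ 2) (hu : v.valuation K u = 1) (hb : b ≠ 0) (F : K[X])
    (hF : F.comp (C q * X) = C (q ^ f.natDegree) * f.map (algebraMap k[X] K)) (h : K[X])
    (hloc : LocIm (v.adicCompletion K) (F.map (algebraMap K (v.adicCompletion K)))
      (h.map (algebraMap K (v.adicCompletion K)))) :
    ∃ γ, w.valuation M ((h.map φ).eval (φ q * x)) = γ ^ 2 := by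
  obtain ⟨j, hj1, hj2, hj3⟩ := exists_compl_map v w φ h1 h2
  set wE : Valuation (w.adicCompletion M) (WithZero (Multiplicative ℤ)) := Valued.v with hwE
  have wz : ∀ z : M, wE (algebraMap M (w.adicCompletion M) z) = w.valuation M z := fun z =>
    HeightOneSpectrum.valuedAdicCompletion_eq_valuation' w z
  have vz : ∀ z : K, Valued.v (algebraMap K (v.adicCompletion K) z) = v.valuation K z := fun z =>
    HeightOneSpectrum.valuedAdicCompletion_eq_valuation' v z
  set qE : v.adicCompletion K := algebraMap K (v.adicCompletion K) q with hqE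
  set uE : v.adicCompletion K := algebraMap K (v.adicCompletion K) u with huE
  set bE : v.adicCompletion K := algebraMap K (v.adicCompletion K) b with hbE
  have hu0 : u ≠ 0 := by
    rintro rfl
    rw [map_zero] at hu
    exact zero_ne_one hu
  have hq0 : q ≠ 0 := by
    rw [hqu]
    exact mul_ne_zero hu0 (pow_ne_zero _ hb)
  have hqE0 : qE ≠ 0 := (_root_.map_ne_zero _).2 hq0
  have hbE0 : bE ≠ 0 := (_root_.map_ne_zero _).2 hb
  have huE0 : uE ≠ 0 := (_root_.map_ne_zero _).2 hu0
  have hqEu : qE = uE * bE ^ 2 := by rw [hqE, hqu, map_mul, map_pow]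
  have huE1 : Valued.v uE = 1 := by rw [huE, vz, hu]
  set x' : w.adicCompletion M := algebraMap M (w.adicCompletion M) x with hx'
  have hjq : j qE = algebraMap M (w.adicCompletion M) (φ q) := hj1 q
  have hwu : wE (j uE) = 1 := by
    apply le_antisymm (hj2 _ huE1.le)
    have h3 : wE (j uE⁻¹) ≤ 1 := hj2 _ (by rw [map_inv₀, huE1, inv_one])
    rw [map_inv₀, map_inv₀] at h3
    have h4 : wE (j uE) ≠ 0 := (Valuation.ne_zero_iff _).2 ((_root_.map_ne_zero j).2 huE0)
    exact (inv_le_one₀ (zero_lt_iff.2 h4)).1 h3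
  have hwb0 : wE (j bE) ≠ 0 := (Valuation.ne_zero_iff _).2 ((_root_.map_ne_zero j).2 hbE0)
  have hwq : wE (j qE) = wE (j bE) ^ 2 := by
    rw [hqEu, map_mul, map_mul, hwu, one_mul, map_pow, map_pow]
  -- evaluation at the root
  have hcomp : j.comp (algebraMap K (v.adicCompletion K)) =
      (algebraMap M (w.adicCompletion M)).comp φ := RingHom.ext hj1
  have hxE : (f.map ((j.comp (algebraMap K (v.adicCompletion K))).comp
      (algebraMap k[X] K))).eval x' = 0 := by
    rw [hcomp, RingHom.comp_assoc, ← Polynomial.map_map, hx', eval_map_apply, hx, map_zero]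
  have hevK : ∀ g : K[X], ((g.map (algebraMap K (v.adicCompletion K))).map j).eval (j qE * x') =
      algebraMap M (w.adicCompletion M) ((g.map φ).eval (φ q * x)) := by
    intro g
    rw [Polynomial.map_map, hcomp, ← Polynomial.map_map, hjq, hx', ← map_mul, eval_map_apply]
  have hFx : (F.map φ).eval (φ q * x) = 0 := by
    have h3 := congrArg (fun g => (g.map φ).eval x) hF
    simp only [Polynomial.map_comp, eval_comp, Polynomial.map_mul, Polynomial.map_C,
      Polynomial.map_X, eval_mul, eval_C, eval_X] at h3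
    rw [h3, Polynomial.map_map, hx, mul_zero]
  have hFE : ((F.map (algebraMap K (v.adicCompletion K))).map j).eval (j qE * x') = 0 := by
    rw [hevK, hFx, map_zero]
  have hFcomp : (F.map (algebraMap K (v.adicCompletion K))).comp (C qE * X) =
      C (qE ^ f.natDegree) * (f.map (algebraMap k[X] K)).map (algebraMap K (v.adicCompletion K)) := by
    have h3 := congrArg (fun g => g.map (algebraMap K (v.adicCompletion K))) hF
    simp only [Polynomial.map_comp, Polynomial.map_mul, Polynomial.map_C, Polynomial.map_X] at h3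
    rw [h3, hqE, map_pow]
  obtain ⟨l, s, hl, hs⟩ := hloc
  -- the values of the factors
  have hval : ∀ p ∈ l, ∃ γ : WithZero (Multiplicative ℤ),
      wE ((p.1.map j).eval (j qE * x')) = γ ^ 2 ∧ (p.1.map j).eval (j qE * x') ≠ 0 := by
    intro p hp
    obtain ⟨hp1, hp2, hp3⟩ := hl p hp
    have hd := dvd_scale hqE0 hFcomp hp3
    have hd' : (C ((qE ^ p.1.natDegree)⁻¹) * p.1.comp (C qE * X)) ∣
        (f.map (algebraMap k[X] K)).map (algebraMap K (v.adicCompletion K)) -
        C ((uE ^ f.natDegree)⁻¹) * (C ((bE ^ f.natDegree)⁻¹) * p.2.comp (C qE * X)) ^ 2 := by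
      have e : C ((uE ^ f.natDegree)⁻¹) * (C ((bE ^ f.natDegree)⁻¹) * p.2.comp (C qE * X)) ^ 2 =
          C ((qE ^ f.natDegree)⁻¹) * (p.2.comp (C qE * X)) ^ 2 := by
        rw [mul_pow, ← C_pow, ← mul_assoc, ← C_mul, hqEu, mul_pow]
        congr 2
        rw [mul_inv, inv_pow, ← pow_mul, ← pow_mul, mul_comm 2]
      rw [e]
      exact hd
    obtain ⟨γ, hγ⟩ := even_mon' v wE j hj2 f hf hodd hsep x' hxE ((uE ^ f.natDegree)⁻¹)
      (by rw [map_inv₀, map_pow, huE1, one_pow, inv_one]) _ _ (monic_scale hqE0 hp1) hd'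
    refine ⟨wE (j bE) ^ p.1.natDegree * γ, ?_, ?_⟩
    · rw [mul_pow, ← hγ]
      simp only [Polynomial.map_mul, Polynomial.map_C, Polynomial.map_comp, Polynomial.map_X,
        eval_mul, eval_C, eval_comp, eval_X]
      rw [map_mul wE, map_inv₀, map_inv₀, map_pow, map_pow, hwq, ← pow_mul, ← pow_mul,
        mul_comm 2, ← mul_assoc, mul_inv_cancel₀ (pow_ne_zero _ hwb0), one_mul]
    · intro h0
      obtain ⟨a, b, hab⟩ := hp2
      have h3 := congrArg (fun g => (g.map j).eval (j qE * x')) hab
      simp only [Polynomial.map_add, Polynomial.map_mul, eval_add, eval_mul, Polynomial.map_one,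
        eval_one] at h3
      rw [h0, hFE, mul_zero, mul_zero, add_zero] at h3
      exact zero_ne_one h3
  have hprod : ∀ l : List ((v.adicCompletion K)[X] × (v.adicCompletion K)[X]),
      (∀ p ∈ l, ∃ γ : WithZero (Multiplicative ℤ),
        wE ((p.1.map j).eval (j qE * x')) = γ ^ 2 ∧ (p.1.map j).eval (j qE * x') ≠ 0) →
      ∃ γ : WithZero (Multiplicative ℤ),
        wE ((((l.map fun p : (v.adicCompletion K)[X] × (v.adicCompletion K)[X] =>
          (-1) ^ p.1.natDegree * p.1).prod).map j).eval (j qE * x')) = γ ^ 2 ∧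
        (((l.map fun p : (v.adicCompletion K)[X] × (v.adicCompletion K)[X] =>
          (-1) ^ p.1.natDegree * p.1).prod).map j).eval (j qE * x') ≠ 0 := by
    intro l
    induction l with
    | nil =>
      intro _
      refine ⟨1, ?_, ?_⟩
      · simp
      · simp
    | cons p l ih =>
      intro h
      obtain ⟨γ, hγ1, hγ2⟩ := h p List.mem_cons_self
      obtain ⟨γ', hγ1', hγ2'⟩ := ih fun r hr => h r (List.mem_cons_of_mem _ hr)
      have e : (((List.map (fun p : (v.adicCompletion K)[X] × (v.adicCompletion K)[X] =>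
          (-1) ^ p.1.natDegree * p.1) (p :: l)).prod).map j).eval
          (j qE * x') = (-1) ^ p.1.natDegree * (p.1.map j).eval (j qE * x') *
          (((l.map fun p : (v.adicCompletion K)[X] × (v.adicCompletion K)[X] =>
          (-1) ^ p.1.natDegree * p.1).prod).map j).eval (j qE * x') := by
        rw [List.map_cons, List.prod_cons, Polynomial.map_mul, Polynomial.map_mul, eval_mul,
          eval_mul]
        congr 1
        congr 1
        simp
      refine ⟨γ * γ', ?_, ?_⟩
      · rw [e, map_mul, map_mul, map_pow, Valuation.map_neg, map_one, one_pow, one_mul, hγ1, hγ1',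
          mul_pow]
      · rw [e]
        exact mul_ne_zero (mul_ne_zero (pow_ne_zero _ (neg_ne_zero.2 one_ne_zero)) hγ2) hγ2'
  obtain ⟨γ, hγ, hγ0⟩ := hprod l hval
  -- the relation
  obtain ⟨r, hr⟩ := hs
  have h3 := congrArg (fun g => (g.map j).eval (j qE * x')) hr
  simp only [Polynomial.map_sub, Polynomial.map_mul, Polynomial.map_pow, eval_sub, eval_mul,
    eval_pow] at h3
  rw [hFE, zero_mul, sub_eq_zero, hevK] at h3
  have h4 := congrArg wE h3
  rw [map_mul, map_pow, wz, hγ] at h4
  have hγne : γ ≠ 0 := by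
    rintro rfl
    rw [zero_pow two_ne_zero] at hγ
    exact hγ0 ((Valuation.zero_iff _).1 hγ)
  refine ⟨wE ((s.map j).eval (j qE * x')) / γ, ?_⟩
  rw [div_pow, ← h4, mul_div_cancel_right₀ _ (pow_ne_zero 2 hγne)]

end main

end Run7.h652.SG
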