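import Pool.Agent.Run7.h652.SG.GL
import Pool.Agent.Run7.h652.SG.Reg
import Pool.Agent.Run7.h905.BS.Glob

/-!
# The field of the Weierstrass points
-/

open Polynomial WithZero IsDedekindDomain
open scoped Classical

set_option autoImplicit false
set_option linter.all false

namespace Run7.h652.SG

open Run7.h905.BS
open Pool.Agent.W309.TD (NoTwo)

attribute [local instance] Polynomial.algebra

/-- The data: `m` is monic and irreducible of odd degree over `k` with the zero `τ` in `k_n`. -/
structure Dat {k kn : Type} [Field k] [Field kn] [Algebra k kn] (m : k[X]) (τ : kn) : Prop where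
  mon : m.Monic
  irr : Irreducible m
  odd : Odd m.natDegree
  root : aeval τ m = 0
  deg : Module.finrank k kn = m.natDegree

section one

variable {k kn : Type} [Field k] [Finite k] [Field kn] [Algebra k kn] {m : k[X]} {τ : kn}

theorem Dat.fd (H : Dat m τ) : FiniteDimensional k kn := by
  apply FiniteDimensional.of_finrank_pos
  rw [H.deg]
  exact H.irr.natDegree_pos

theorem Dat.sep (H : Dat m τ) : m.Separable := PerfectField.separable_of_irreducible H.irr

theorem Dat.cv (H : Dat m τ) : Cv (m.map (C : k →+* k[X])) (C τ : kn[X]) := by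
  refine ⟨H.mon.map _, ?_, ?_, root_const H.root, surj_const H.mon H.irr H.root H.deg,
    ker_const H.mon H.irr H.root⟩
  · rw [H.mon.natDegree_map]
    exact H.odd
  · obtain ⟨a, b, hab⟩ := H.sep
    rw [Ideal.eq_top_iff_one]
    have h1 := congrArg (fun p => p.map (C : k →+* k[X])) hab
    simp only [Polynomial.map_add, Polynomial.map_mul, Polynomial.map_one] at h1
    rw [← derivative_map] at h1
    rw [← h1]
    exact Ideal.add_mem _ (Ideal.mul_mem_left _ _ (Ideal.subset_span (Or.inl rfl)))
      (Ideal.mul_mem_left _ _ (Ideal.subset_span (Or.inr (Or.inl rfl))))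

theorem Dat.finite (H : Dat m τ) : Module.Finite k[X] kn[X] := by
  have hf : (m.map (C : k →+* k[X])).Monic := H.mon.map _
  haveI : Module.Finite k[X] (AdjoinRoot (m.map (C : k →+* k[X]))) := hf.finite_adjoinRoot
  let φ : AdjoinRoot (m.map (C : k →+* k[X])) →ₐ[k[X]] kn[X] :=
    AdjoinRoot.liftAlgHom _ (Algebra.ofId k[X] kn[X]) (C τ) (root_const H.root)
  apply Module.Finite.of_surjective φ.toLinearMap
  intro b
  obtain ⟨g, hg⟩ := H.cv.surj b
  exact ⟨AdjoinRoot.mk _ g, hg⟩

theorem Dat.int (H : Dat m τ) : Algebra.IsIntegral k[X] kn[X] := by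
  haveI := H.finite
  infer_instance

theorem no_two_kn : NoTwo kn[X] := fun I _ => IsPrincipalIdealRing.principal I

end one

section two

variable {k K kn M : Type} [Field k] [Finite k] [Field K] [Algebra k[X] K] [IsFractionRing k[X] K]
  [Field kn] [Algebra k kn] [Field M] [Algebra kn[X] M] [IsFractionRing kn[X] M] [Algebra K M]
  [Algebra k[X] M] [IsScalarTower k[X] kn[X] M] [IsScalarTower k[X] K M] {m : k[X]} {τ : kn}

/-- The zero of `m` in `M`. -/
noncomputable def tM (M : Type) [Field M] [Algebra kn[X] M] (τ : kn) : M := algebraMap kn[X] M (C τ)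

/-- `m(h) / (h - τ)`. -/
noncomputable def cf (M : Type) [Field M] [Algebra kn[X] M] [Algebra k[X] M] (m h : k[X])
    (τ : kn) : M := algebraMap k[X] M (m.comp h) / (algebraMap k[X] M h - tM M τ)

/-- The polynomial `F`. -/
noncomputable def FF (K : Type) [Field K] [Algebra k[X] K] (m h D : k[X]) : K[X] :=
  (mdl (m.map C) h D).map (algebraMap k[X] K)

theorem sub_eq (h : k[X]) (τ : kn) : algebraMap k[X] M h - tM M τ =
    algebraMap kn[X] M (h.map (algebraMap k kn) - C τ) := by
  rw [map_sub, IsScalarTower.algebraMap_apply k[X] kn[X] M, Polynomial.algebraMap_def,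
    coe_mapRingHom]
  rfl

theorem sub_ne (H : Dat m τ) {h : k[X]} (hh : Irreducible (m.comp h)) :
    algebraMap k[X] M h - tM M τ ≠ 0 := by
  rw [sub_eq, Ne, map_eq_zero_iff _ (IsFractionRing.injective kn[X] M)]
  exact (irr_sub H.mon H.irr H.root H.deg hh).ne_zero

theorem Dat.conj (H : Dat m τ) (σ : kn ≃ₐ[k] kn) : Dat m (σ τ) :=
  ⟨H.mon, H.irr, H.odd, root_conj H.root σ, H.deg⟩

theorem eval_mapC (m h : k[X]) : (m.map (C : k →+* k[X])).eval h = m.comp h := by
  rw [eval_map]
  rfl

theorem FF_monic (H : Dat m τ) (h D : k[X]) : (FF K m h D).Monic := mdl_monic.map _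

theorem FF_deg (H : Dat m τ) (h D : k[X]) : (FF K m h D).natDegree = m.natDegree := by
  unfold FF
  rw [mdl_monic.natDegree_map, mdl_natDegree, H.mon.natDegree_map]

variable (M) in
theorem FF_map (H : Dat m τ) (h D : k[X]) : (FF K m h D).map (algebraMap K M) =
    mdl (m.map ((algebraMap k[X] M).comp C)) (algebraMap k[X] M h) (algebraMap k[X] M D) := by
  unfold FF
  rw [Polynomial.map_map, ← IsScalarTower.algebraMap_eq, mdl_map _ (H.mon.map _),
    Polynomial.map_map]

theorem mM_eval (h : k[X]) : (m.map ((algebraMap k[X] M).comp C)).eval (algebraMap k[X] M h) =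
    algebraMap k[X] M (m.comp h) := by
  rw [← Polynomial.map_map, eval_map_apply, eval_mapC]

theorem mM_prod [Fintype (kn ≃ₐ[k] kn)] (H : Dat m τ) : m.map ((algebraMap k[X] M).comp C) =
    ∏ σ : kn ≃ₐ[k] kn, (X - C (tM M (σ τ))) := by
  have h1 : (algebraMap k[X] M).comp (C : k →+* k[X]) =
      ((algebraMap kn[X] M).comp C).comp (algebraMap k kn) := by
    ext c : 1
    rw [RingHom.comp_apply, IsScalarTower.algebraMap_apply k[X] kn[X] M,
      Polynomial.algebraMap_def, coe_mapRingHom, map_C]
    rfl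
  rw [h1, ← Polynomial.map_map, prod_gal H.mon H.irr H.root H.deg, Polynomial.map_prod]
  refine Finset.prod_congr rfl fun σ _ => ?_
  rw [Polynomial.map_sub, map_X, map_C]
  rfl

theorem tM_inj (H : Dat m τ) : Function.Injective fun σ : kn ≃ₐ[k] kn => tM M (σ τ) := by
  intro σ σ' h
  have h1 := IsFractionRing.injective kn[X] M h
  exact conj_inj H.mon H.irr H.root H.deg (C_injective h1)

variable (M) in
theorem FF_prod [Fintype (kn ≃ₐ[k] kn)] (H : Dat m τ) {h D : k[X]} (hh : Irreducible (m.comp h))
    (hD : D ≠ 0) : (FF K m h D).map (algebraMap K M) =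
    ∏ σ : kn ≃ₐ[k] kn, (X - C (algebraMap k[X] M D * cf M m h (σ τ))) := by
  have hinj : Function.Injective (algebraMap k[X] M) := by
    rw [IsScalarTower.algebraMap_eq k[X] K M]
    exact (algebraMap K M).injective.comp (IsFractionRing.injective k[X] K)
  rw [FF_map M H, mdl_prod (T := fun σ : kn ≃ₐ[k] kn => tM M (σ τ)) (tM_inj H) (mM_prod H)
    ((map_ne_zero_iff _ hinj).2 hD) (fun σ => sub_ne_zero.1 (sub_ne (H.conj σ) hh)), mM_eval]
  refine Finset.prod_congr rfl fun σ _ => ?_
  unfold cf
  rw [mul_div_assoc]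

variable (M) in
include M in
theorem FF_sep (H : Dat m τ) {h D : k[X]} (hh : Irreducible (m.comp h))
    (hD : D ≠ 0) : (FF K m h D).Separable := by
  haveI := H.fd
  haveI : Fintype (kn ≃ₐ[k] kn) := Fintype.ofFinite _
  have hinj : Function.Injective (algebraMap k[X] M) := by
    rw [IsScalarTower.algebraMap_eq k[X] K M]
    exact (algebraMap K M).injective.comp (IsFractionRing.injective k[X] K)
  rw [← separable_map (algebraMap K M), FF_prod M H hh hD, separable_prod_X_sub_C_iff]
  intro σ σ' hσ
  apply tM_inj (M := M) H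
  have h1 := mul_left_cancel₀ ((map_ne_zero_iff _ hinj).2 hD) hσ
  unfold cf at h1
  rw [div_eq_div_iff (sub_ne (H.conj σ) hh) (sub_ne (H.conj σ') hh)] at h1
  have h2 := mul_left_cancel₀ ((map_ne_zero_iff _ hinj).2 hh.ne_zero) h1
  show tM M (σ τ) = tM M (σ' τ)
  linear_combination h2

theorem FF_root (H : Dat m τ) {h D : k[X]} (hh : Irreducible (m.comp h)) (hD : D ≠ 0) :
    aeval (algebraMap k[X] M D * cf M m h τ) (FF K m h D) = 0 := by
  haveI := H.fd
  haveI : Fintype (kn ≃ₐ[k] kn) := Fintype.ofFinite _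
  rw [← eval_map_algebraMap, FF_prod M H hh hD, eval_prod]
  apply Finset.prod_eq_zero (Finset.mem_univ (1 : kn ≃ₐ[k] kn))
  rw [eval_sub, eval_X, eval_C, AlgEquiv.one_apply, sub_self]

/-- Every element of `M` is a polynomial in the root. -/
theorem FF_surj (H : Dat m τ) {h D : k[X]} (hh : Irreducible (m.comp h)) (hD : D ≠ 0) (z : M) :
    ∃ g : K[X], aeval (algebraMap k[X] M D * cf M m h τ) g = z := by
  haveI := H.int
  have hinj : Function.Injective (algebraMap k[X] M) := by
    rw [IsScalarTower.algebraMap_eq k[X] K M]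
    exact (algebraMap K M).injective.comp (IsFractionRing.injective k[X] K)
  set θ : M := algebraMap k[X] M D * cf M m h τ with hθ
  have hDM : algebraMap k[X] M D ≠ 0 := (map_ne_zero_iff _ hinj).2 hD
  have hsM : algebraMap k[X] M (m.comp h) ≠ 0 := (map_ne_zero_iff _ hinj).2 hh.ne_zero
  have hsub := sub_ne (M := M) H hh
  have hθ0 : θ ≠ 0 := mul_ne_zero hDM (div_ne_zero hsM hsub)
  have hint : IsIntegral K θ := ⟨_, FF_monic H h D, by
    rw [← aeval_def]
    exact FF_root H hh hD⟩
  have hτmem : tM M τ ∈ IntermediateField.adjoin K {θ} := by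
    have h1 : tM M τ = algebraMap K M (algebraMap k[X] K h) -
        algebraMap K M (algebraMap k[X] K D) * algebraMap K M (algebraMap k[X] K (m.comp h)) / θ := by
      rw [← IsScalarTower.algebraMap_apply, ← IsScalarTower.algebraMap_apply,
        ← IsScalarTower.algebraMap_apply, hθ]
      unfold cf
      rw [← mul_div_assoc, div_div_cancel₀ (mul_ne_zero hDM hsM)]
      ring
    rw [h1]
    exact sub_mem (IntermediateField.algebraMap_mem _ _) (div_mem
      (mul_mem (IntermediateField.algebraMap_mem _ _) (IntermediateField.algebraMap_mem _ _))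
      (IntermediateField.mem_adjoin_simple_self K θ))
  obtain ⟨g, hg⟩ := H.cv.surjK K z
  have h2 : z ∈ IntermediateField.adjoin K {θ} := by
    rw [← hg]
    have h3 : IntermediateField.adjoin K {tM M τ} ≤ IntermediateField.adjoin K {θ} := by
      rw [IntermediateField.adjoin_simple_le_iff]
      exact hτmem
    exact h3 (IntermediateField.algebra_adjoin_le_adjoin K _ (aeval_mem_adjoin_singleton _ _))
  have h3 : z ∈ (IntermediateField.adjoin K {θ}).toSubalgebra := h2
  rw [IntermediateField.adjoin_simple_toSubalgebra_of_isAlgebraic hint.isAlgebraic,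
    Algebra.adjoin_singleton_eq_range_aeval] at h3
  exact h3

theorem FF_minpoly (H : Dat m τ) {h D : k[X]} (hh : Irreducible (m.comp h)) (hD : D ≠ 0) :
    minpoly K (algebraMap k[X] M D * cf M m h τ) = FF K m h D := by
  haveI := H.int
  set θ : M := algebraMap k[X] M D * cf M m h τ with hθ
  have hint : IsIntegral K θ := ⟨_, FF_monic H h D, by
    rw [← aeval_def]
    exact FF_root H hh hD⟩
  have htop : IntermediateField.adjoin K {θ} = ⊤ := by
    rw [eq_top_iff]
    intro z _
    obtain ⟨g, rfl⟩ := FF_surj (K := K) H hh hD z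
    exact IntermediateField.algebra_adjoin_le_adjoin K _ (aeval_mem_adjoin_singleton _ _)
  have h1 := IntermediateField.adjoin.finrank hint
  rw [htop, IntermediateField.finrank_top', H.cv.finrank M, H.mon.natDegree_map] at h1
  refine eq_of_dvd_of_natDegree_le_of_leadingCoeff (minpoly.dvd K θ (FF_root H hh hD)) ?_ ?_
  · rw [FF_deg H, ← h1]
  · rw [(minpoly.monic hint).leadingCoeff, (FF_monic H h D).leadingCoeff]

variable (M) in
include M in
theorem FF_irr (H : Dat m τ) {h D : k[X]} (hh : Irreducible (m.comp h)) (hD : D ≠ 0) :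
    Irreducible (FF K m h D) := by
  rw [← FF_minpoly (M := M) H hh hD]
  exact minpoly.irreducible ⟨_, FF_monic H h D, by
    rw [← aeval_def]
    exact FF_root H hh hD⟩

/-- The norm. -/
theorem FF_norm (H : Dat m τ) {h D : k[X]} (hh : Irreducible (m.comp h)) (hD : D ≠ 0)
    (g : K[X]) : Algebra.norm K (AdjoinRoot.mk (FF K m h D) g) =
      Algebra.norm K (aeval (algebraMap k[X] M D * cf M m h τ) g) := by
  set θ : M := algebraMap k[X] M D * cf M m h τ with hθ
  have hroot : eval₂ (Algebra.ofId K M : K →ₐ[K] M) θ (FF K m h D) = 0 := FF_root H hh hD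
  let φ : AdjoinRoot (FF K m h D) →ₐ[K] M :=
    AdjoinRoot.liftAlgHom (FF K m h D) (Algebra.ofId K M) θ hroot
  have hφ : ∀ g : K[X], φ (AdjoinRoot.mk (FF K m h D) g) = aeval θ g := by
    intro g
    rfl
  have hbij : Function.Bijective φ := by
    constructor
    · rw [injective_iff_map_eq_zero]
      intro z hz
      obtain ⟨g, rfl⟩ := AdjoinRoot.mk_surjective z
      rw [hφ] at hz
      rw [AdjoinRoot.mk_eq_zero, ← FF_minpoly (M := M) H hh hD]
      exact minpoly.dvd K θ hz
    · intro z
      obtain ⟨g, hg⟩ := FF_surj (K := K) H hh hD z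
      exact ⟨AdjoinRoot.mk _ g, by rw [hφ, hg]⟩
  have h1 := Algebra.norm_eq_of_algEquiv (AlgEquiv.ofBijective φ hbij) (AdjoinRoot.mk (FF K m h D) g)
  rw [← h1]
  exact congrArg _ (hφ g).symm

end two

end Run7.h652.SG
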