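import Pool.Agent.Run7.h905.BS.Ev

/-!
# Local classes at a node
-/

open Polynomial WithZero
open scoped NNReal Classical

set_option autoImplicit false
set_option linter.all false

namespace Run7.h652.SG

open Pool.Agent.Y154.SE

section nn

variable {L : Type*} [NontriviallyNormedField L] [IsUltrametricDist L] [CompleteSpace L]

theorem norm_eval {p : L[X]} (hp : p.Monic) (hpi : Irreducible p) {ξ : AlgebraicClosure L}
    (hξ : aeval ξ p = 0) (e : L) :
    ‖p.eval e‖₊ = sv (ξ - algebraMap L (AlgebraicClosure L) e) ^ p.natDegree := by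
  have h1 := sv_resultant_comm (algebraMap L (AlgebraicClosure L) e) ξ
  have h2 : minpoly L ξ = p := (minpoly.eq_of_irreducible_of_monic hpi hξ hp).symm
  have h3 : minpoly L (algebraMap L (AlgebraicClosure L) e) = X - C e := minpoly.eq_X_sub_C _ e
  rw [h2, h3, natDegree_X_sub_C, pow_one, aeval_algebraMap_apply, sv_algebraMap] at h1
  have h4 : aeval ξ (X - C e) = ξ - algebraMap L (AlgebraicClosure L) e := by
    rw [map_sub, aeval_X, aeval_C]
  rw [h4] at h1
  rw [← h1]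
  congr 1

variable {ι : Type} [Fintype ι]

theorem prod_formula {p c : L[X]} (hp : p.Monic) (hpi : Irreducible p) {e : ι → L}
    (hpf : p ∣ c ^ 2 - ∏ i, (X - C (e i))) :
    ∏ i, ‖p.eval (e i)‖₊ = ‖resultant p c‖₊ ^ 2 := by
  obtain ⟨ξ, hξ⟩ := IsAlgClosed.exists_aeval_eq_zero (AlgebraicClosure L) p hpi.degree_pos.ne'
  have h2 : minpoly L ξ = p := (minpoly.eq_of_irreducible_of_monic hpi hξ hp).symm
  have h3 : ‖resultant p c‖₊ = sv (aeval ξ c) ^ p.natDegree := by
    have := sv_resultant ξ c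
    rwa [h2] at this
  obtain ⟨q, hq⟩ := hpf
  have h4 := congrArg (aeval ξ) hq
  rw [map_mul, hξ, zero_mul, map_sub, map_pow, sub_eq_zero, map_prod] at h4
  have h5 : ∀ i, aeval ξ (X - C (e i)) = ξ - algebraMap L (AlgebraicClosure L) (e i) := by
    intro i
    rw [map_sub, aeval_X, aeval_C]
  have h6 := congrArg (⇑(sv (L := L))) h4
  rw [map_pow, map_prod] at h6
  rw [Finset.prod_congr rfl fun i _ => norm_eval hp hpi hξ (e i), Finset.prod_pow, h3, ← pow_mul,
    mul_comm, pow_mul, h6]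
  congr 1
  exact Finset.prod_congr rfl fun i _ => by rw [h5]

/-- **Local classes at a node.** -/
theorem node (i₀ : ι) (ho : Odd (Fintype.card ι)) (e : ι → L) (t : L) (ht0 : t ≠ 0)
    (ht : ‖t‖₊ < 1) (h0 : ‖e i₀‖₊ = 1) (h1 : ∀ i, i ≠ i₀ → ‖e i‖₊ = ‖t‖₊)
    (h2 : ∀ i j, i ≠ i₀ → j ≠ i₀ → i ≠ j → ‖e i - e j‖₊ = ‖t‖₊) (p c : L[X]) (hp : p.Monic)
    (hpi : Irreducible p) (hpf : p ∣ c ^ 2 - ∏ i, (X - C (e i))) :
    (∃ z : L, ‖p.eval (e i₀)‖₊ = ‖z‖₊ ^ 2) ∧
      ∃ b : L, b ≠ 0 ∧ ∀ i, i ≠ i₀ → ∃ z : L, ‖p.eval (e i)‖₊ = ‖b‖₊ * ‖z‖₊ ^ 2 := by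
  obtain ⟨ξ, hξ⟩ := IsAlgClosed.exists_aeval_eq_zero (AlgebraicClosure L) p hpi.degree_pos.ne'
  have hne := fun a : L => norm_eval hp hpi hξ a
  have hpr := prod_formula hp hpi hpf
  set m := p.natDegree with hm
  set R := resultant p c with hR
  have sva : ∀ a : L, sv (algebraMap L (AlgebraicClosure L) a) = ‖a‖₊ := sv_algebraMap
  have hsub : ∀ a : L, ‖a‖₊ < sv ξ → sv (ξ - algebraMap L (AlgebraicClosure L) a) = sv ξ := by
    intro a ha
    rw [sub_eq_add_neg]
    apply Valuation.map_add_eq_of_lt_left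
    rw [Valuation.map_neg, sva]
    exact ha
  have hsub' : ∀ a : L, sv ξ < ‖a‖₊ → sv (ξ - algebraMap L (AlgebraicClosure L) a) = ‖a‖₊ := by
    intro a ha
    rw [sub_eq_add_neg, ← sva a, ← Valuation.map_neg (sv (L := L))
      (algebraMap L (AlgebraicClosure L) a)]
    apply Valuation.map_add_eq_of_lt_right
    rw [Valuation.map_neg, sva]
    exact ha
  have h00 : ‖p.eval 0‖₊ = sv ξ ^ m := by
    rw [hne 0, map_zero, sub_zero]
  obtain ⟨a, ha⟩ := ho
  have hcard : (Finset.univ.erase i₀).card = 2 * a := by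
    rw [Finset.card_erase_of_mem (Finset.mem_univ _), Finset.card_univ, ha]
    omega
  have hsplit : ∏ i, ‖p.eval (e i)‖₊ =
      ‖p.eval (e i₀)‖₊ * ∏ i ∈ Finset.univ.erase i₀, ‖p.eval (e i)‖₊ :=
    (Finset.mul_prod_erase _ _ (Finset.mem_univ _)).symm
  rcases lt_trichotomy (sv ξ) 1 with hlt | heq | hgt
  · -- `|ξ| < 1`
    have e0 : ‖p.eval (e i₀)‖₊ = 1 := by
      rw [hne, hsub' _ (by rw [h0]; exact hlt), h0, one_pow]
    refine ⟨⟨1, by rw [e0, nnnorm_one, one_pow]⟩, ?_⟩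
    rcases lt_or_ge ‖t‖₊ (sv ξ) with hc | hc
    · refine ⟨p.eval 0, ?_, fun i hi => ⟨1, ?_⟩⟩
      · rw [← nnnorm_ne_zero_iff, h00]
        exact pow_ne_zero _ (lt_of_le_of_lt zero_le hc).ne'
      · rw [hne, hsub _ (by rw [h1 i hi]; exact hc), nnnorm_one, one_pow, mul_one, h00]
    · refine ⟨t ^ m, pow_ne_zero _ ht0, ?_⟩
      have hle : ∀ i, i ≠ i₀ → sv (ξ - algebraMap L (AlgebraicClosure L) (e i)) ≤ ‖t‖₊ := by
        intro i hi
        rw [sub_eq_add_neg]
        refine Valuation.map_add_le _ hc ?_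
        rw [Valuation.map_neg, sva, h1 i hi]
      by_cases hall : ∃ i₁, i₁ ≠ i₀ ∧ sv (ξ - algebraMap L (AlgebraicClosure L) (e i₁)) < ‖t‖₊
      · obtain ⟨i₁, hi₁, hlt₁⟩ := hall
        have hoth : ∀ i, i ≠ i₀ → i ≠ i₁ → ‖p.eval (e i)‖₊ = ‖t‖₊ ^ m := by
          intro i hi hi'
          rw [hne]
          congr 1
          apply le_antisymm (hle i hi)
          by_contra hcon
          rw [not_le] at hcon
          have h3 : ‖e i - e i₁‖₊ < ‖t‖₊ := by
            rw [← sva, map_sub]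
            have : algebraMap L (AlgebraicClosure L) (e i) -
                algebraMap L (AlgebraicClosure L) (e i₁) =
                (ξ - algebraMap L (AlgebraicClosure L) (e i₁)) +
                -(ξ - algebraMap L (AlgebraicClosure L) (e i)) := by ring
            rw [this]
            refine Valuation.map_add_lt _ hlt₁ ?_
            rw [Valuation.map_neg]
            exact hcon
          rw [h2 i i₁ hi hi₁ hi'] at h3
          exact lt_irrefl _ h3
        have hmem : i₁ ∈ Finset.univ.erase i₀ := Finset.mem_erase.2 ⟨hi₁, Finset.mem_univ _⟩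
        have hprod : ∏ i ∈ Finset.univ.erase i₀, ‖p.eval (e i)‖₊ =
            ‖p.eval (e i₁)‖₊ * (‖t‖₊ ^ m) ^ (2 * a - 1) := by
          rw [← Finset.mul_prod_erase _ _ hmem]
          congr 1
          rw [Finset.prod_congr rfl fun i hi => hoth i
            (Finset.mem_erase.1 (Finset.mem_erase.1 hi).2).1 (Finset.mem_erase.1 hi).1,
            Finset.prod_const, Finset.card_erase_of_mem hmem, hcard]
        have ha0 : 1 ≤ a := by
          by_contra hcon
          have : a = 0 := by omega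
          rw [this, mul_zero, Finset.card_eq_zero] at hcard
          rw [hcard] at hmem
          exact absurd hmem (Finset.notMem_empty _)
        intro i hi
        by_cases hii : i = i₁
        · rw [hii]
          refine ⟨R / (t ^ m) ^ a, ?_⟩
          rw [hsplit, e0, one_mul, hprod] at hpr
          have htn : ‖t‖₊ ≠ 0 := nnnorm_ne_zero_iff.2 ht0
          rw [nnnorm_div, nnnorm_pow, nnnorm_pow, div_pow, ← hpr]
          obtain ⟨b, rfl⟩ : ∃ b, a = b + 1 := ⟨a - 1, by omega⟩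
          have e1 : 2 * (b + 1) - 1 = 2 * b + 1 := by omega
          rw [e1, nnnorm_pow]
          have htm : (‖t‖₊ ^ m) ≠ 0 := pow_ne_zero _ htn
          generalize ‖t‖₊ ^ m = T at htm
          field_simp
          ring
        · refine ⟨1, ?_⟩
          rw [hoth i hi hii, nnnorm_one, one_pow, mul_one, nnnorm_pow]
      · push Not at hall
        intro i hi
        refine ⟨1, ?_⟩
        rw [hne, le_antisymm (hle i hi) (hall i hi), nnnorm_one, one_pow, mul_one, nnnorm_pow]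
  · -- `|ξ| = 1`
    have hoth : ∀ i, i ≠ i₀ → ‖p.eval (e i)‖₊ = 1 := by
      intro i hi
      rw [hne, hsub _ (by rw [h1 i hi, heq]; exact ht), heq, one_pow]
    refine ⟨⟨R, ?_⟩, 1, one_ne_zero, fun i hi => ⟨1, ?_⟩⟩
    · rw [← hpr, hsplit, Finset.prod_eq_one fun i hi => hoth i (Finset.mem_erase.1 hi).1, mul_one]
    · rw [hoth i hi, nnnorm_one, one_pow, mul_one]
  · -- `|ξ| > 1`
    have hall : ∀ i, ‖p.eval (e i)‖₊ = ‖p.eval 0‖₊ := by
      intro i
      rw [h00, hne, hsub]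
      by_cases hi : i = i₀
      · rw [hi, h0]; exact hgt
      · rw [h1 i hi]; exact ht.trans hgt
    have hp0 : ‖p.eval 0‖₊ ≠ 0 := by
      rw [h00]
      exact pow_ne_zero _ (zero_lt_one.trans hgt).ne'
    have key : ‖p.eval 0‖₊ = ‖R / (p.eval 0) ^ a‖₊ ^ 2 := by
      rw [Finset.prod_congr rfl fun i _ => hall i, Finset.prod_const, Finset.card_univ, ha] at hpr
      rw [nnnorm_div, nnnorm_pow, div_pow, ← hpr]
      generalize ‖p.eval 0‖₊ = T at hp0
      field_simp
      ring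
    refine ⟨⟨R / (p.eval 0) ^ a, by rw [hall i₀]; exact key⟩, 1, one_ne_zero,
      fun i hi => ⟨R / (p.eval 0) ^ a, ?_⟩⟩
    rw [hall i, nnnorm_one, one_mul]
    exact key

end nn

section valued

variable {L : Type*} [Field L] [Valued L (WithZero (Multiplicative ℤ))] [CompleteSpace L]
  [hdisc : (Valued.v : Valuation L (WithZero (Multiplicative ℤ))).IsRankOneDiscrete]
  {ι : Type} [Fintype ι]

theorem node_v (i₀ : ι) (ho : Odd (Fintype.card ι)) (e : ι → L) (t : L) (ht0 : t ≠ 0)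
    (ht : Valued.v t < 1) (h0 : Valued.v (e i₀) = 1)
    (h1 : ∀ i, i ≠ i₀ → Valued.v (e i) = Valued.v t)
    (h2 : ∀ i j, i ≠ i₀ → j ≠ i₀ → i ≠ j → Valued.v (e i - e j) = Valued.v t) (p c : L[X])
    (hp : p.Monic) (hpi : Irreducible p) (hpf : p ∣ c ^ 2 - ∏ i, (X - C (e i))) :
    (∃ z : L, Valued.v (p.eval (e i₀)) = Valued.v z ^ 2) ∧
      ∃ b : L, b ≠ 0 ∧ ∀ i, i ≠ i₀ → ∃ z : L,
        Valued.v (p.eval (e i)) = Valued.v b * Valued.v z ^ 2 := by
  let hr : (Valued.v : Valuation L (WithZero (Multiplicative ℤ))).RankOne :=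
    Valuation.IsRankOneDiscrete.rankOne _ (e := 2) one_lt_two
  let _ : NontriviallyNormedField L := Valued.toNontriviallyNormedField (L := L)
    (Γ₀ := WithZero (Multiplicative ℤ))
  have hle : ∀ x y : L, ‖x‖₊ ≤ ‖y‖₊ ↔ Valued.v x ≤ Valued.v y := fun x y =>
    Valued.toNormedField.norm_le_iff
  have heq : ∀ x y : L, ‖x‖₊ = ‖y‖₊ ↔ Valued.v x = Valued.v y := by
    intro x y
    rw [le_antisymm_iff, le_antisymm_iff, hle, hle]
  have hone : ∀ x : L, ‖x‖₊ = 1 ↔ Valued.v x = 1 := by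
    intro x
    have h3 := heq x 1
    rw [nnnorm_one, map_one] at h3
    exact h3
  obtain ⟨g1, b, hb0, g2⟩ := node i₀ ho e t ht0 (by
      have h3 := hle 1 t
      rw [nnnorm_one, map_one] at h3
      rw [← not_le, h3, not_le]
      exact ht) ((hone _).2 h0) (fun i hi => (heq _ _).2 (h1 i hi))
      (fun i j hi hj hij => (heq _ _).2 (h2 i j hi hj hij)) p c hp hpi hpf
  refine ⟨?_, b, hb0, fun i hi => ?_⟩
  · obtain ⟨z, hz⟩ := g1
    refine ⟨z, ?_⟩
    rw [← map_pow, ← heq, hz, nnnorm_pow]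
  · obtain ⟨z, hz⟩ := g2 i hi
    refine ⟨z, ?_⟩
    rw [← map_pow, ← map_mul, ← heq, hz, nnnorm_mul, nnnorm_pow]

end valued

end Run7.h652.SG
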