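import Pool.Agent.Run7.h652.SG.Root
import Pool.Agent.Run7.h652.SG.Node
import Pool.Agent.Run7.h652.SG.Fd

/-!
# The completion at the place `m(h)`
-/

open Polynomial WithZero IsDedekindDomain IsLocalRing
open scoped Classical NNReal

set_option autoImplicit false
set_option linter.all false

namespace Run7.h652.SG

open Run7.h905.BS Pool.Agent.N352.JB

attribute [local instance] Polynomial.algebra

section val

variable {k L : Type} [Field k] [Finite k] [Field L] [Valued L (WithZero (Multiplicative ℤ))]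
  [CompleteSpace L] [hdisc : (Valued.v : Valuation L (WithZero (Multiplicative ℤ))).IsRankOneDiscrete]
  [Algebra k L]

theorem near_root_v {m : k[X]} (hm : m.Monic) (hsep : m.Separable) {a : L}
    (ha : Valued.v (aeval a m) < 1) : ∃ T : L, aeval T m = 0 ∧ Valued.v (a - T) < 1 := by
  let hr : (Valued.v : Valuation L (WithZero (Multiplicative ℤ))).RankOne :=
    Valuation.IsRankOneDiscrete.rankOne _ (e := 2) one_lt_two
  let _ : NontriviallyNormedField L := Valued.toNontriviallyNormedField (L := L)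
    (Γ₀ := WithZero (Multiplicative ℤ))
  have hlt : ∀ x : L, ‖x‖₊ < 1 ↔ Valued.v x < 1 := by
    intro x
    have h3 : ‖(1 : L)‖₊ ≤ ‖x‖₊ ↔ Valued.v (1 : L) ≤ Valued.v x := Valued.toNormedField.norm_le_iff
    rw [nnnorm_one, map_one] at h3
    rw [← not_le, h3, not_le]
  obtain ⟨T, h1, h2⟩ := near_root hm hsep ((hlt _).2 ha)
  exact ⟨T, h1, (hlt _).1 h2⟩

variable {ι : Type} [Fintype ι]

/-- The local classes at a node, for monic polynomials. -/
theorem node_mon (i₀ : ι) (ho : Odd (Fintype.card ι)) (e : ι → L) (t : L) (ht0 : t ≠ 0)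
    (ht : Valued.v t < 1) (h0 : Valued.v (e i₀) = 1)
    (h1 : ∀ i, i ≠ i₀ → Valued.v (e i) = Valued.v t)
    (h2 : ∀ i j, i ≠ i₀ → j ≠ i₀ → i ≠ j → Valued.v (e i - e j) = Valued.v t) (p c : L[X])
    (hp : p.Monic) (hpf : p ∣ c ^ 2 - ∏ i, (X - C (e i))) :
    (∃ z : L, Valued.v (p.eval (e i₀)) = Valued.v z ^ 2) ∧
      ∃ b : L, b ≠ 0 ∧ ∀ i, i ≠ i₀ → ∃ z : L,
        Valued.v (p.eval (e i)) = Valued.v b * Valued.v z ^ 2 := by
  induction hn : p.natDegree using Nat.strong_induction_on generalizing p with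
  | _ n ih =>
    by_cases hu1 : IsUnit p
    · rw [hp.eq_one_of_isUnit hu1]
      refine ⟨⟨1, by simp⟩, 1, one_ne_zero, fun i _ => ⟨1, by simp⟩⟩
    · obtain ⟨q, hqm, hqi, r, hr⟩ := exists_monic_irreducible_factor p hu1
      have hrm : r.Monic := by
        rw [hr] at hp
        exact hqm.of_mul_monic_left hp
      obtain ⟨⟨z, hz⟩, b, hb0, hb⟩ := node_v i₀ ho e t ht0 ht h0 h1 h2 q c hqm hqi
        ((Dvd.intro _ hr.symm).trans hpf)
      have hlt : r.natDegree < n := by
        rw [← hn, hr, hqm.natDegree_mul hrm]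
        have := hqi.natDegree_pos
        omega
      obtain ⟨⟨z', hz'⟩, b', hb0', hb'⟩ := ih r.natDegree hlt r hrm
        ((Dvd.intro_left _ hr.symm).trans hpf) rfl
      refine ⟨⟨z * z', ?_⟩, b * b', mul_ne_zero hb0 hb0', fun i hi => ?_⟩
      · rw [hr, eval_mul, map_mul, hz, hz', map_mul, mul_pow]
      · obtain ⟨y, hy⟩ := hb i hi
        obtain ⟨y', hy'⟩ := hb' i hi
        refine ⟨y * y', ?_⟩
        rw [hr, eval_mul, map_mul, hy, hy', map_mul, map_mul, mul_pow]
        ac_rfl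

/-- The local classes at a node. -/
theorem node_loc (i₀ : ι) (ho : Odd (Fintype.card ι)) (e : ι → L) (t : L) (ht0 : t ≠ 0)
    (ht : Valued.v t < 1) (h0 : Valued.v (e i₀) = 1)
    (h1 : ∀ i, i ≠ i₀ → Valued.v (e i) = Valued.v t)
    (h2 : ∀ i j, i ≠ i₀ → j ≠ i₀ → i ≠ j → Valued.v (e i - e j) = Valued.v t) {F g : L[X]}
    (hF : F = ∏ i, (X - C (e i))) (hloc : LocIm L F g) :
    (∃ z : L, Valued.v (g.eval (e i₀)) = Valued.v z ^ 2) ∧
      ∃ b : L, b ≠ 0 ∧ ∀ i, i ≠ i₀ → ∃ z : L,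
        Valued.v (g.eval (e i)) = Valued.v b * Valued.v z ^ 2 := by
  obtain ⟨l, s, hl, r, hr⟩ := hloc
  change g * kl l - s ^ 2 = F * r at hr
  have hFe : ∀ i, F.eval (e i) = 0 := by
    intro i
    rw [hF, eval_prod]
    apply Finset.prod_eq_zero (Finset.mem_univ i)
    rw [eval_sub, eval_X, eval_C, sub_self]
  have hlist : ∀ l : List (L[X] × L[X]),
      (∀ p ∈ l, p.1.Monic ∧ IsCoprime p.1 F ∧ p.1 ∣ p.2 ^ 2 - F) →
      (∀ i, (kl l).eval (e i) ≠ 0) ∧
      (∃ z : L, Valued.v ((kl l).eval (e i₀)) =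
        Valued.v z ^ 2) ∧
      ∃ b : L, b ≠ 0 ∧ ∀ i, i ≠ i₀ → ∃ z : L,
        Valued.v ((kl l).eval (e i)) =
          Valued.v b * Valued.v z ^ 2 := by
    intro l
    induction l with
    | nil =>
      intro _
      have hnil : kl ([] : List (L[X] × L[X])) = 1 := by
        unfold kl
        rw [List.map_nil, List.prod_nil]
      rw [hnil]
      refine ⟨fun i => by simp, ⟨1, by simp⟩, 1, one_ne_zero, fun i _ => ⟨1, by simp⟩⟩
    | cons p l ih =>
      intro hl
      obtain ⟨hp1, hp2, hp3⟩ := hl p List.mem_cons_self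
      obtain ⟨hne, ⟨z', hz'⟩, b', hb0', hb'⟩ := ih fun q hq => hl q (List.mem_cons_of_mem _ hq)
      obtain ⟨⟨z, hz⟩, b, hb0, hb⟩ := node_mon i₀ ho e t ht0 ht h0 h1 h2 p.1 p.2 hp1
        (by rw [← hF]; exact hp3)
      have hpe : ∀ i, p.1.eval (e i) ≠ 0 := by
        intro i hpi
        obtain ⟨a, b, hab⟩ := hp2
        have h3 := congrArg (fun q => q.eval (e i)) hab
        simp only [eval_add, eval_mul, eval_one] at h3
        rw [hpi, hFe, mul_zero, mul_zero, add_zero] at h3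
        exact zero_ne_one h3
      have hev : ∀ i, (kl (p :: l)).eval (e i) =
          (-1) ^ p.1.natDegree * p.1.eval (e i) *
            (kl l).eval (e i) := by
        intro i
        unfold kl
        rw [List.map_cons, List.prod_cons, eval_mul, eval_mul, eval_pow, eval_neg, eval_one]
      have hv : ∀ i, Valued.v ((kl (p :: l)).eval (e i)) =
          Valued.v (p.1.eval (e i)) *
            Valued.v ((kl l).eval (e i)) := by
        intro i
        rw [hev, map_mul, map_mul, map_pow, Valuation.map_neg, map_one, one_pow, one_mul]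
      refine ⟨fun i => ?_, ⟨z * z', ?_⟩, b * b', mul_ne_zero hb0 hb0', fun i hi => ?_⟩
      · rw [hev]
        exact mul_ne_zero (mul_ne_zero (pow_ne_zero _ (neg_ne_zero.2 one_ne_zero)) (hpe i)) (hne i)
      · rw [hv, hz, hz', map_mul, mul_pow]
      · obtain ⟨y, hy⟩ := hb i hi
        obtain ⟨y', hy'⟩ := hb' i hi
        refine ⟨y * y', ?_⟩
        rw [hv, hy, hy', map_mul, map_mul, mul_pow]
        ac_rfl
  obtain ⟨hne, ⟨z, hz⟩, b, hb0, hb⟩ := hlist l hl
  have hrel : ∀ i, Valued.v (g.eval (e i)) *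
      Valued.v ((kl l).eval (e i)) =
      Valued.v (s.eval (e i)) ^ 2 := by
    intro i
    have h3 := congrArg (fun q => q.eval (e i)) hr
    simp only [eval_sub, eval_mul, eval_pow] at h3
    rw [hFe, zero_mul, sub_eq_zero] at h3
    rw [← map_mul, h3, map_pow]
  have hvne : ∀ i, Valued.v ((kl l).eval (e i)) ≠ 0 :=
    fun i => (Valuation.ne_zero_iff _).2 (hne i)
  refine ⟨⟨s.eval (e i₀) / z, ?_⟩, b, hb0, fun i hi => ?_⟩
  · rw [map_div₀, div_pow, ← hrel i₀, ← hz, mul_div_cancel_right₀ _ (hvne i₀)]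
  · obtain ⟨y, hy⟩ := hb i hi
    have hy0 : y ≠ 0 := by
      rintro rfl
      rw [map_zero, zero_pow two_ne_zero, mul_zero] at hy
      exact hvne i hy
    refine ⟨s.eval (e i) / (b * y), ?_⟩
    have hbv : Valued.v b ≠ 0 := (Valuation.ne_zero_iff _).2 hb0
    have hyv : Valued.v y ≠ 0 := (Valuation.ne_zero_iff _).2 hy0
    rw [map_div₀, div_pow, ← hrel i, hy, map_mul]
    field_simp

end val

section lift

variable {k kn : Type} [Field k] [Finite k] [Field kn] [Algebra k kn] {m : k[X]} {τ : kn}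

theorem Dat.lift (H : Dat m τ) {E : Type} [Field E] [Algebra k E] {T : E} (hT : aeval T m = 0) :
    ∃ ι : kn →ₐ[k] E, ι τ = T := by
  haveI := H.fd
  haveI : Fact (Irreducible m) := ⟨H.irr⟩
  haveI : FiniteDimensional k (AdjoinRoot m) := (AdjoinRoot.powerBasis H.irr.ne_zero).finite
  let φ : AdjoinRoot m →ₐ[k] kn := AdjoinRoot.liftAlgHom m (Algebra.ofId k kn) τ H.root
  have hfin : Module.finrank k (AdjoinRoot m) = Module.finrank k kn := by
    rw [(AdjoinRoot.powerBasis H.irr.ne_zero).finrank, AdjoinRoot.powerBasis_dim, H.deg]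
  have hinj : Function.Injective φ := φ.toRingHom.injective
  have hbij : Function.Bijective φ :=
    ⟨hinj, (LinearMap.injective_iff_surjective_of_finrank_eq_finrank (f := φ.toLinearMap) hfin).1 hinj⟩
  let e := AlgEquiv.ofBijective φ hbij
  let ψ : AdjoinRoot m →ₐ[k] E := AdjoinRoot.liftAlgHom m (Algebra.ofId k E) T hT
  refine ⟨ψ.comp e.symm.toAlgHom, ?_⟩
  have h1 : e (AdjoinRoot.root m) = τ := by
    show φ (AdjoinRoot.root m) = τ
    exact AdjoinRoot.liftAlgHom_root m (Algebra.ofId k kn) τ H.root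
  show ψ (e.symm τ) = T
  rw [← h1, AlgEquiv.symm_apply_apply]
  exact AdjoinRoot.liftAlgHom_root m (Algebra.ofId k E) T hT

end lift

end Run7.h652.SG
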