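import Pool.Agent.Run7.h652.SG.Fin1
import Pool.Agent.Run7.h905.DK.De

/-!
# Families of data for the main theorem
-/

open Polynomial
open scoped Classical

set_option autoImplicit false
set_option linter.all false

namespace Run7.h652.SG

section base

variable {k k' : Type} [Field k] [Finite k] [Field k'] [Algebra k k'] [FiniteDimensional k k']

theorem facExt {A : k[X]} {π' : k'[X]} (h : Irreducible π')
    (hd : π' ∣ A.map (algebraMap k k')) :
    ∃ π : k[X], Irreducible π ∧ π ∣ A ∧ π'.natDegree ∣ π.natDegree := by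
  haveI : Fact (Irreducible π') := ⟨h⟩
  haveI : FiniteDimensional k' (AdjoinRoot π') := (AdjoinRoot.powerBasis h.ne_zero).finite
  haveI : FiniteDimensional k (AdjoinRoot π') := FiniteDimensional.trans k k' (AdjoinRoot π')
  haveI : Finite k' := Module.finite_of_finite k
  set α := AdjoinRoot.root π' with hα
  have hint : IsIntegral k α := Algebra.IsIntegral.isIntegral α
  have hirr := minpoly.irreducible hint
  have h1 : minpoly k α ∣ A := by
    apply minpoly.dvd
    rw [← aeval_map_algebraMap k', AdjoinRoot.aeval_eq, AdjoinRoot.mk_eq_zero]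
    exact hd
  have h2 : π' ∣ (minpoly k α).map (algebraMap k k') := by
    rw [← AdjoinRoot.mk_eq_zero, ← AdjoinRoot.aeval_eq, aeval_map_algebraMap]
    exact minpoly.aeval k α
  refine ⟨minpoly k α, hirr, h1, ?_⟩
  apply h.natDegree_dvd_of_dvd_X_pow_card_pow_sub_X
  have h3 : minpoly k α ∣ X ^ (Nat.card k) ^ (minpoly k α).natDegree - X :=
    hirr.natDegree_dvd_iff_dvd_X_pow_card_pow_sub_X.1 dvd_rfl
  have h4 := Polynomial.map_dvd (algebraMap k k') h3
  rw [Polynomial.map_sub, Polynomial.map_pow, Polynomial.map_X] at h4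
  have h5 : Nat.card k' = Nat.card k ^ Module.finrank k k' := Module.natCard_eq_pow_finrank
  rw [h5, ← pow_mul]
  exact h2.trans (h4.trans (dvd_pow_pow_sub_self_of_dvd (Dvd.intro_left _ rfl)))

theorem Hyp.ext {m h A B : k[X]} {x₀ : k} (Q : Hyp m h A B x₀)
    (hc : Nat.Coprime (m.natDegree * h.natDegree) (Module.finrank k k')) :
    Hyp (m.map (algebraMap k k')) (h.map (algebraMap k k')) (A.map (algebraMap k k'))
      (B.map (algebraMap k k')) (algebraMap k k' x₀) where
  mon := Q.mon.map _
  irr := Run7.h905.DK.irr_ext Q.irr (Nat.Coprime.coprime_dvd_left (Dvd.intro _ rfl) hc)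
  odd := by rw [natDegree_map]; exact Q.odd
  big := by rw [natDegree_map]; exact Q.big
  prime := by
    rw [← Polynomial.map_comp]
    exact Run7.h905.DK.irr_ext Q.prime (by rw [natDegree_comp]; exact hc)
  eq := by
    rw [← Polynomial.map_pow, ← Polynomial.map_mul, ← Q.eq, Polynomial.map_sub, map_C]
  cop := by
    intro π' h1 h2
    obtain ⟨π, h3, h4, h5⟩ := facExt h1 h2
    rw [natDegree_map]
    exact Nat.Coprime.coprime_dvd_left h5 (Q.cop π h3 h4)

end base

section small

variable {k : Type} [Field k]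

theorem Hyp.of_prime {m h : k[X]} (hm : m.Monic) (hirr : Irreducible m) (hp : m.natDegree.Prime)
    (h3 : 3 ≤ m.natDegree) (hlt : h.natDegree < m.natDegree) (hh : Irreducible (m.comp h))
    (x₀ : k) : Hyp m h (h - C x₀) 1 x₀ where
  mon := hm
  irr := hirr
  odd := hp.odd_of_ne_two (by omega)
  big := h3
  prime := hh
  eq := by rw [one_pow, mul_one]
  cop := by
    intro π h1 h2
    have hne : h - C x₀ ≠ 0 := by
      intro h0
      have h4 : h = C x₀ := sub_eq_zero.1 h0
      have h5 := hh.natDegree_pos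
      rw [natDegree_comp, h4, natDegree_C, mul_zero] at h5
      exact lt_irrefl _ h5
    have h4 := natDegree_le_of_dvd h2 hne
    rw [natDegree_sub_C] at h4
    exact (Nat.coprime_of_lt_prime h1.natDegree_pos.ne' (lt_of_le_of_lt h4 hlt) hp).symm

end small

section comp

variable {k : Type} [Field k]

/-- If `h - τ` is irreducible over `k(τ)`, then `m(h)` is irreducible. -/
theorem irr_comp {m h : k[X]} (hirr : Irreducible m)
    (hP : Irreducible (h.map (AdjoinRoot.of m) - C (AdjoinRoot.root m))) :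
    Irreducible (m.comp h) := by
  haveI : Fact (Irreducible m) := ⟨hirr⟩
  set P := h.map (AdjoinRoot.of m) - C (AdjoinRoot.root m) with hPd
  haveI : Fact (Irreducible P) := ⟨hP⟩
  haveI : FiniteDimensional k (AdjoinRoot m) := (AdjoinRoot.powerBasis hirr.ne_zero).finite
  haveI : FiniteDimensional (AdjoinRoot m) (AdjoinRoot P) := (AdjoinRoot.powerBasis hP.ne_zero).finite
  haveI : FiniteDimensional k (AdjoinRoot P) :=
    FiniteDimensional.trans k (AdjoinRoot m) (AdjoinRoot P)
  have hdegP : P.natDegree = h.natDegree := by rw [hPd, natDegree_sub_C, natDegree_map]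
  have hfr : Module.finrank k (AdjoinRoot P) = m.natDegree * h.natDegree := by
    rw [← Module.finrank_mul_finrank k (AdjoinRoot m) (AdjoinRoot P),
      (AdjoinRoot.powerBasis hirr.ne_zero).finrank, AdjoinRoot.powerBasis_dim,
      (AdjoinRoot.powerBasis hP.ne_zero).finrank, AdjoinRoot.powerBasis_dim, hdegP]
  set β := AdjoinRoot.root P with hβ
  set τ' : AdjoinRoot P := AdjoinRoot.of P (AdjoinRoot.root m) with hτ'
  have e1 : aeval β h = τ' := by
    have h1 : aeval β P = 0 := by
      rw [AdjoinRoot.aeval_eq, AdjoinRoot.mk_self]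
    have h2 : aeval β (h.map (algebraMap k (AdjoinRoot m))) = aeval β h :=
      aeval_map_algebraMap _ _ _
    have h3 : aeval β (h.map (algebraMap k (AdjoinRoot m)) - C (AdjoinRoot.root m)) = 0 := h1
    rw [map_sub, aeval_C, sub_eq_zero, h2] at h3
    exact h3
  have e2 : aeval τ' m = 0 := by
    have h1 : aeval (AdjoinRoot.root m) m = 0 := by
      rw [AdjoinRoot.aeval_eq, AdjoinRoot.mk_self]
    have h2 : aeval (algebraMap (AdjoinRoot m) (AdjoinRoot P) (AdjoinRoot.root m)) m =
        algebraMap (AdjoinRoot m) (AdjoinRoot P) (aeval (AdjoinRoot.root m) m) :=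
      aeval_algebraMap_apply _ _ _
    rw [h1, map_zero] at h2
    exact h2
  have hint : IsIntegral k β := Algebra.IsIntegral.isIntegral β
  have hmem : ∀ f : k[X], ∀ z ∈ IntermediateField.adjoin k {β}, aeval z f ∈
      IntermediateField.adjoin k {β} := by
    intro f z hz
    have h1 := (aeval (⟨z, hz⟩ : IntermediateField.adjoin k {β}) f).2
    have h2 : aeval ((IntermediateField.adjoin k {β}).val ⟨z, hz⟩) f =
        (IntermediateField.adjoin k {β}).val (aeval (⟨z, hz⟩ : IntermediateField.adjoin k {β}) f) :=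
      aeval_algHom_apply _ _ _
    exact h2 ▸ h1
  have hβm : β ∈ IntermediateField.adjoin k {β} := IntermediateField.mem_adjoin_simple_self k β
  have hτm : τ' ∈ IntermediateField.adjoin k {β} := by
    rw [← e1]
    exact hmem h β hβm
  have htop : IntermediateField.adjoin k {β} = ⊤ := by
    rw [eq_top_iff]
    intro x _
    obtain ⟨f, rfl⟩ := AdjoinRoot.mk_surjective x
    rw [← AdjoinRoot.aeval_eq, aeval_eq_sum_range]
    apply sum_mem
    intro i _
    rw [Algebra.smul_def]
    apply mul_mem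
    · obtain ⟨g, hg⟩ := AdjoinRoot.mk_surjective (f.coeff i)
      rw [← hg, ← AdjoinRoot.aeval_eq, ← aeval_algebraMap_apply]
      exact hmem g _ hτm
    · exact pow_mem hβm i
  have hdeg : (minpoly k β).natDegree = m.natDegree * h.natDegree := by
    rw [← IntermediateField.adjoin.finrank hint, htop, IntermediateField.finrank_top', hfr]
  have hdvd : minpoly k β ∣ m.comp h := by
    apply minpoly.dvd
    rw [aeval_comp, e1, e2]
  have hne : m.comp h ≠ 0 := by
    intro h0
    rw [comp_eq_zero_iff] at h0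
    rcases h0 with h0 | ⟨_, h0⟩
    · exact hirr.ne_zero h0
    · have h1 : h.natDegree = 0 := by rw [h0, natDegree_C]
      have h2 := hP.natDegree_pos
      rw [hdegP, h1] at h2
      exact lt_irrefl _ h2
  exact (associated_of_dvd_of_natDegree_le hdvd hne (by rw [natDegree_comp, hdeg])).irreducible
    (minpoly.irreducible hint)

theorem norm_root {m : k[X]} (hm : m.Monic) (hirr : Irreducible m) (c : k) :
    Algebra.norm k (algebraMap k (AdjoinRoot m) c - AdjoinRoot.root m) = m.eval c := by
  haveI : Fact (Irreducible m) := ⟨hirr⟩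
  have h3 := charpoly_leftMulMatrix (AdjoinRoot.powerBasis hirr.ne_zero)
  have h4 : minpoly k (AdjoinRoot.powerBasis hirr.ne_zero).gen = m := by
    rw [AdjoinRoot.powerBasis_gen, AdjoinRoot.minpoly_root hirr.ne_zero, hm.leadingCoeff, inv_one,
      C_1, mul_one]
  rw [h4] at h3
  rw [← congrArg (Polynomial.eval c) h3, Matrix.eval_charpoly,
    Algebra.norm_eq_matrix_det (AdjoinRoot.powerBasis hirr.ne_zero).basis, map_sub]
  congr 2
  rw [AlgHom.commutes]
  rfl

end comp

section tower

variable {k : Type} [Field k]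

theorem irr_tower {m : k[X]} (hm : m.Monic) (hirr : Irreducible m) (hodd : Odd m.natDegree)
    {l : ℕ} (hl : l.Prime) (hl2 : l ≠ 2) {u c : k} (hu : u ≠ 0)
    (hb : ∀ b : k, b ^ l * u ^ m.natDegree ≠ m.eval c) (j : ℕ) :
    Irreducible (m.comp (C u * X ^ l ^ j + C c)) := by
  haveI : Fact (Irreducible m) := ⟨hirr⟩
  haveI : FiniteDimensional k (AdjoinRoot m) := (AdjoinRoot.powerBasis hirr.ne_zero).finite
  apply irr_comp hirr
  set τ := AdjoinRoot.root m with hτ
  set ι : k →+* AdjoinRoot m := AdjoinRoot.of m with hι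
  have hu' : ι u ≠ 0 := (_root_.map_ne_zero ι).2 hu
  have e : (C u * X ^ l ^ j + C c).map ι - C τ =
      C (ι u) * (X ^ l ^ j - C ((τ - ι c) / ι u)) := by
    rw [Polynomial.map_add, Polynomial.map_mul, Polynomial.map_pow, Polynomial.map_X,
      Polynomial.map_C, Polynomial.map_C, mul_sub, ← C_mul, mul_div_cancel₀ _ hu', C_sub]
    ring
  rw [e, irreducible_isUnit_mul (isUnit_C.2 hu'.isUnit)]
  apply X_pow_sub_C_irreducible_of_prime_pow hl hl2
  intro b hb'
  apply hb (-Algebra.norm k b)
  have hlo : Odd l := hl.odd_of_ne_two hl2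
  have h1 : ι c - τ = (-b) ^ l * ι u := by
    rw [hlo.neg_pow, hb']
    field_simp
    ring
  have h2 := norm_root hm hirr c
  have h3 : Algebra.norm k (ι c - τ) = m.eval c := h2
  rw [h1, map_mul, map_pow] at h3
  have h4 : Algebra.norm k (ι u) = u ^ m.natDegree := by
    have := Algebra.norm_algebraMap (R := k) (S := AdjoinRoot m) u
    rw [(AdjoinRoot.powerBasis hirr.ne_zero).finrank, AdjoinRoot.powerBasis_dim] at this
    exact this
  have h5 : Algebra.norm k (-b) = -Algebra.norm k b := by
    have h6 : Algebra.norm k (-b) = Algebra.norm k (ι (-1) * b) := by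
      rw [map_neg ι, map_one ι, neg_one_mul]
    have h7 : Algebra.norm k (ι (-1)) = (-1 : k) ^ m.natDegree := by
      have := Algebra.norm_algebraMap (R := k) (S := AdjoinRoot m) (-1)
      rw [(AdjoinRoot.powerBasis hirr.ne_zero).finrank, AdjoinRoot.powerBasis_dim] at this
      exact this
    rw [h6, map_mul, h7, hodd.neg_one_pow, neg_one_mul]
  rw [h4, h5] at h3
  exact h3

theorem dvd_tower {q l : ℕ} (hq : l ∣ q - 1) (hq1 : 1 < q) (j : ℕ) :
    l ^ j * (q - 1) ∣ q ^ l ^ j - 1 := by
  induction j with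
  | zero => rw [pow_zero, one_mul, pow_one]
  | succ j ih =>
    set Q := q ^ l ^ j with hQ
    have hQ1 : 1 ≤ Q := Nat.one_le_pow _ _ (by omega)
    have h1 : q ^ l ^ (j + 1) = Q ^ l := by rw [hQ, ← pow_mul, pow_succ]
    have h2 : Q ^ l - 1 = (Q - 1) * ∑ i ∈ Finset.range l, Q ^ i := by
      zify [Nat.one_le_pow l Q hQ1, hQ1]
      rw [mul_comm]
      exact (geom_sum_mul (Q : ℤ) l).symm
    have h3 : l ∣ Q - 1 := by
      have h4 : q - 1 ∣ Q - 1 := by
        have := Nat.sub_dvd_pow_sub_pow q 1 (l ^ j)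
        rwa [one_pow] at this
      exact hq.trans h4
    have h4 : l ∣ ∑ i ∈ Finset.range l, Q ^ i := by
      have h5 : (Q : ℤ) ≡ 1 [ZMOD l] := by
        have : (l : ℤ) ∣ (Q : ℤ) - 1 := by
          have := Int.natCast_dvd_natCast.2 h3
          rwa [Nat.cast_sub hQ1, Nat.cast_one] at this
        exact (Int.modEq_iff_dvd.2 this).symm
      have h6 : ((∑ i ∈ Finset.range l, Q ^ i : ℕ) : ℤ) ≡ ∑ i ∈ Finset.range l, 1 [ZMOD l] := by
        push_cast
        apply Int.ModEq.sum
        intro i _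
        have := h5.pow i
        rwa [one_pow] at this
      rw [Finset.sum_const, Finset.card_range, nsmul_eq_mul, mul_one] at h6
      have h7 : (l : ℤ) ∣ (∑ i ∈ Finset.range l, Q ^ i : ℕ) := by
        have h8 := Int.modEq_zero_iff_dvd.1 (h6.trans (Int.modEq_zero_iff_dvd.2 dvd_rfl))
        exact h8
      exact_mod_cast h7
    rw [h1, h2, pow_succ, mul_assoc, mul_comm l (q - 1), ← mul_assoc]
    exact mul_dvd_mul ih h4

theorem Hyp.tower [Finite k] {m : k[X]} (hm : m.Monic) (hirr : Irreducible m)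
    (hodd : Odd m.natDegree) (h3 : 3 ≤ m.natDegree) {l : ℕ} (hl : l.Prime) (hl2 : l ≠ 2)
    (hlq : l ∣ Nat.card k - 1) (hln : ¬ l ∣ m.natDegree) {u c : k} (hu : u ≠ 0)
    (hb : ∀ b : k, b ^ l * u ^ m.natDegree ≠ m.eval c) (j : ℕ) (x₀ : k) :
    Hyp m (C u * X ^ l ^ j + C c) (C u * X ^ l ^ j + C c - C x₀) 1 x₀ where
  mon := hm
  irr := hirr
  odd := hodd
  big := h3
  prime := irr_tower hm hirr hodd hl hl2 hu hb j
  eq := by rw [one_pow, mul_one]
  cop := by
    intro π h1 h2
    have hpos : 0 < l ^ j := Nat.pow_pos hl.pos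
    set a : k := (x₀ - c) / u with ha
    have h4 : π ∣ X ^ l ^ j - C a := by
      have h5 : C u * X ^ l ^ j + C c - C x₀ = C u * (X ^ l ^ j - C a) := by
        rw [mul_sub, ← C_mul, ha, mul_div_cancel₀ _ hu, C_sub]
        ring
      rw [h5] at h2
      exact ((isUnit_C.2 hu.isUnit).dvd_mul_left).1 h2
    have h6 : π ∣ X ^ (Nat.card k) ^ (l ^ j) - X := by
      by_cases ha0 : a = 0
      · rw [ha0, C_0, sub_zero] at h4
        have h7 := h1.prime.dvd_of_dvd_pow h4
        refine h7.trans ?_
        refine dvd_sub (dvd_pow_self _ ?_) dvd_rfl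
        exact pow_ne_zero _ (Nat.card_pos).ne'
      · obtain ⟨r, hr⟩ := dvd_tower hlq (Finite.one_lt_card (α := k)) j
        have hq1 : 1 ≤ Nat.card k ^ l ^ j := Nat.one_le_pow _ _ Nat.card_pos
        have h8 : Nat.card k ^ l ^ j = l ^ j * (Nat.card k - 1) * r + 1 := by omega
        have h9 : (X ^ l ^ j - C a : k[X]) ∣ (X ^ l ^ j) ^ (Nat.card k - 1) - C a ^ (Nat.card k - 1) :=
          sub_dvd_pow_sub_pow _ _ _
        have h10 : a ^ (Nat.card k - 1) = 1 := by
          haveI := Fintype.ofFinite k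
          rw [Nat.card_eq_fintype_card]
          exact FiniteField.pow_card_sub_one_eq_one a ha0
        rw [← C_pow, h10, C_1, ← pow_mul] at h9
        have h11 : (X ^ (l ^ j * (Nat.card k - 1)) - 1 : k[X]) ∣
            (X ^ (l ^ j * (Nat.card k - 1))) ^ r - 1 ^ r := sub_dvd_pow_sub_pow _ _ _
        rw [one_pow, ← pow_mul] at h11
        rw [h8, pow_succ]
        have h12 : (X ^ (l ^ j * (Nat.card k - 1) * r) * X - X : k[X]) =
            (X ^ (l ^ j * (Nat.card k - 1) * r) - 1) * X := by ring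
        rw [h12]
        exact ((h4.trans h9).trans h11).mul_right _
    have h7 := h1.natDegree_dvd_of_dvd_X_pow_card_pow_sub_X h6
    refine Nat.Coprime.coprime_dvd_left h7 ?_
    exact Nat.Coprime.pow_left j ((Nat.Prime.coprime_iff_not_dvd hl).2 hln)

/-- There are such `u`. -/
theorem exists_u [Finite k] {m : k[X]} (hirr : Irreducible m) (h3 : 3 ≤ m.natDegree) {l : ℕ}
    (hl : l.Prime) (hlq : l ∣ Nat.card k - 1) (hln : ¬ l ∣ m.natDegree) (c : k) :
    ∃ u : k, u ≠ 0 ∧ ∀ b : k, b ^ l * u ^ m.natDegree ≠ m.eval c := by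
  have hc0 : m.eval c ≠ 0 := by
    intro h0
    have h1 := dvd_iff_isRoot.2 h0
    have h2 := ((irreducible_X_sub_C c).associated_of_dvd hirr h1)
    have h4 := natDegree_eq_of_degree_eq (degree_eq_degree_of_associated h2)
    rw [natDegree_X_sub_C] at h4
    omega
  by_cases h1 : ∀ b : k, b ^ l ≠ m.eval c
  · exact ⟨1, one_ne_zero, fun b => by rw [one_pow, mul_one]; exact h1 b⟩
  · push Not at h1
    obtain ⟨b₀, hb₀⟩ := h1
    -- a unit which is no `l`-th power
    obtain ⟨u, hu⟩ : ∃ u : kˣ, ∀ v : kˣ, v ^ l ≠ u := by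
      by_contra hcon
      push Not at hcon
      have hsurj : Function.Surjective fun v : kˣ => v ^ l := fun u => hcon u
      have hinj := Finite.injective_iff_surjective.2 hsurj
      have hcard : l ∣ Nat.card kˣ := by
        rw [Nat.card_units]
        exact hlq
      haveI : Fact l.Prime := ⟨hl⟩
      obtain ⟨x, hx⟩ := exists_prime_orderOf_dvd_card' l hcard
      have h2 : x ^ l = 1 := by rw [← hx]; exact pow_orderOf_eq_one x
      have h4 : x = 1 := hinj (by show x ^ l = 1 ^ l; rw [h2, one_pow])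
      rw [h4, orderOf_one] at hx
      exact hl.one_lt.ne hx
    refine ⟨u, u.ne_zero, fun b hb => ?_⟩
    have hb0 : b ≠ 0 := by
      rintro rfl
      rw [zero_pow hl.ne_zero, zero_mul] at hb
      exact hc0 hb.symm
    have hb00 : b₀ ≠ 0 := by
      rintro rfl
      rw [zero_pow hl.ne_zero] at hb₀
      exact hc0 hb₀.symm
    -- `u ^ n` is an `l`-th power
    set z : kˣ := Units.mk0 b₀ hb00 * (Units.mk0 b hb0)⁻¹ with hz
    have h5 : z ^ l = u ^ m.natDegree := by
      ext
      rw [hz]
      push_cast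
      rw [Units.val_mk0, Units.val_mk0, mul_pow, inv_pow, hb₀, ← hb]
      field_simp
    have hcop : Nat.Coprime l m.natDegree := (Nat.Prime.coprime_iff_not_dvd hl).2 hln
    have h6 := Nat.gcd_eq_gcd_ab l m.natDegree
    rw [hcop.gcd_eq_one] at h6
    apply hu (u ^ (Nat.gcdA l m.natDegree) * z ^ (Nat.gcdB l m.natDegree))
    have h7 : (u ^ (Nat.gcdA l m.natDegree) * z ^ (Nat.gcdB l m.natDegree)) ^ l =
        u ^ ((l : ℤ) * Nat.gcdA l m.natDegree + m.natDegree * Nat.gcdB l m.natDegree) := by
      rw [mul_pow, ← zpow_natCast, ← zpow_mul, ← zpow_natCast, ← zpow_mul,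
        mul_comm (Nat.gcdB l m.natDegree), zpow_mul z, zpow_natCast, h5, ← zpow_natCast u,
        ← zpow_mul, mul_comm _ (l : ℤ), ← zpow_add]
    rw [h7, ← h6, Nat.cast_one, zpow_one]

end tower

end Run7.h652.SG
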