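import Pool.Agent.Run7.h652.SG.Sl

/-!
# The main theorem
-/

open Polynomial WithZero IsDedekindDomain IsLocalRing
open scoped Classical

set_option autoImplicit false
set_option linter.all false

namespace Run7.h652.SG

open Run7.h905.BS Pool.Agent.N352.JB
open Pool.Agent.Y713.Jac (J CoordRing)
open Pool.Agent.Y160.SE (Jac)
open Pool.Agent.N352.Sha (ShaTrivial)
open Run7.h905.Out (IsClass)

attribute [local instance] Polynomial.algebra

theorem main {k : Type} [Field k] [Finite k] (K : Type) [Field K] [Algebra k[X] K]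
    [IsFractionRing k[X] K] (h2 : (2 : k) ≠ 0) {m h A B : k[X]} {x₀ : k} (Q : Hyp m h A B x₀) :
    ∃ P : Additive (J 2 (FF K m h (DD m h x₀)) K),
      IsClass (FF K m h (DD m h x₀)) (X - C (xP K m h x₀)) (C (yP K m h x₀)) (Additive.toMul P) ∧
      (∀ x : Additive (J 2 (FF K m h (DD m h x₀)) K), 2 • x = 0 → x = 0) ∧
      (∀ x : Additive (J 2 (FF K m h (DD m h x₀)) K), ∃ R, x = 2 • R ∨ x = P + 2 • R) ∧
      (∀ R, P ≠ 2 • R) ∧ ShaTrivial 2 (FF K m h (DD m h x₀)) k[X] := by
  haveI : Fact (Irreducible m) := ⟨Q.irr⟩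
  let kn := AdjoinRoot m
  let M := FractionRing kn[X]
  let τ : kn := AdjoinRoot.root m
  have H : Dat m τ := ⟨Q.mon, Q.irr, Q.odd, by
    show aeval (AdjoinRoot.root m) m = 0
    rw [AdjoinRoot.aeval_eq, AdjoinRoot.mk_self], by
    show Module.finrank k (AdjoinRoot m) = _
    rw [(AdjoinRoot.powerBasis Q.irr.ne_zero).finrank, AdjoinRoot.powerBasis_dim]⟩
  haveI := H.int
  have hinj : Function.Injective (algebraMap k[X] M) := by
    rw [IsScalarTower.algebraMap_eq k[X] kn[X] M]
    exact (IsFractionRing.injective kn[X] M).comp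
      (Polynomial.map_injective _ (algebraMap k kn).injective)
  letI : Algebra K M := RingHom.toAlgebra (IsFractionRing.lift hinj)
  haveI : IsScalarTower k[X] K M := IsScalarTower.of_algebraMap_eq fun z =>
    (IsFractionRing.lift_algebraMap hinj z).symm
  have h2K : (2 : K) ≠ 0 := by
    intro h0
    apply h2
    have h1 : Function.Injective ((algebraMap k[X] K).comp (C : k →+* k[X])) :=
      RingHom.injective _
    apply h1
    rw [map_zero, map_ofNat, h0]
  have hirr := FF_irr (K := K) M H Q.prime Q.DD_ne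
  have hsep := FF_sep (K := K) M H Q.prime Q.DD_ne
  have hmon := FF_monic (K := K) H h (DD m h x₀)
  have hodd : Odd (FF K m h (DD m h x₀)).natDegree := by
    rw [FF_deg H]
    exact H.odd
  have hmp := FF_minpoly (K := K) (M := M) H Q.prime Q.DD_ne
  set θ : M := algebraMap k[X] M (DD m h x₀) * cf M m h τ with hθ
  have hsd : ∀ g : K[X], IsSquare (aeval θ g) → ∃ s, FF K m h (DD m h x₀) ∣ g - s ^ 2 := by
    rintro g ⟨y, hy⟩
    obtain ⟨s, rfl⟩ := FF_surj (K := K) (M := M) H Q.prime Q.DD_ne y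
    refine ⟨s, ?_⟩
    rw [← hmp]
    apply minpoly.dvd
    rw [map_sub, map_pow, hy, pow_two, sub_self]
  obtain ⟨P, h3, h4, h5, h6, h7⟩ := crit (k := k) h2K hmon hirr hsep hodd (pt K m h x₀) (pt_adm Q)
    (fun g hcop hN hloc => by
      rcases selmer (M := M) h2 H Q hcop hN hloc with h8 | h8
      · exact Or.inl (hsd g h8)
      · exact Or.inr (hsd _ h8))
    (by
      rintro ⟨s, r, hs⟩
      apply not_sq (K := K) (M := M) H Q
      have h8 := congrArg (aeval θ) hs
      have h9 : aeval θ (FF K m h (DD m h x₀)) = 0 := FF_root H Q.prime Q.DD_ne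
      rw [map_mul, h9, zero_mul, map_sub, map_pow, sub_eq_zero] at h8
      exact ⟨aeval θ s, by rw [h8, pow_two]⟩)
  refine ⟨P, ?_, h4, h5, h6, h7⟩
  obtain ⟨e1, e2, e3⟩ := h3
  exact ⟨e1, e2, congrArg Additive.toMul e3⟩

end Run7.h652.SG
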