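import Pool.Agent.Run7.h652.SG.CB
import Pool.Agent.Run7.h652.SG.Model

/-!
# The factors of `m(h)` over `k_n[t]`
-/

open Polynomial
open scoped Classical

set_option autoImplicit false
set_option linter.all false

namespace Run7.h652.SG

section gal

variable {k kn : Type} [Field k] [Finite k] [Field kn] [Algebra k kn] {m : k[X]} {τ : kn}

theorem fin_kn (hirr : Irreducible m) (hdeg : Module.finrank k kn = m.natDegree) : Finite kn := by
  haveI : FiniteDimensional k kn := by
    apply FiniteDimensional.of_finrank_pos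
    rw [hdeg]
    exact hirr.natDegree_pos
  exact Module.finite_of_finite k

theorem root_conj (hτ : aeval τ m = 0) (σ : kn ≃ₐ[k] kn) : aeval (σ τ) m = 0 := by
  rw [aeval_algHom_apply, hτ, map_zero]

theorem conj_inj (hm : m.Monic) (hirr : Irreducible m) (hτ : aeval τ m = 0)
    (hdeg : Module.finrank k kn = m.natDegree) :
    Function.Injective fun σ : kn ≃ₐ[k] kn => σ τ := by
  intro σ σ' h
  have h' : σ τ = σ' τ := h
  have hτi : IsIntegral k τ := ⟨m, hm, hτ⟩
  haveI : FiniteDimensional k kn := by
    apply FiniteDimensional.of_finrank_pos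
    rw [hdeg]
    exact hirr.natDegree_pos
  have htop : IntermediateField.adjoin k {τ} = ⊤ := by
    apply IntermediateField.eq_of_le_of_finrank_eq le_top
    rw [IntermediateField.adjoin.finrank hτi, minpoly_τ hm hirr hτ, IntermediateField.finrank_top',
      hdeg]
  ext c
  have h1 : c ∈ (IntermediateField.adjoin k {τ}).toSubalgebra := by
    rw [htop]
    exact Algebra.mem_top
  rw [IntermediateField.adjoin_simple_toSubalgebra_of_isAlgebraic hτi.isAlgebraic,
    Algebra.adjoin_singleton_eq_range_aeval] at h1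
  obtain ⟨p, hp⟩ := h1
  have hp' : aeval τ p = c := hp
  rw [← hp', ← aeval_algHom_apply, ← aeval_algHom_apply, h']

variable [Fintype (kn ≃ₐ[k] kn)]

theorem card_gal (hirr : Irreducible m) (hdeg : Module.finrank k kn = m.natDegree) :
    Fintype.card (kn ≃ₐ[k] kn) = m.natDegree := by
  haveI := fin_kn hirr hdeg
  haveI : FiniteDimensional k kn := by
    apply FiniteDimensional.of_finrank_pos
    rw [hdeg]
    exact hirr.natDegree_pos
  rw [← Nat.card_eq_fintype_card, ← hdeg]
  exact IsGalois.card_aut_eq_finrank k kn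

theorem prod_gal (hm : m.Monic) (hirr : Irreducible m) (hτ : aeval τ m = 0)
    (hdeg : Module.finrank k kn = m.natDegree) :
    m.map (algebraMap k kn) = ∏ σ : kn ≃ₐ[k] kn, (X - C (σ τ)) := by
  symm
  apply eq_of_dvd_of_natDegree_le_of_leadingCoeff
  · apply Finset.prod_dvd_of_coprime
    · intro i _ j _ hij
      exact isCoprime_X_sub_C_of_isUnit_sub
        (sub_ne_zero.2 fun hc => hij (conj_inj hm hirr hτ hdeg hc)).isUnit
    · intro i _
      rw [dvd_iff_isRoot, IsRoot.def, eval_map_algebraMap]
      exact root_conj hτ i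
  · rw [hm.natDegree_map, natDegree_prod_of_monic _ _ fun i _ => monic_X_sub_C _]
    simp [card_gal hirr hdeg]
  · rw [(hm.map _).leadingCoeff]
    exact (monic_prod_of_monic _ _ fun i _ => monic_X_sub_C _)

omit [Fintype (kn ≃ₐ[k] kn)] in
/-- `h - τ` is irreducible. -/
theorem irr_sub (hm : m.Monic) (hirr : Irreducible m) (hτ : aeval τ m = 0)
    (hdeg : Module.finrank k kn = m.natDegree) {h : k[X]} (hh : Irreducible (m.comp h)) :
    Irreducible (h.map (algebraMap k kn) - C τ) := by
  haveI : FiniteDimensional k kn := by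
    apply FiniteDimensional.of_finrank_pos
    rw [hdeg]
    exact hirr.natDegree_pos
  have hpos : 0 < m.natDegree := hirr.natDegree_pos
  have hN : 0 < h.natDegree := by
    have h1 := hh.natDegree_pos
    rw [natDegree_comp] at h1
    exact Nat.pos_of_ne_zero fun h0 => by rw [h0, mul_zero] at h1; exact lt_irrefl _ h1
  have hdegQ : (h.map (algebraMap k kn) - C τ).natDegree = h.natDegree := by
    rw [natDegree_sub_C, natDegree_map]
  have hQ0 : h.map (algebraMap k kn) - C τ ≠ 0 := by
    intro h0
    rw [h0, natDegree_zero] at hdegQ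
    omega
  have hnu : ¬ IsUnit (h.map (algebraMap k kn) - C τ) := by
    intro h0
    have := natDegree_eq_zero_of_isUnit h0
    omega
  obtain ⟨P, hP, hPQ⟩ := WfDvdMonoid.exists_irreducible_factor hnu hQ0
  haveI : Fact (Irreducible P) := ⟨hP⟩
  haveI : FiniteDimensional kn (AdjoinRoot P) := (AdjoinRoot.powerBasis hP.ne_zero).finite
  haveI : FiniteDimensional k (AdjoinRoot P) := FiniteDimensional.trans k kn (AdjoinRoot P)
  have h1 : Module.finrank kn (AdjoinRoot P) = P.natDegree := by
    rw [(AdjoinRoot.powerBasis hP.ne_zero).finrank, AdjoinRoot.powerBasis_dim]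
  have h2 := Module.finrank_mul_finrank k kn (AdjoinRoot P)
  set θ := AdjoinRoot.root P with hθ
  have hz1 : aeval θ h = algebraMap kn (AdjoinRoot P) τ := by
    have h3 : aeval θ (h.map (algebraMap k kn) - C τ) = 0 := by
      rw [AdjoinRoot.aeval_eq, AdjoinRoot.mk_eq_zero]
      exact hPQ
    rw [map_sub, aeval_C, sub_eq_zero, aeval_map_algebraMap] at h3
    exact h3
  have hz : aeval θ (m.comp h) = 0 := by
    rw [aeval_comp, hz1, aeval_algebraMap_apply, hτ, map_zero]
  have hint : IsIntegral k θ := Algebra.IsIntegral.isIntegral θ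
  have h3 : (minpoly k θ).natDegree = m.natDegree * h.natDegree := by
    have h4 := (minpoly.irreducible hint).associated_of_dvd hh (minpoly.dvd k θ hz)
    rw [← natDegree_comp]
    exact natDegree_eq_of_degree_eq (degree_eq_degree_of_associated h4)
  have h5 : m.natDegree * h.natDegree ∣ Module.finrank k (AdjoinRoot P) := by
    rw [← h3, ← IntermediateField.adjoin.finrank hint]
    exact ⟨_, (Module.finrank_mul_finrank k (IntermediateField.adjoin k {θ}) (AdjoinRoot P)).symm⟩
  rw [← h2, h1, hdeg] at h5
  have h6 := Nat.le_of_dvd hP.natDegree_pos ((Nat.mul_dvd_mul_iff_left hpos).1 h5)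
  exact (associated_of_dvd_of_natDegree_le hPQ hQ0 (by rw [hdegQ]; exact h6)).irreducible hP

/-- The factorisation of `m(h)`. -/
theorem comp_prod (hm : m.Monic) (hirr : Irreducible m) (hτ : aeval τ m = 0)
    (hdeg : Module.finrank k kn = m.natDegree) (h : k[X]) :
    (m.comp h).map (algebraMap k kn) =
      ∏ σ : kn ≃ₐ[k] kn, (h.map (algebraMap k kn) - C (σ τ)) := by
  rw [Polynomial.map_comp, prod_gal hm hirr hτ hdeg]
  have h1 : ∀ s : Finset (kn ≃ₐ[k] kn), (∏ σ ∈ s, (X - C (σ τ) : kn[X])).comp
      (h.map (algebraMap k kn)) = ∏ σ ∈ s, (h.map (algebraMap k kn) - C (σ τ)) := by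
    intro s
    rw [Polynomial.prod_comp]
    exact Finset.prod_congr rfl fun σ _ => by rw [sub_comp, X_comp, C_comp]
  exact h1 _

end gal

end Run7.h652.SG
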