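import Pool.Agent.Y154.SE.Loc3

/-!
# Zeros of a polynomial over a finite field in a complete field
-/

open Polynomial WithZero
open scoped NNReal Classical

set_option autoImplicit false
set_option linter.all false

namespace Run7.h652.SG

open Pool.Agent.Y154.SE

variable {k L : Type} [Field k] [Finite k] [NontriviallyNormedField L] [IsUltrametricDist L]
  [CompleteSpace L]

theorem val_unit {Ω Γ : Type} [Field Ω] [LinearOrderedCommGroupWithZero Γ] [Algebra k Ω]
    (w : Valuation Ω Γ) {z : Ω} (hz : z ≠ 0) (ha : IsAlgebraic k z) : w z = 1 := by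
  have hint : IsIntegral k z := ha.isIntegral
  haveI : FiniteDimensional k (IntermediateField.adjoin k {z}) :=
    IntermediateField.adjoin.finiteDimensional hint
  haveI : Finite (IntermediateField.adjoin k {z}) := Module.finite_of_finite k
  set z' : IntermediateField.adjoin k {z} := IntermediateField.AdjoinSimple.gen k z with hz'
  have hzz : algebraMap (IntermediateField.adjoin k {z}) Ω z' = z :=
    IntermediateField.AdjoinSimple.algebraMap_gen k z
  have hz0 : z' ≠ 0 := by
    intro h0
    apply hz
    rw [← hzz, h0, map_zero]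
  obtain ⟨N, hN, hpow⟩ := isOfFinOrder_iff_pow_eq_one.1 (isOfFinOrder_of_finite (Units.mk0 z' hz0))
  have h1 : z' ^ N = 1 := by
    have := congrArg Units.val hpow
    rwa [Units.val_pow_eq_pow_val, Units.val_mk0, Units.val_one] at this
  have h2 : w z ^ N = 1 := by
    rw [← map_pow, ← hzz, ← map_pow, h1, map_one, map_one]
  exact (pow_eq_one_iff_of_nonneg zero_le hN.ne').1 h2

theorem near_root [Algebra k L] {m : k[X]} (hm : m.Monic) (hsep : m.Separable) {a : L}
    (ha : ‖aeval a m‖₊ < 1) : ∃ T : L, aeval T m = 0 ∧ ‖a - T‖₊ < 1 := by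
  set ι := algebraMap L (AlgebraicClosure L) with hι
  set mΩ := m.map (algebraMap k (AlgebraicClosure L)) with hmΩ
  have hs : mΩ.Splits := IsAlgClosed.splits _
  have hroot : ∀ T ∈ mΩ.roots, aeval T m = 0 := by
    intro T hT
    have := (mem_roots (hm.map _).ne_zero).1 hT
    rwa [IsRoot.def, eval_map_algebraMap] at this
  have halg : ∀ T ∈ mΩ.roots, IsAlgebraic k T := fun T hT => ⟨m, hm.ne_zero, hroot T hT⟩
  obtain ⟨T, hT, hclose⟩ : ∃ T ∈ mΩ.roots, sv (ι a - T) < 1 := by
    by_contra hcon
    push Not at hcon
    have h1 : sv (aeval (ι a) m) < 1 := by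
      rw [hι, aeval_algebraMap_apply, sv_algebraMap]
      exact ha
    rw [← eval_map_algebraMap, hs.eval_eq_prod_roots_of_monic (hm.map _), map_multiset_prod,
      Multiset.map_map] at h1
    have h2 : ∀ s : Multiset (AlgebraicClosure L), (∀ η ∈ s, 1 ≤ sv (ι a - η)) →
        1 ≤ (s.map (⇑sv ∘ fun x => ι a - x)).prod := by
      intro s
      induction s using Multiset.induction_on with
      | empty => intro _; simp
      | cons x s ih =>
        intro h
        rw [Multiset.map_cons, Multiset.prod_cons]
        exact one_le_mul (h x (Multiset.mem_cons_self x s))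
          (ih fun y hy => h y (Multiset.mem_cons_of_mem hy))
    exact absurd h1 (not_lt.2 (h2 _ hcon))
  have hint : IsIntegral L T := Algebra.IsIntegral.isIntegral T
  set μ := minpoly L T with hμ
  have hdvd : μ ∣ m.map (algebraMap k L) := by
    apply minpoly.dvd
    rw [aeval_map_algebraMap]
    exact hroot T hT
  have hμsep : μ.Separable := (hsep.map).of_dvd hdvd
  have hμs : (μ.map ι).Splits := IsAlgClosed.splits _
  have huniq : ∀ T' ∈ (μ.map ι).roots, T' = T := by
    intro T' hT'
    have h1 : aeval T' μ = 0 := by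
      have := (mem_roots ((minpoly.monic hint).map _).ne_zero).1 hT'
      rwa [IsRoot.def, hι, eval_map_algebraMap] at this
    obtain ⟨σ, hσ⟩ := minpoly.exists_algEquiv_of_root (Algebra.IsAlgebraic.isAlgebraic T) h1
    have h2 : sv (ι a - T') < 1 := by
      have h3 : σ (ι a) = ι a := σ.commutes a
      rw [← sv_equiv σ, map_sub, h3, hσ]
      exact hclose
    by_contra hne
    have h4 : sv (T' - T) = 1 := by
      apply val_unit (k := k) sv (sub_ne_zero.2 hne)
      refine IsAlgebraic.sub ⟨m, hm.ne_zero, ?_⟩ (halg T hT)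
      have h5 : aeval T' (m.map (algebraMap k L)) = 0 := by
        obtain ⟨r, hr⟩ := hdvd
        rw [hr, map_mul, h1, zero_mul]
      rwa [aeval_map_algebraMap] at h5
    have h5 : T' - T = (ι a - T) + -(ι a - T') := by ring
    rw [h5] at h4
    have h6 : sv ((ι a - T) + -(ι a - T')) < 1 :=
      Valuation.map_add_lt _ hclose (by rw [Valuation.map_neg]; exact h2)
    rw [h4] at h6
    exact lt_irrefl _ h6
  have hnd : (μ.map ι).roots.Nodup := nodup_roots (hμsep.map)
  have hcard : (μ.map ι).roots.card ≤ 1 := by
    rw [← Multiset.toFinset_card_of_nodup hnd]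
    exact Finset.card_le_one.2 fun x hx y hy => by
      rw [huniq x (Multiset.mem_toFinset.1 hx), huniq y (Multiset.mem_toFinset.1 hy)]
  have hdeg : μ.natDegree = 1 := by
    have h1 := hμs.natDegree_eq_card_roots
    rw [natDegree_map] at h1
    have h2 : 0 < μ.natDegree := minpoly.natDegree_pos hint
    omega
  obtain ⟨t, ht⟩ := minpoly.mem_range_of_degree_eq_one L T
    ((degree_eq_iff_natDegree_eq (minpoly.ne_zero hint)).2 hdeg)
  refine ⟨t, ?_, ?_⟩
  · have h1 := hroot T hT
    rw [← ht, aeval_algebraMap_apply] at h1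
    exact (map_eq_zero_iff _ (algebraMap L (AlgebraicClosure L)).injective).1 h1
  · rw [← sv_algebraMap, map_sub, ht]
    exact hclose

end Run7.h652.SG
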