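import Pool.Agent.Run7.h652.SG.Fd

/-!
# The constants and the inert places
-/

open Polynomial WithZero IsDedekindDomain
open scoped Classical

set_option autoImplicit false
set_option linter.all false

namespace Run7.h652.SG

open Run7.h905.BS
open Pool.Agent.W309.TD (NoTwo)
open Pool.Agent.Y154.SE (exists_exp exp_inj)

attribute [local instance] Polynomial.algebra

variable {k K kn M : Type} [Field k] [Finite k] [Field K] [Algebra k[X] K] [IsFractionRing k[X] K]
  [Field kn] [Algebra k kn] [Field M] [Algebra kn[X] M] [IsFractionRing kn[X] M] [Algebra K M]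
  [Algebra k[X] M] [IsScalarTower k[X] kn[X] M] [IsScalarTower k[X] K M] {m : k[X]} {τ : kn}

theorem sq_of_odd {F : Type} [Field F] {c : F} {n : ℕ} (hn : Odd n) (h : IsSquare (c ^ n)) :
    IsSquare c := by
  obtain ⟨j, hj⟩ := hn
  obtain ⟨r, hr⟩ := h
  by_cases hc : c = 0
  · rw [hc]; exact IsSquare.zero
  refine ⟨r / c ^ j, ?_⟩
  rw [div_mul_div_comm, ← hr, hj, eq_div_iff (mul_ne_zero (pow_ne_zero _ hc) (pow_ne_zero _ hc))]
  ring

/-- The map `k → k[t] → M` through `k_n`. -/
theorem const_M (c : k) : algebraMap kn[X] M (C (algebraMap k kn c)) =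
    algebraMap K M (algebraMap k[X] K (C c)) := by
  rw [← IsScalarTower.algebraMap_apply k[X] K M, IsScalarTower.algebraMap_apply k[X] kn[X] M,
    Polynomial.algebraMap_def, coe_mapRingHom, map_C]

/-- A constant is a square if its norm is one. -/
theorem const_sq (h2 : (2 : k) ≠ 0) (H : Dat m τ) (c : kn)
    (hc : IsSquare (Algebra.norm K (algebraMap kn[X] M (C c)))) : IsSquare c := by
  haveI := fin_kn H.irr H.deg
  haveI := H.fd
  haveI := H.int
  set e := (Nat.card kn - 1) / (Nat.card k - 1) with he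
  have hodd : Odd e := odd_exp h2 (by rw [H.deg]; exact H.odd)
  have h1 : algebraMap k kn (Algebra.norm k c) = c ^ e := FiniteField.algebraMap_norm_eq_pow
  set b := Algebra.norm k c with hb
  have h3 : Algebra.norm K (algebraMap kn[X] M (C c)) ^ e = algebraMap k[X] K (C b) ^ m.natDegree := by
    rw [← map_pow, ← map_pow, ← C_pow, ← h1, const_M (K := K), Algebra.norm_algebraMap,
      H.cv.finrank M, H.mon.natDegree_map]
  have h4 : IsSquare (algebraMap k[X] K (C b)) := by
    apply sq_of_odd H.odd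
    rw [← h3]
    exact hc.pow e
  have h5 : IsSquare (c ^ e) := by
    rw [← h1]
    exact (sq_const h4).map _
  exact sq_of_odd hodd h5

variable (K M) in
theorem units_sq (h2 : (2 : k) ≠ 0) (H : Dat m τ) (u : kn[X]ˣ)
    (hu : IsSquare (Algebra.norm K (algebraMap kn[X] M (u : kn[X])))) :
    IsSquare (algebraMap kn[X] M (u : kn[X])) := by
  obtain ⟨c, hc, hcu⟩ := Polynomial.isUnit_iff.1 u.isUnit
  rw [← hcu] at hu ⊢
  obtain ⟨r, hr⟩ := const_sq h2 H c hu
  exact ⟨algebraMap kn[X] M (C r), by rw [hr, C_mul, map_mul]⟩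

theorem sepKM (H : Dat m τ) : Algebra.IsSeparable K M := by
  haveI := H.int
  have hint : IsIntegral K (tM M τ) := H.cv.intK K M
  have htop : IntermediateField.adjoin K {tM M τ} = ⊤ := by
    rw [eq_top_iff]
    intro z _
    obtain ⟨g, rfl⟩ := H.cv.surjK K z
    exact IntermediateField.algebra_adjoin_le_adjoin K _ (aeval_mem_adjoin_singleton _ _)
  have hs : IsSeparable K (tM M τ) := by
    unfold IsSeparable
    have h1 : minpoly K (tM M τ) = (m.map (C : k →+* k[X])).map (algebraMap k[X] K) :=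
      H.cv.minpolyK K M
    rw [h1, Polynomial.map_map]
    exact H.sep.map
  have h2 := (IntermediateField.isSeparable_adjoin_simple_iff_isSeparable K M).2 hs
  rw [htop] at h2
  haveI := h2
  exact AlgEquiv.Algebra.isSeparable IntermediateField.topEquiv

theorem fdKM (H : Dat m τ) : FiniteDimensional K M := by
  haveI := H.int
  apply FiniteDimensional.of_finrank_pos
  rw [H.cv.finrank M, H.mon.natDegree_map]
  exact H.odd.pos

/-- The norm of an element congruent to one. -/
theorem norm_one_add (H : Dat m τ) (π : k[X]) (b : kn[X]) : ∃ r : k[X],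
    Algebra.norm K (algebraMap kn[X] M (1 + algebraMap k[X] kn[X] π * b)) =
      algebraMap k[X] K (1 + π * r) := by
  haveI := H.int
  haveI : FiniteDimensional K M := fdKM H
  haveI : Algebra.IsSeparable K M := sepKM H
  by_cases hπ : π = 0
  · exact ⟨0, by simp [hπ]⟩
  set E := AlgebraicClosure K with hE
  have hb : IsIntegral k[X] (algebraMap kn[X] M b) :=
    (Algebra.IsIntegral.isIntegral (R := k[X]) b).map (IsScalarTower.toAlgHom k[X] kn[X] M)
  have hσb : ∀ σ : M →ₐ[K] E, IsIntegral k[X] (σ (algebraMap kn[X] M b)) := fun σ =>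
    hb.map (σ.restrictScalars k[X])
  have hprod : ∀ s : Finset (M →ₐ[K] E), ∃ c : E, IsIntegral k[X] c ∧
      ∏ σ ∈ s, (1 + algebraMap k[X] E π * σ (algebraMap kn[X] M b)) =
        1 + algebraMap k[X] E π * c := by
    intro s
    induction s using Finset.induction_on with
    | empty => exact ⟨0, isIntegral_zero, by rw [Finset.prod_empty, mul_zero, add_zero]⟩
    | insert a s ha ih =>
      obtain ⟨c, hc, hcs⟩ := ih
      refine ⟨a (algebraMap kn[X] M b) + c + algebraMap k[X] E π *
        (a (algebraMap kn[X] M b) * c), ?_, ?_⟩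
      · exact ((hσb a).add hc).add (isIntegral_algebraMap.mul ((hσb a).mul hc))
      · rw [Finset.prod_insert ha, hcs]
        ring
  obtain ⟨c, hc, hcs⟩ := hprod Finset.univ
  have h1 := Algebra.norm_eq_prod_embeddings K E
    (algebraMap kn[X] M (1 + algebraMap k[X] kn[X] π * b))
  have h3 : ∀ σ : M →ₐ[K] E, σ (algebraMap kn[X] M (1 + algebraMap k[X] kn[X] π * b)) =
      1 + algebraMap k[X] E π * σ (algebraMap kn[X] M b) := by
    intro σ
    rw [map_add, map_add, map_one, map_one, map_mul, map_mul, ← IsScalarTower.algebraMap_apply,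
      IsScalarTower.algebraMap_apply k[X] K M, AlgHom.commutes,
      ← IsScalarTower.algebraMap_apply k[X] K E]
  rw [Finset.prod_congr rfl fun σ _ => h3 σ, hcs] at h1
  have hπK : algebraMap k[X] K π ≠ 0 := by simpa using hπ
  set N := Algebra.norm K (algebraMap kn[X] M (1 + algebraMap k[X] kn[X] π * b)) with hN
  have h4 : algebraMap K E ((N - 1) / algebraMap k[X] K π) = c := by
    have h5 : algebraMap k[X] E π ≠ 0 := by
      rw [IsScalarTower.algebraMap_apply k[X] K E]
      exact (_root_.map_ne_zero _).2 hπK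
    rw [map_div₀, map_sub, h1, map_one, ← IsScalarTower.algebraMap_apply k[X] K E,
      add_sub_cancel_left, mul_div_cancel_left₀ _ h5]
  have h5 : IsIntegral k[X] ((N - 1) / algebraMap k[X] K π) := by
    rw [← isIntegral_algebraMap_iff (algebraMap K E).injective, h4]
    exact hc
  obtain ⟨r, hr⟩ := IsIntegrallyClosed.isIntegral_iff.1 h5
  refine ⟨r, ?_⟩
  rw [map_add, map_one, map_mul, hr, mul_div_cancel₀ _ hπK]
  ring

theorem val_norm_le (H : Dat m τ) (v : HeightOneSpectrum k[X]) (b : kn[X]) :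
    v.valuation K (Algebra.norm K (algebraMap kn[X] M b)) ≤ 1 := by
  haveI := H.int
  have h1 : IsIntegral k[X] (algebraMap kn[X] M b) :=
    (Algebra.IsIntegral.isIntegral (R := k[X]) b).map (IsScalarTower.toAlgHom k[X] kn[X] M)
  have h2 := Algebra.isIntegral_norm K h1
  obtain ⟨r, hr⟩ := IsIntegrallyClosed.isIntegral_iff.1 h2
  rw [← hr]
  exact v.valuation_le_one r

theorem val_norm_unit (H : Dat m τ) {π : k[X]} (hπ : Irreducible π) {a : kn[X]}
    (ha : IsCoprime (algebraMap k[X] kn[X] π) a) :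
    (plQ hπ).valuation K (Algebra.norm K (algebraMap kn[X] M a)) = 1 := by
  obtain ⟨x, u, hxu⟩ := ha
  have h1 : a * u = 1 + algebraMap k[X] kn[X] π * (-x) := by linear_combination hxu
  obtain ⟨r, hr⟩ := norm_one_add (K := K) (M := M) H π (-x)
  rw [← h1, map_mul, map_mul] at hr
  have h2 : (plQ hπ).valuation K (algebraMap k[X] K (1 + π * r)) = 1 := by
    rw [HeightOneSpectrum.valuation_eq_one_iff_notMem]
    intro h3
    have h4 : π ∣ 1 + π * r := Ideal.mem_span_singleton.1 h3
    have h5 : π ∣ 1 := (dvd_add_left (Dvd.intro r rfl)).1 h4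
    exact hπ.not_isUnit (isUnit_of_dvd_one h5)
  have h3 := congrArg ((plQ hπ).valuation K) hr
  rw [map_mul, h2] at h3
  have h4 := val_norm_le (K := K) (M := M) H (plQ hπ) a
  have h5 := val_norm_le (K := K) (M := M) H (plQ hπ) u
  apply le_antisymm h4
  by_contra hlt
  rw [not_le] at hlt
  have h6 := lt_of_le_of_lt (mul_le_of_le_one_right' h5) hlt
  rw [h3] at h6
  exact lt_irrefl _ h6

/-- **The inert places.** -/
theorem inert_sq (H : Dat m τ) {π : k[X]} (hπ : Irreducible π)
    (hp : Irreducible (algebraMap k[X] kn[X] π)) (w : HeightOneSpectrum kn[X])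
    (hw : algebraMap k[X] kn[X] π ∈ w.asIdeal) {z : M} (hz : z ≠ 0)
    (hN : IsSquare (Algebra.norm K z)) : IsSquare (w.valuation M z) := by
  haveI := H.int
  haveI : FiniteDimensional K M := fdKM H
  obtain ⟨a, b, hb, rfl⟩ := IsFractionRing.div_surjective (A := kn[X]) z
  have hb0 : b ≠ 0 := nonZeroDivisors.ne_zero hb
  have ha0 : a ≠ 0 := by
    rintro rfl
    rw [map_zero, zero_div] at hz
    exact hz rfl
  set p := algebraMap k[X] kn[X] π with hpdef
  have hmul : ∀ c : kn[X], c ≠ 0 → FiniteMultiplicity p c := fun c hc =>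
    FiniteMultiplicity.of_prime_left hp.prime hc
  obtain ⟨a', haa, ha'⟩ := (hmul a ha0).exists_eq_pow_mul_and_not_dvd
  obtain ⟨b', hbb, hb'⟩ := (hmul b hb0).exists_eq_pow_mul_and_not_dvd
  set i := multiplicity p a with hi
  set j := multiplicity p b with hj
  have ca : IsCoprime p a' := hp.coprime_iff_not_dvd.2 ha'
  have cb : IsCoprime p b' := hp.coprime_iff_not_dvd.2 hb'
  have hwu : ∀ c : kn[X], IsCoprime p c → w.valuation M (algebraMap kn[X] M c) = 1 := by
    rintro c ⟨x, y, hxy⟩
    rw [HeightOneSpectrum.valuation_eq_one_iff_notMem]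
    intro hc
    apply w.isPrime.ne_top
    rw [Ideal.eq_top_iff_one, ← hxy]
    exact Ideal.add_mem _ (Ideal.mul_mem_left _ _ hw) (Ideal.mul_mem_left _ _ hc)
  have hva := val_norm_unit (K := K) (M := M) H hπ ca
  have hvb := val_norm_unit (K := K) (M := M) H hπ cb
  have hvp : (plQ hπ).valuation K (Algebra.norm K (algebraMap kn[X] M p)) =
      exp (-(m.natDegree : ℤ)) := by
    rw [hpdef, ← IsScalarTower.algebraMap_apply k[X] kn[X] M,
      IsScalarTower.algebraMap_apply k[X] K M, Algebra.norm_algebraMap, H.cv.finrank M,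
      H.mon.natDegree_map, map_pow, plQ_val, Pool.Agent.Y154.SE.exp_pow]
    congr 1
    ring
  have hNz : Algebra.norm K (algebraMap kn[X] M a / algebraMap kn[X] M b) *
      (Algebra.norm K (algebraMap kn[X] M p) ^ j * Algebra.norm K (algebraMap kn[X] M b')) =
      Algebra.norm K (algebraMap kn[X] M p) ^ i * Algebra.norm K (algebraMap kn[X] M a') := by
    have hbM : algebraMap kn[X] M b ≠ 0 := by
      rw [Ne, map_eq_zero_iff _ (IsFractionRing.injective kn[X] M)]
      exact hb0
    have e1 : algebraMap kn[X] M a / algebraMap kn[X] M b *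
        (algebraMap kn[X] M p ^ j * algebraMap kn[X] M b') =
        algebraMap kn[X] M p ^ i * algebraMap kn[X] M a' := by
      have e2 : algebraMap kn[X] M p ^ j * algebraMap kn[X] M b' = algebraMap kn[X] M b := by
        conv_rhs => rw [hbb, map_mul, map_pow]
      have e3 : algebraMap kn[X] M p ^ i * algebraMap kn[X] M a' = algebraMap kn[X] M a := by
        conv_rhs => rw [haa, map_mul, map_pow]
      rw [e2, e3, div_mul_cancel₀ _ hbM]
    have e4 := congrArg (Algebra.norm K) e1
    simp only [map_mul, map_pow] at e4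
    exact e4
  obtain ⟨r, hr⟩ := hN
  have h1 := congrArg ((plQ hπ).valuation K) hNz
  rw [hr] at h1
  simp only [map_mul, map_pow] at h1
  rw [hva, hvb, hvp, mul_one, mul_one] at h1
  have hr0 : r ≠ 0 := by
    rintro rfl
    rw [mul_zero, Algebra.norm_eq_zero_iff] at hr
    exact hz hr
  obtain ⟨t, ht⟩ := exists_exp ((Valuation.ne_zero_iff ((plQ hπ).valuation K)).2 hr0)
  rw [ht, ← exp_add, Pool.Agent.Y154.SE.exp_pow, Pool.Agent.Y154.SE.exp_pow, ← exp_add] at h1
  have h3 := exp_inj h1
  have h4 : Even ((i : ℤ) - j) := by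
    obtain ⟨q, hq⟩ := H.odd
    rw [hq] at h3
    push_cast at h3
    exact ⟨-t - q * (i - j), by linear_combination h3⟩
  obtain ⟨d, hd⟩ := h4
  set ρ := w.valuation M (algebraMap kn[X] M p) with hρ
  have hρ0 : ρ ≠ 0 := by
    rw [hρ, Valuation.ne_zero_iff, Ne, map_eq_zero_iff _ (IsFractionRing.injective kn[X] M)]
    exact hp.ne_zero
  refine ⟨ρ ^ d, ?_⟩
  rw [← zpow_add₀ hρ0, ← hd, zpow_sub₀ hρ0, map_div₀]
  have e2 : w.valuation M (algebraMap kn[X] M a) = ρ ^ i := by
    conv_lhs => rw [haa]
    rw [map_mul, map_mul, map_pow, map_pow, hwu a' ca, mul_one]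
  have e3 : w.valuation M (algebraMap kn[X] M b) = ρ ^ j := by
    conv_lhs => rw [hbb]
    rw [map_mul, map_mul, map_pow, map_pow, hwu b' cb, mul_one]
  rw [e2, e3, zpow_natCast, zpow_natCast]

end Run7.h652.SG
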