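import Pool.Agent.Run7.h652.SG.Bad
import Pool.Agent.Run7.h652.SG.Uni
import Pool.Agent.Run7.h652.SG.Ab
import Pool.Agent.Run7.h905.DK.De

/-!
# The Selmer group
-/

open Polynomial WithZero IsDedekindDomain IsLocalRing
open scoped Classical

set_option autoImplicit false
set_option linter.all false

namespace Run7.h652.SG

open Run7.h905.BS Pool.Agent.N352.JB
open Pool.Agent.W309.TD (NoTwo even_rep)
open Pool.Agent.Y160.SE (Good)
open Pool.Agent.N424.JB (good_two)

attribute [local instance] Polynomial.algebra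

/-- The hypotheses. -/
structure Hyp {k : Type} [Field k] (m h A B : k[X]) (x₀ : k) : Prop where
  mon : m.Monic
  irr : Irreducible m
  odd : Odd m.natDegree
  big : 3 ≤ m.natDegree
  prime : Irreducible (m.comp h)
  eq : h - C x₀ = A * B ^ 2
  cop : ∀ π : k[X], Irreducible π → π ∣ A → π.natDegree.Coprime m.natDegree

/-- `D = m(x₀) (h - x₀)`. -/
noncomputable def DD {k : Type} [Field k] (m h : k[X]) (x₀ : k) : k[X] :=
  C (m.eval x₀) * (h - C x₀)

section basic

variable {k : Type} [Field k] {m h A B : k[X]} {x₀ : k}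

theorem Hyp.ev (Q : Hyp m h A B x₀) : m.eval x₀ ≠ 0 := by
  intro h0
  have h1 : X - C x₀ ∣ m := dvd_iff_isRoot.2 h0
  have h2 := (irreducible_X_sub_C x₀).associated_of_dvd Q.irr h1
  have h3 := degree_eq_degree_of_associated h2
  rw [degree_X_sub_C, degree_eq_natDegree Q.irr.ne_zero] at h3
  have h4 : m.natDegree = 1 := by exact_mod_cast h3.symm
  have := Q.big
  omega

theorem Hyp.hdeg (Q : Hyp m h A B x₀) : 0 < h.natDegree := by
  have h1 := Q.prime.natDegree_pos
  rw [natDegree_comp] at h1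
  exact Nat.pos_of_ne_zero fun h0 => by rw [h0, mul_zero] at h1; exact lt_irrefl _ h1

theorem Hyp.sub_ne (Q : Hyp m h A B x₀) : h - C x₀ ≠ 0 := by
  intro h0
  have h1 := Q.hdeg
  rw [sub_eq_zero] at h0
  rw [h0, natDegree_C] at h1
  exact lt_irrefl _ h1

theorem Hyp.DD_ne (Q : Hyp m h A B x₀) : DD m h x₀ ≠ 0 :=
  mul_ne_zero (C_ne_zero.2 Q.ev) Q.sub_ne

theorem Hyp.DD_dvd (Q : Hyp m h A B x₀) : ¬ m.comp h ∣ DD m h x₀ := by
  intro hd
  have h1 := natDegree_le_of_dvd hd Q.DD_ne
  unfold DD at h1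
  rw [natDegree_comp, natDegree_C_mul Q.ev, natDegree_sub_C] at h1
  have h2 := Q.hdeg
  have h3 := Q.big
  nlinarith

end basic

section sel

variable {k K kn M : Type} [Field k] [Finite k] [Field K] [Algebra k[X] K] [IsFractionRing k[X] K]
  [Field kn] [Algebra k kn] [Field M] [Algebra kn[X] M] [IsFractionRing kn[X] M] [Algebra K M]
  [Algebra k[X] M] [IsScalarTower k[X] kn[X] M] [IsScalarTower k[X] K M] {m h A B : k[X]} {x₀ : k}
  {τ : kn}

/-- The `x`-coordinate of the point. -/
noncomputable def xP (K : Type) [Field K] [Algebra k[X] K] (m h : k[X]) (x₀ : k) : K :=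
  algebraMap k[X] K (C (m.eval x₀) * m.comp h)

/-- The `y`-coordinate of the point. -/
noncomputable def yP (K : Type) [Field K] [Algebra k[X] K] (m h : k[X]) (x₀ : k) : K :=
  algebraMap k[X] K (C (m.eval x₀) ^ ((m.natDegree + 1) / 2) * m.comp h ^ ((m.natDegree - 1) / 2))

/-- The point. -/
noncomputable def pt (K : Type) [Field K] [Algebra k[X] K] (m h : k[X]) (x₀ : k) : K[X] × K[X] :=
  (X - C (xP K m h x₀), C (yP K m h x₀))

theorem pt_eval (Q : Hyp m h A B x₀) :
    (FF K m h (DD m h x₀)).eval (xP K m h x₀) = yP K m h x₀ ^ 2 ∧ yP K m h x₀ ≠ 0 := by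
  have hinj : Function.Injective (algebraMap k[X] K) := IsFractionRing.injective k[X] K
  have hev : algebraMap k[X] K (C (m.eval x₀)) ≠ 0 :=
    (map_ne_zero_iff _ hinj).2 (C_ne_zero.2 Q.ev)
  have hs : algebraMap k[X] K (m.comp h) ≠ 0 := (map_ne_zero_iff _ hinj).2 Q.prime.ne_zero
  have hsub : algebraMap k[X] K (h - C x₀) ≠ 0 := (map_ne_zero_iff _ hinj).2 Q.sub_ne
  obtain ⟨g, hg⟩ := Q.odd
  have e1 : (m.natDegree + 1) / 2 = g + 1 := by omega
  have e2 : (m.natDegree - 1) / 2 = g := by omega
  constructor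
  · have hmK : ((m.map (C : k →+* k[X])).map (algebraMap k[X] K)).eval (algebraMap k[X] K h) =
        algebraMap k[X] K (m.comp h) := by
      rw [eval_map_apply, eval_mapC]
    have hx : ((m.map (C : k →+* k[X])).map (algebraMap k[X] K)).eval (algebraMap k[X] K (C x₀)) =
        algebraMap k[X] K (C (m.eval x₀)) := by
      rw [eval_map_apply, eval_map_apply]
    have h1 := mdl_curve (m := (m.map (C : k →+* k[X])).map (algebraMap k[X] K))
      (h := algebraMap k[X] K h) (D := algebraMap k[X] K (DD m h x₀)) (x := algebraMap k[X] K (C x₀))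
      (y := 1) (g := g) (by rw [(Q.mon.map _).natDegree_map, Q.mon.natDegree_map, hg]) (by rw [hmK]; exact hs)
      ((map_ne_zero_iff _ hinj).2 Q.DD_ne)
      (by
        intro h0
        apply hsub
        rw [map_sub, h0, sub_self])
      (by
        rw [hx]
        unfold DD
        rw [map_mul, map_sub]
        ring)
    rw [hmK] at h1
    have e3 : algebraMap k[X] K (DD m h x₀) = algebraMap k[X] K (C (m.eval x₀)) *
        (algebraMap k[X] K h - algebraMap k[X] K (C x₀)) := by
      unfold DD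
      rw [map_mul, map_sub]
    rw [map_sub] at hsub
    have e4 : algebraMap k[X] K (DD m h x₀) * algebraMap k[X] K (m.comp h) /
        (algebraMap k[X] K h - algebraMap k[X] K (C x₀)) = xP K m h x₀ := by
      unfold xP
      rw [e3, map_mul]
      field_simp
    have e5 : algebraMap k[X] K (DD m h x₀) ^ (g + 1) * algebraMap k[X] K (m.comp h) ^ g * 1 /
        (algebraMap k[X] K h - algebraMap k[X] K (C x₀)) ^ (g + 1) = yP K m h x₀ := by
      unfold yP
      rw [e1, e2, e3, mul_pow, map_mul, map_pow, map_pow]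
      field_simp
    rw [e4, e5] at h1
    have e6 : FF K m h (DD m h x₀) = mdl ((m.map (C : k →+* k[X])).map (algebraMap k[X] K))
        (algebraMap k[X] K h) (algebraMap k[X] K (DD m h x₀)) := by
      unfold FF
      rw [mdl_map _ (Q.mon.map _)]
    rw [e6, h1]
  · unfold yP
    rw [map_mul, map_pow, map_pow]
    exact mul_ne_zero (pow_ne_zero _ hev) (pow_ne_zero _ hs)

theorem pt_adm (Q : Hyp m h A B x₀) : Adm (FF K m h (DD m h x₀)) [pt K m h x₀] := by
  obtain ⟨h1, h2⟩ := pt_eval (K := K) Q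
  intro p hp
  rw [List.mem_singleton] at hp
  rw [hp]
  refine ⟨monic_X_sub_C _, ?_, ?_⟩
  · refine ((irreducible_X_sub_C _).coprime_iff_not_dvd).2 fun h3 => ?_
    have h4 : (FF K m h (DD m h x₀)).eval (xP K m h x₀) = 0 := dvd_iff_isRoot.1 h3
    rw [h1] at h4
    exact pow_ne_zero _ h2 h4
  · show X - C (xP K m h x₀) ∣ C (yP K m h x₀) ^ 2 - FF K m h (DD m h x₀)
    rw [dvd_iff_isRoot, IsRoot.def, eval_sub, eval_pow, eval_C, h1, sub_self]

/-- The constant. -/
def cst (kn : Type) [Field kn] [Algebra k kn] (m : k[X]) (x₀ : k) (τ : kn) : kn :=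
  algebraMap k kn (m.eval x₀) * (algebraMap k kn x₀ - τ)

theorem cst_ne (H : Dat m τ) (Q : Hyp m h A B x₀) : cst kn m x₀ τ ≠ 0 := by
  refine mul_ne_zero ((_root_.map_ne_zero _).2 Q.ev) ?_
  rw [sub_ne_zero]
  intro h0
  apply Q.ev
  have h1 := H.root
  rw [← h0, aeval_algebraMap_apply_eq_algebraMap_eval] at h1
  exact (map_eq_zero_iff _ (algebraMap k kn).injective).1 h1

/-- The Kummer class of the point. -/
theorem kl_pt (H : Dat m τ) (Q : Hyp m h A B x₀) :
    aeval (algebraMap k[X] M (DD m h x₀) * cf M m h τ) (kl [pt K m h x₀]) =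
      algebraMap kn[X] M (C (cst kn m x₀ τ)) * cf M m h τ := by
  have hsub := sub_ne (M := M) H Q.prime
  have e1 : kl [pt K m h x₀] = C (xP K m h x₀) - X := by
    unfold kl pt
    rw [List.map_cons, List.map_nil, List.prod_cons, List.prod_nil, natDegree_X_sub_C]
    ring
  rw [e1, map_sub, aeval_C, aeval_X]
  have e2 : ∀ c : k, algebraMap kn[X] M (C (algebraMap k kn c)) = algebraMap k[X] M (C c) := by
    intro c
    rw [IsScalarTower.algebraMap_apply k[X] kn[X] M, Polynomial.algebraMap_def, coe_mapRingHom,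
      map_C]
  have e3 : algebraMap kn[X] M (C (cst kn m x₀ τ)) = algebraMap k[X] M (C (m.eval x₀)) *
      (algebraMap k[X] M (C x₀) - tM M τ) := by
    unfold cst
    rw [C_mul, C_sub, map_mul, map_sub, e2, e2]
    rfl
  have e4 : algebraMap k[X] M (DD m h x₀) = algebraMap k[X] M (C (m.eval x₀)) *
      (algebraMap k[X] M h - algebraMap k[X] M (C x₀)) := by
    unfold DD
    rw [map_mul, map_sub]
  have e5 : algebraMap K M (xP K m h x₀) = algebraMap k[X] M (C (m.eval x₀)) *
      algebraMap k[X] M (m.comp h) := by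
    unfold xP
    rw [← IsScalarTower.algebraMap_apply k[X] K M, map_mul]
  rw [e3, e4, e5]
  unfold cf
  field_simp
  ring

/-- The valuations of constants. -/
theorem val_const (w : HeightOneSpectrum kn[X]) {c : kn} (hc : c ≠ 0) :
    w.valuation M (algebraMap kn[X] M (C c)) = 1 := by
  rw [HeightOneSpectrum.valuation_eq_one_iff_notMem]
  intro h1
  apply w.isPrime.ne_top
  exact Ideal.eq_top_of_isUnit_mem _ h1 (isUnit_C.2 hc.isUnit)

theorem fac_dvd (H : Dat m τ) (h : k[X]) (σ : kn ≃ₐ[k] kn) :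
    h.map (algebraMap k kn) - C (σ τ) ∣ algebraMap k[X] kn[X] (m.comp h) := by
  haveI := H.fd
  haveI : Fintype (kn ≃ₐ[k] kn) := Fintype.ofFinite _
  rw [Polynomial.algebraMap_def, coe_mapRingHom, comp_prod H.mon H.irr H.root H.deg]
  exact Finset.dvd_prod_of_mem _ (Finset.mem_univ σ)

theorem val_cf (H : Dat m τ) (w : HeightOneSpectrum kn[X])
    (hw : algebraMap k[X] kn[X] (m.comp h) ∉ w.asIdeal) : w.valuation M (cf M m h τ) = 1 := by
  have h1 : w.valuation M (algebraMap kn[X] M (algebraMap k[X] kn[X] (m.comp h))) = 1 := by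
    rw [HeightOneSpectrum.valuation_eq_one_iff_notMem]
    exact hw
  have h2 : w.valuation M (algebraMap kn[X] M (h.map (algebraMap k kn) - C τ)) = 1 := by
    rw [HeightOneSpectrum.valuation_eq_one_iff_notMem]
    intro h1
    apply hw
    obtain ⟨r, hr⟩ := fac_dvd H h (1 : kn ≃ₐ[k] kn)
    rw [AlgEquiv.one_apply] at hr
    rw [hr]
    exact Ideal.mul_mem_right _ _ h1
  unfold cf
  rw [map_div₀, sub_eq, IsScalarTower.algebraMap_apply k[X] kn[X] M, h1, h2, div_one]

/-- The valuations of a local class away from `m(h)`. -/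
theorem off_all [Algebra.IsIntegral k[X] kn[X]] (H : Dat m τ) (Q : Hyp m h A B x₀) {g : K[X]}
    (hne : aeval (algebraMap k[X] M (DD m h x₀) * cf M m h τ) g ≠ 0)
    (hN : IsSquare (Algebra.norm K (aeval (algebraMap k[X] M (DD m h x₀) * cf M m h τ) g)))
    (hloc : LocAll (k := k) (FF K m h (DD m h x₀)) g) (w : HeightOneSpectrum kn[X])
    (hs : algebraMap k[X] kn[X] (m.comp h) ∉ w.asIdeal) :
    IsSquare (w.valuation M (aeval (algebraMap k[X] M (DD m h x₀) * cf M m h τ) g)) := by
  haveI := H.fd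
  by_cases hA : algebraMap k[X] kn[X] A ∈ w.asIdeal
  · -- an inert place
    haveI : w.asIdeal.IsPrime := w.isPrime
    have hv : (w.under k[X]).asIdeal.IsPrime := (w.under k[X]).isPrime
    have hA' : A ∈ (w.under k[X]).asIdeal := hA
    have hA0 : A ≠ 0 := by
      rintro rfl
      apply Q.sub_ne
      rw [Q.eq, zero_mul]
    obtain ⟨π, hπ, hπA, hπw⟩ : ∃ π : k[X], Irreducible π ∧ π ∣ A ∧ π ∈ (w.under k[X]).asIdeal := by
      have h1 : ∀ s : Multiset k[X], s.prod ∈ (w.under k[X]).asIdeal →
          ∃ π ∈ s, π ∈ (w.under k[X]).asIdeal := by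
        intro s
        induction s using Multiset.induction_on with
        | empty =>
          intro h1
          rw [Multiset.prod_zero] at h1
          exact absurd ((Ideal.eq_top_iff_one _).2 h1) hv.ne_top
        | cons a s ih =>
          intro h1
          rw [Multiset.prod_cons] at h1
          rcases hv.mem_or_mem h1 with h2 | h2
          · exact ⟨a, Multiset.mem_cons_self a s, h2⟩
          · obtain ⟨π, h3, h4⟩ := ih h2
            exact ⟨π, Multiset.mem_cons_of_mem h3, h4⟩
      have h2 := UniqueFactorizationMonoid.factors_prod hA0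
      obtain ⟨u, hu⟩ := h2
      have h3 : (UniqueFactorizationMonoid.factors A).prod ∈ (w.under k[X]).asIdeal := by
        have h4 : (UniqueFactorizationMonoid.factors A).prod = A * ((u⁻¹ : k[X]ˣ) : k[X]) := by
          have h5 := congrArg (fun z => z * ((u⁻¹ : k[X]ˣ) : k[X])) hu
          simp only [mul_assoc, Units.mul_inv, mul_one] at h5
          exact h5
        rw [h4]
        exact Ideal.mul_mem_right _ _ hA'
      obtain ⟨π, h5, h6⟩ := h1 _ h3
      exact ⟨π, UniqueFactorizationMonoid.irreducible_of_factor π h5,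
        UniqueFactorizationMonoid.dvd_of_mem_factors h5, h6⟩
    have hirr : Irreducible (algebraMap k[X] kn[X] π) := by
      rw [Polynomial.algebraMap_def, coe_mapRingHom]
      exact Run7.h905.DK.irr_ext hπ (by rw [H.deg]; exact Q.cop π hπ hπA)
    exact inert_sq H hπ hirr w hπw hne hN
  · refine off_even H Q.prime Q.DD_ne (u := C (m.eval x₀) * A) (b := B) ?_ w hs ?_ hloc
    · unfold DD
      rw [Q.eq]
      ring
    · rw [map_mul]
      intro h1
      rcases w.isPrime.mem_or_mem h1 with h2 | h2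
      · apply w.isPrime.ne_top
        refine Ideal.eq_top_of_isUnit_mem _ h2 ?_
        exact (isUnit_C.2 Q.ev.isUnit).map _
      · exact hA h2

/-- A nonzero element with even valuations and square norm is a square. -/
theorem sq_of_even (h2 : (2 : k) ≠ 0) (H : Dat m τ) {z : M} (hz : z ≠ 0)
    (hN : IsSquare (Algebra.norm K z))
    (hev : ∀ w : HeightOneSpectrum kn[X], IsSquare (w.valuation M z)) : IsSquare z := by
  haveI : FiniteDimensional K M := fdKM H
  obtain ⟨u, s, hs0, hus⟩ := even_rep no_two_kn hz hev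
  have h1 : IsSquare (Algebra.norm K (algebraMap kn[X] M (u : kn[X]))) := by
    obtain ⟨r, hr⟩ := hN
    rw [hus, map_mul, map_pow] at hr
    refine ⟨r / Algebra.norm K s, ?_⟩
    have : Algebra.norm K s ≠ 0 := by
      rw [Ne, Algebra.norm_eq_zero_iff]
      exact hs0
    field_simp
    rw [← pow_two] at hr
    exact hr
  obtain ⟨r, hr⟩ := units_sq K M h2 H u h1
  refine ⟨r * s, ?_⟩
  rw [hus, hr]
  ring

/-- **The Selmer group.** -/
theorem selmer (h2 : (2 : k) ≠ 0) (H : Dat m τ) (Q : Hyp m h A B x₀) {g : K[X]}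
    (hcop : IsCoprime g (FF K m h (DD m h x₀)))
    (hN : IsSquare (Algebra.norm K (AdjoinRoot.mk (FF K m h (DD m h x₀)) g)))
    (hloc : LocAll (k := k) (FF K m h (DD m h x₀)) g) :
    IsSquare (aeval (algebraMap k[X] M (DD m h x₀) * cf M m h τ) g) ∨
      IsSquare (aeval (algebraMap k[X] M (DD m h x₀) * cf M m h τ) (g * kl [pt K m h x₀])) := by
  haveI := H.int
  have hroot := FF_root (K := K) (M := M) H Q.prime Q.DD_ne
  have hnorm := fun g : K[X] => FF_norm (K := K) (M := M) H Q.prime Q.DD_ne g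
  set θ : M := algebraMap k[X] M (DD m h x₀) * cf M m h τ with hθ
  have hne : aeval θ g ≠ 0 := by
    intro h0
    obtain ⟨a, b, hab⟩ := hcop
    have h1 := congrArg (aeval θ) hab
    rw [map_add, map_mul, map_mul, h0, hroot, mul_zero, mul_zero, add_zero, map_one] at h1
    exact zero_ne_one h1
  have hkl := kl_pt (K := K) (M := M) H Q
  rw [← hθ] at hkl
  have hcf0 : cf M m h τ ≠ 0 := by
    unfold cf
    refine div_ne_zero ?_ (sub_ne H Q.prime)
    rw [IsScalarTower.algebraMap_apply k[X] K M]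
    exact (_root_.map_ne_zero _).2
      ((map_ne_zero_iff _ (IsFractionRing.injective k[X] K)).2 Q.prime.ne_zero)
  have hcst : algebraMap kn[X] M (C (cst kn m x₀ τ)) ≠ 0 := by
    rw [Ne, map_eq_zero_iff _ (IsFractionRing.injective kn[X] M), C_eq_zero]
    exact cst_ne H Q
  have h2K : (2 : K) ≠ 0 := by
    intro h0
    apply h2
    have h1 : Function.Injective ((algebraMap k[X] K).comp (C : k →+* k[X])) :=
      RingHom.injective _
    apply h1
    rw [map_zero, map_ofNat, h0]
  have hodd : Odd (FF K m h (DD m h x₀)).natDegree := by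
    rw [FF_deg H]
    exact H.odd
  have hN' : IsSquare (Algebra.norm K (aeval θ g)) := by
    rw [← hnorm]
    exact hN
  rcases bad_places (K := K) (M := M) H Q.prime Q.DD_dvd hloc with hb | hb
  · left
    apply sq_of_even (K := K) h2 H hne hN'
    intro w
    by_cases hw : algebraMap k[X] kn[X] (m.comp h) ∈ w.asIdeal
    · exact hb w hw
    · exact off_all H Q hne hN' hloc w hw
  · right
    rw [map_mul, hkl]
    refine sq_of_even (K := K) h2 H (mul_ne_zero hne (mul_ne_zero hcst hcf0)) ?_ ?_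
    · rw [← hkl, map_mul]
      refine IsSquare.mul hN' ?_
      have hg : Good 2 (-1 : K) (FF K m h (DD m h x₀)) :=
        good_two h2K (FF_monic H h _) (FF_sep M H Q.prime Q.DD_ne) hodd
      obtain ⟨y, hy⟩ := norm_kl hg (SeparableClosure K) hodd (pt_adm Q)
      rw [hnorm] at hy
      exact ⟨y, by rw [hy, pow_two]⟩
    · intro w
      rw [map_mul, map_mul, val_const w (cst_ne H Q), one_mul]
      by_cases hw : algebraMap k[X] kn[X] (m.comp h) ∈ w.asIdeal
      · rw [← map_mul]
        exact hb w hw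
      · rw [val_cf H w hw, mul_one]
        exact off_all H Q hne hN' hloc w hw

/-- The class of the point is not a square. -/
theorem not_sq (H : Dat m τ) (Q : Hyp m h A B x₀) :
    ¬ IsSquare (aeval (algebraMap k[X] M (DD m h x₀) * cf M m h τ) (kl [pt K m h x₀])) := by
  haveI := H.fd
  haveI : Fintype (kn ≃ₐ[k] kn) := Fintype.ofFinite _
  intro hsq
  rw [kl_pt (K := K) (M := M) H Q] at hsq
  obtain ⟨σ, hσ⟩ : ∃ σ : kn ≃ₐ[k] kn, σ ≠ 1 := by
    by_contra hcon
    push Not at hcon
    have h1 : Fintype.card (kn ≃ₐ[k] kn) ≤ 1 := Fintype.card_le_one_iff.2 fun a b => by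
      rw [hcon a, hcon b]
    rw [card_gal H.irr H.deg] at h1
    have := Q.big
    omega
  have hirrσ := irr_sub (H.conj σ).mon (H.conj σ).irr (H.conj σ).root (H.conj σ).deg Q.prime
  set w : HeightOneSpectrum kn[X] := plQ hirrσ with hw
  have hwσ : w.valuation M (algebraMap kn[X] M (h.map (algebraMap k kn) - C (σ τ))) =
      exp (-1 : ℤ) := plQ_val hirrσ
  have hwo : ∀ σ' : kn ≃ₐ[k] kn, σ' ≠ σ →
      w.valuation M (algebraMap kn[X] M (h.map (algebraMap k kn) - C (σ' τ))) = 1 := by
    intro σ' hσ'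
    rw [HeightOneSpectrum.valuation_eq_one_iff_notMem]
    intro h1
    have h3 : h.map (algebraMap k kn) - C (σ τ) ∈ w.asIdeal := Ideal.mem_span_singleton_self _
    have h4 := Ideal.sub_mem _ h1 h3
    have h5 : h.map (algebraMap k kn) - C (σ' τ) - (h.map (algebraMap k kn) - C (σ τ)) =
        C (σ τ - σ' τ) := by
      rw [C_sub]
      ring
    rw [h5] at h4
    apply w.isPrime.ne_top
    refine Ideal.eq_top_of_isUnit_mem _ h4 (isUnit_C.2 (sub_ne_zero.2 ?_).isUnit)
    intro h6
    exact hσ' (conj_inj H.mon H.irr H.root H.deg h6.symm)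
  have hsv : w.valuation M (algebraMap kn[X] M (algebraMap k[X] kn[X] (m.comp h))) =
      exp (-1 : ℤ) := by
    rw [Polynomial.algebraMap_def, coe_mapRingHom, comp_prod H.mon H.irr H.root H.deg, map_prod,
      map_prod, ← Finset.mul_prod_erase _ _ (Finset.mem_univ σ), hwσ,
      Finset.prod_eq_one fun σ' hσ' => hwo σ' (Finset.mem_erase.1 hσ').1, mul_one]
  have h1 : w.valuation M (h.map (algebraMap k kn) - C τ |> algebraMap kn[X] M) = 1 := by
    have := hwo 1 hσ.symm
    rwa [AlgEquiv.one_apply] at this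
  have hv := hsq.map (w.valuation M)
  rw [map_mul, val_const w (cst_ne H Q), one_mul] at hv
  unfold cf at hv
  rw [map_div₀, sub_eq, IsScalarTower.algebraMap_apply k[X] kn[X] M, hsv, h1, div_one] at hv
  exact not_sq_exp hv

end sel

end Run7.h652.SG
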